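import Pool.Agent.Helper11U.Blocks

/-!
# The absolute Hodge conjecture

`C` is the (semisimple, abelian) category of motives over `ℂ` for absolute Hodge cycles. For a separated
scheme `X` of finite type over `ℂ` the object `G i w X` of `C` is the graded piece of weight `w` of the
cohomology `H^i_c(X)` with compact support, and `T M = M(-1)` is the Tate twist. For smooth proper `Y` the
object `G i i Y` is the motive `h^i(Y)`.
-/

set_option autoImplicit false

open CategoryTheory CategoryTheory.Limits AlgebraicGeometry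
open Pool.Agent.Y116.UV Pool.Agent.Z125.UN Pool.Agent.Q282.UK

universe v u

namespace Pool.Agent.Helper11U

/-- The data: the objects `G i w X`, the Tate twist `T` (see `GrThy`) and, for motives `M`,
* `Hdg n M`, the space of Hodge classes of `M(n)`;
* `Conj σ M`, the conjugate motive `M_σ`, for automorphisms `σ` of the field `ℂ`;
* `dR n M`, the de Rham realization of `M(n)`, and `et ℓ n M`, the `ℓ`-adic realization of `M(n)`, as
  rational vector spaces;
* `cdR`, `cet`: the comparison maps, restricted to Hodge classes;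
* `tdR`, `tet`: the transport `w ↦ w_σ`. -/
structure AbsThy (C : Type u) [Category.{v} C] extends GrThy ℂ C where
  Hdg : ℤ → C ⥤ ModuleCat.{0} ℚ
  Conj : (ℂ ≃+* ℂ) → C ⥤ C
  dR : ℤ → C ⥤ ModuleCat.{0} ℚ
  et : Nat.Primes → ℤ → C ⥤ ModuleCat.{0} ℚ
  cdR : ∀ n, Hdg n ⟶ dR n
  cet : ∀ ℓ n, Hdg n ⟶ et ℓ n
  tdR : ∀ σ n, dR n ⟶ Conj σ ⋙ dR n
  tet : ∀ σ ℓ n, et ℓ n ⟶ Conj σ ⋙ et ℓ n

section

variable {C : Type u} [Category.{v} C]

/-- Q1 for `M`: for all `σ` and all Hodge classes `v` of `M(n)`, the class `(v^dR)_σ` is the image of a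
Hodge class `v_σ` of `M_σ(n)` under the comparison map. -/
def DeRhamPart (D : AbsThy C) (M : C) : Prop :=
  ∀ (σ : ℂ ≃+* ℂ) (n : ℤ) (v : (D.Hdg n).obj M), ∃ v' : (D.Hdg n).obj ((D.Conj σ).obj M),
    ((D.cdR n).app _).hom v' = ((D.tdR σ n).app M).hom (((D.cdR n).app M).hom v)

/-- Q2 for `M`: the same for the `ℓ`-adic realizations, for all primes `ℓ`. -/
def EllAdicPart (D : AbsThy C) (M : C) : Prop :=
  ∀ (σ : ℂ ≃+* ℂ) (ℓ : Nat.Primes) (n : ℤ) (v : (D.Hdg n).obj M),
    ∃ v' : (D.Hdg n).obj ((D.Conj σ).obj M),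
      ((D.cet ℓ n).app _).hom v' = ((D.tet σ ℓ n).app M).hom (((D.cet ℓ n).app M).hom v)

/-- `Q` is the de Rham part (Q1) or the `ℓ`-adic part (Q2) of the question, as a property of motives. -/
def IsPart (D : AbsThy C) (Q : C → Prop) : Prop := Q = DeRhamPart D ∨ Q = EllAdicPart D

end

variable {C : Type u} [Category.{v} C] [Abelian C]

/-- The known properties.
* `gr`, `pure`: the properties of the graded pieces of `H^i_c` (`IsGrThy`; among them: `C` is
  semisimple), and purity for smooth proper schemes;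
* `resolution`: Hironaka's theorem as a principle of dévissage;
* `additive`: the functors `Hdg n` are additive;
* `twist`, `point`: Q1 is true for `M` if and only if it is true for `M(-1)`, and it is true for the motive
  of a point; the same for Q2. -/
structure IsAbsThy (D : AbsThy C) : Prop where
  gr : IsGrThy D.toGrThy
  pure : IsPure D.toGrThy
  resolution : Resolution ℂ
  additive : ∀ n, (D.Hdg n).Additive
  twist : ∀ Q, IsPart D Q → ∀ M, Q (D.T M) ↔ Q M
  point : ∀ Q, IsPart D Q → ∀ i w, Q (D.G i w (aff ℂ ℂ))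

section general

variable {A W : C ⥤ ModuleCat.{0} ℚ} {K : C ⥤ C} (c : A ⟶ W) (t : W ⟶ K ⋙ W)

/-- the common form of the two conditions -/
def Cond (M : C) : Prop :=
  ∀ v : A.obj M, ∃ v' : A.obj (K.obj M), (c.app _).hom v' = (t.app M).hom ((c.app M).hom v)

omit [Abelian C] in
lemma nat_c {M N : C} (f : M ⟶ N) (v : A.obj M) :
    (c.app N).hom ((A.map f).hom v) = (W.map f).hom ((c.app M).hom v) :=
  congrArg (fun g => g.hom v) (c.naturality f)

omit [Abelian C] in
lemma nat_t {M N : C} (f : M ⟶ N) (v : W.obj M) :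
    (t.app N).hom ((W.map f).hom v) = (W.map (K.map f)).hom ((t.app M).hom v) :=
  congrArg (fun g => g.hom v) (t.naturality f)

omit [Abelian C] in
lemma cond_retract {M N : C} (s : M ⟶ N) (r : N ⟶ M) (h : s ≫ r = 𝟙 M) (hN : Cond c t N) :
    Cond c t M := by
  intro v
  obtain ⟨v', hv⟩ := hN ((A.map s).hom v)
  refine ⟨(A.map (K.map r)).hom v', ?_⟩
  have hrs : (A.map r).hom ((A.map s).hom v) = v := by
    have h1 := congrArg (fun g => g.hom v) (congrArg A.map h)
    rw [Functor.map_comp, CategoryTheory.Functor.map_id] at h1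
    exact h1
  rw [nat_c, hv, ← nat_t, ← nat_c, hrs]

lemma cond_sum [A.Additive] {M N : C} (hM : Cond c t M) (hN : Cond c t N) : Cond c t (M ⊞ N) := by
  intro v
  obtain ⟨v1, h1⟩ := hM ((A.map biprod.fst).hom v)
  obtain ⟨v2, h2⟩ := hN ((A.map biprod.snd).hom v)
  refine ⟨(A.map (K.map biprod.inl)).hom v1 + (A.map (K.map biprod.inr)).hom v2, ?_⟩
  have hv : v = (A.map biprod.inl).hom ((A.map biprod.fst).hom v) +
      (A.map biprod.inr).hom ((A.map biprod.snd).hom v) := by
    have h := congrArg (fun g => g.hom v)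
      (congrArg A.map (biprod.total (X := M) (Y := N)))
    simp only [Functor.map_add, Functor.map_comp, CategoryTheory.Functor.map_id] at h
    exact h.symm
  rw [map_add, nat_c, nat_c, h1, h2, ← nat_t, ← nat_t, ← nat_c, ← nat_c, ← map_add, ← map_add,
    ← hv]

end general

variable {D : AbsThy C} {Q : C → Prop}

lemma isAdd_part (hD : IsAbsThy D) (hQ : IsPart D Q) : IsAdd D.T Q where
  retract s r h hB := by
    rcases hQ with rfl | rfl
    · exact fun σ n => cond_retract (D.cdR n) (D.tdR σ n) s r h (hB σ n)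
    · exact fun σ ℓ n => cond_retract (D.cet ℓ n) (D.tet σ ℓ n) s r h (hB σ ℓ n)
  sum A B hA hB := by
    rcases hQ with rfl | rfl
    · intro σ n
      have := hD.additive n
      exact cond_sum (D.cdR n) (D.tdR σ n) (hA σ n) (hB σ n)
    · intro σ ℓ n
      have := hD.additive n
      exact cond_sum (D.cet ℓ n) (D.tet σ ℓ n) (hA σ ℓ n) (hB σ ℓ n)
  twist := hD.twist Q hQ

end Pool.Agent.Helper11U
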