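import Pool.Agent.Helper11U.Serre

/-!
# Comparison maps between two homology theories
-/

set_option autoImplicit false

open CategoryTheory CategoryTheory.Limits AlgebraicGeometry MvPolynomial
open Pool.Agent.Y116.UV Pool.Agent.Z125.UN Pool.Agent.Q282.UK Pool.Agent.Q282.UZ

namespace Pool.Agent.Helper11U

universe w w'

/-- Two homology theories `M i n X`, `N i n X` (degree `i`, weight `n`) for schemes over `k`, with values
in vector spaces over `E`, and a map `c` between them. -/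
structure CmpThy (k : Type) [Field k] (E : Type w') [Field E] where
  M : ℤ → ℤ → Sch k → ModuleCat.{w} E
  N : ℤ → ℤ → Sch k → ModuleCat.{w} E
  c : ∀ i n X, M i n X ⟶ N i n X

section lin

variable {E : Type w'} [Field E] {A B C A' B' : ModuleCat.{w} E}

/-- The maps `c : A → B` and `c' : A' → B'` are isomorphic. -/
def SameMap (c : A ⟶ B) (c' : A' ⟶ B') : Prop :=
  ∃ (e : A ≅ A') (e' : B ≅ B'), e.hom ≫ c' = c ≫ e'.hom

/-- The map `c : A → B` is a direct summand of the map `c' : A' → B'`. -/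
def SummandMap (c : A ⟶ B) (c' : A' ⟶ B') : Prop :=
  ∃ (s : A ⟶ A') (r : A' ⟶ A) (s' : B ⟶ B') (r' : B' ⟶ B),
    s ≫ r = 𝟙 A ∧ s' ≫ r' = 𝟙 B ∧ s ≫ c' = c ≫ s' ∧ r ≫ c = c' ≫ r'

/-- The sequence `A → B → C` of vector spaces is exact. -/
def Exc (f : A ⟶ B) (g : B ⟶ C) : Prop := Function.Exact f.hom g.hom

/-- The map is bijective. -/
def Bij (c : A ⟶ B) : Prop := Function.Bijective c.hom

variable {c : A ⟶ B} {c' : A' ⟶ B'}

lemma bij_iff : Bij c ↔ IsIso c := by
  rw [ConcreteCategory.isIso_iff_bijective]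
  rfl

lemma same_symm (h : SameMap c c') : SameMap c' c := by
  obtain ⟨e, e', h⟩ := h
  exact ⟨e.symm, e'.symm, by
    rw [Iso.symm_hom, Iso.symm_hom, Iso.inv_comp_eq, ← Category.assoc, h, Category.assoc,
      Iso.hom_inv_id, Category.comp_id]⟩

lemma summand_of_same (h : SameMap c c') : SummandMap c c' := by
  obtain ⟨e, e', h⟩ := h
  refine ⟨e.hom, e.inv, e'.hom, e'.inv, e.hom_inv_id, e'.hom_inv_id, h, ?_⟩
  rw [Iso.inv_comp_eq, ← Category.assoc, h, Category.assoc, Iso.hom_inv_id, Category.comp_id]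

lemma bij_summand (h : SummandMap c c') (hc : Bij c') : Bij c := by
  obtain ⟨s, r, s', r', h1, h2, h3, h4⟩ := h
  rw [bij_iff] at hc ⊢
  refine ⟨s' ≫ inv c' ≫ r, ?_, ?_⟩
  · rw [← Category.assoc, ← h3, Category.assoc, IsIso.hom_inv_id_assoc, h1]
  · rw [Category.assoc, Category.assoc, h4, IsIso.inv_hom_id_assoc, h2]

lemma bij_same (h : SameMap c c') (hc : Bij c) : Bij c' :=
  bij_summand (summand_of_same (same_symm h)) hc

lemma fin_summand (h : SummandMap c c') (hA : Module.Finite E A') : Module.Finite E A := by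
  obtain ⟨s, r, -, -, h1, -⟩ := h
  exact Module.Finite.of_surjective r.hom fun x => ⟨s.hom x, by
    rw [← LinearMap.comp_apply, ← ModuleCat.hom_comp, h1]
    rfl⟩

lemma fin_same (h : SameMap c c') (hA : Module.Finite E A) : Module.Finite E A' :=
  fin_summand (summand_of_same (same_symm h)) hA

lemma fin_mid (f : A ⟶ B) (g : B ⟶ C) (h : Exc f g) (hA : Module.Finite E A)
    (hC : Module.Finite E C) : Module.Finite E B := by
  have h1 : IsNoetherian E A := isNoetherian_of_isNoetherianRing_of_finite E A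
  have h2 : IsNoetherian E C := isNoetherian_of_isNoetherianRing_of_finite E C
  have h3 : IsNoetherian E B := by
    refine isNoetherian_of_range_eq_ker f.hom g.hom ?_
    ext y
    rw [LinearMap.mem_range, LinearMap.mem_ker]
    exact (h y).symm
  infer_instance

/-- A long exact sequence `⋯ → A_i → B_i → C_i → A_{i-1} → ⋯`. -/
structure LES (A B C : ℤ → ModuleCat.{w} E) where
  a : ∀ i, A i ⟶ B i
  b : ∀ i, B i ⟶ C i
  d : ∀ i, C (i + 1) ⟶ A i
  exB : ∀ i, Exc (a i) (b i)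
  exC : ∀ i, Exc (b (i + 1)) (d i)
  exA : ∀ i, Exc (d i) (a i)

/-- The five lemma. -/
lemma five {A₁ A₂ A₃ A₄ A₅ B₁ B₂ B₃ B₄ B₅ : ModuleCat.{w} E}
    {f₁ : A₁ ⟶ A₂} {f₂ : A₂ ⟶ A₃} {f₃ : A₃ ⟶ A₄} {f₄ : A₄ ⟶ A₅}
    {g₁ : B₁ ⟶ B₂} {g₂ : B₂ ⟶ B₃} {g₃ : B₃ ⟶ B₄} {g₄ : B₄ ⟶ B₅}
    {c₁ : A₁ ⟶ B₁} {c₂ : A₂ ⟶ B₂} {c₃ : A₃ ⟶ B₃} {c₄ : A₄ ⟶ B₄} {c₅ : A₅ ⟶ B₅}
    (h₁ : f₁ ≫ c₂ = c₁ ≫ g₁) (h₂ : f₂ ≫ c₃ = c₂ ≫ g₂) (h₃ : f₃ ≫ c₄ = c₃ ≫ g₃)
    (h₄ : f₄ ≫ c₅ = c₄ ≫ g₄)
    (e₁ : Exc f₁ f₂) (e₂ : Exc f₂ f₃) (e₃ : Exc f₃ f₄)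
    (e₁' : Exc g₁ g₂) (e₂' : Exc g₂ g₃) (e₃' : Exc g₃ g₄)
    (b₁ : Bij c₁) (b₂ : Bij c₂) (b₄ : Bij c₄) (b₅ : Bij c₅) : Bij c₃ :=
  LinearMap.bijective_of_surjective_of_bijective_of_bijective_of_injective
    f₁.hom f₂.hom f₃.hom f₄.hom g₁.hom g₂.hom g₃.hom g₄.hom
    c₁.hom c₂.hom c₃.hom c₄.hom c₅.hom
    (congrArg ModuleCat.Hom.hom h₁.symm) (congrArg ModuleCat.Hom.hom h₂.symm)
    (congrArg ModuleCat.Hom.hom h₃.symm) (congrArg ModuleCat.Hom.hom h₄.symm)
    e₁ e₂ e₃ e₁' e₂' e₃' b₁.2 b₂ b₄ b₅.1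

end lin

variable {k : Type} [Field k] {E : Type w'} [Field E]

/-- Long exact sequences `⋯ → H_i Z → H_i X → H_i U → H_{i-1} Z → ⋯` for both theories, compatible with
the comparison maps. -/
structure Ladder (D : CmpThy.{w} k E) (Z X U : Sch k) (n : ℤ) where
  L : LES (fun i => D.M i n Z) (fun i => D.M i n X) (fun i => D.M i n U)
  L' : LES (fun i => D.N i n Z) (fun i => D.N i n X) (fun i => D.N i n U)
  ca : ∀ i, L.a i ≫ D.c i n X = D.c i n Z ≫ L'.a i
  cb : ∀ i, L.b i ≫ D.c i n U = D.c i n X ≫ L'.b i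
  cd : ∀ i, L.d i ≫ D.c i n Z = D.c (i + 1) n U ≫ L'.d i

/-- The comparison maps of `X` in degree `i` and weight `n` and of `Y` in degree `i'` and weight `n'` are
isomorphic. -/
def CmpThy.Same (D : CmpThy.{w} k E) (i n : ℤ) (X : Sch k) (i' n' : ℤ) (Y : Sch k) : Prop :=
  SameMap (D.c i n X) (D.c i' n' Y)

/-- The comparison map of `X` in degree `i` and weight `n` is a direct summand of the one of `Y` in degree
`i'` and weight `n'`. -/
def CmpThy.Summand (D : CmpThy.{w} k E) (i n : ℤ) (X : Sch k) (i' n' : ℤ) (Y : Sch k) : Prop :=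
  SummandMap (D.c i n X) (D.c i' n' Y)

/-- `j` is the open immersion of the complement of `f = 0` in `Spec A`. -/
def IsCompl {A : Type} [CommRing A] [Algebra k A] {m : ℕ} (f : Fin m → A) {U : Sch k}
    (j : U ⟶ aff k A) : Prop :=
  IsOpenImmersion j.left ∧ Set.range j.left = {x : PrimeSpectrum A | ∃ l, f l ∉ x.asIdeal}

/-- The standard properties of two homology theories with a comparison map.
* `iso`: isomorphic schemes;
* `ladder`: the localization sequences of a closed subscheme `Z` of `X` with complement `U`, compatible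
  with the comparison maps;
* `empty`: the homology of the empty scheme vanishes;
* `bundle`: for the affine bundle `Spec A[w_0, …, w_m] / (∑ f_l w_l - 1) → U` of dimension `m`, `U` the
  complement of `f = 0` in `Spec A`, the homology in degree `i + 2m` and weight `n + m` of the total space
  is the homology of `U` in degree `i` and weight `n`;
* `torus`: the homology of `X` in degree `i` and weight `n` is a direct summand of the homology of
  `X × 𝔾_m` in degree `i + 2` and weight `n + 1`;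
* `point`: the comparison map is bijective for `Spec k`. -/
structure IsCmp (D : CmpThy.{w} k E) : Prop where
  iso : ∀ {X Y : Sch k}, FT True X → Nonempty (X ≅ Y) → ∀ i n, D.Same i n X i n Y
  ladder : ∀ {Z X U : Sch k} (i : Z ⟶ X) (j : U ⟶ X), FT True X → IsTriple i j → ∀ n : ℤ,
    Nonempty (Ladder D Z X U n)
  empty : ∀ X : Sch k, IsEmpty X.left → ∀ i n, Subsingleton (D.M i n X) ∧ Subsingleton (D.N i n X)
  bundle : ∀ (A : Type) [CommRing A] [Algebra k A] [Algebra.FiniteType k A] (m : ℕ)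
    (f : Fin (m + 1) → A) (U : Sch k) (j : U ⟶ aff k A), IsCompl f j → ∀ i n : ℤ,
    D.Same (i + 2 * m) (n + m) (aff k (Jou f)) i n U
  torus : ∀ (A : Type) [CommRing A] [Algebra k A] [Algebra.FiniteType k A] (i n : ℤ),
    D.Summand i n (aff k A) (i + 2) (n + 1) (aff k (LaurentPolynomial A))
  point : ∀ i n, Bij (D.c i n (aff k k))

variable {D : CmpThy.{w} k E} (hD : IsCmp D)

include hD

theorem bnd_cmp : Bnd True fun X => ∀ i n, Bij (D.c i n X) := by
  have hbun : ∀ (A : Type) [CommRing A] [Algebra k A] [Algebra.FiniteType k A] (m : ℕ)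
      (f : Fin (m + 1) → A) (U : Sch k) (j : U ⟶ aff k A), IsOpenImmersion j.left →
      Set.range j.left = {x : PrimeSpectrum A | ∃ l, f l ∉ x.asIdeal} →
      ((∀ i n, Bij (D.c i n (aff k (Jou f)))) ↔ ∀ i n, Bij (D.c i n U)) := by
    intro A _ _ _ m f U j hj hr
    constructor
    · intro h i n
      exact bij_same (hD.bundle A m f U j ⟨hj, hr⟩ i n) (h _ _)
    · intro h i n
      have h1 := bij_same (same_symm (hD.bundle A m f U j ⟨hj, hr⟩ (i - 2 * m) (n - m))) (h _ _)
      rwa [sub_add_cancel, sub_add_cancel] at h1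
  have hempty : ∀ X : Sch k, IsEmpty X.left → ∀ i n, Bij (D.c i n X) := by
    intro X hX i n
    obtain ⟨h1, h2⟩ := hD.empty X hX i n
    exact ⟨fun _ _ _ => Subsingleton.elim _ _, fun _ => ⟨0, Subsingleton.elim _ _⟩⟩
  refine
    { iso := ?_, total := ?_, opened := ?_, closed := ?_, space := ?_, jouanolou := ?_, torus := ?_,
      bundle := ?_ }
  · intro X Y hX e h i n
    exact bij_same (hD.iso hX e i n) (h i n)
  · intro Z X U i j hX ht hZ hU
    have key : ∀ m n, Bij (D.c (m + 1) n X) := by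
      intro m n
      obtain ⟨L, L', ca, cb, cd⟩ := hD.ladder i j hX ht n
      exact five (cd (m + 1)) (ca (m + 1)) (cb (m + 1)) (cd m) (L.exA _) (L.exB _) (L.exC _)
        (L'.exA _) (L'.exB _) (L'.exC _) (hU _ _) (hZ _ _) (hU _ _) (hZ _ _)
    intro m n
    have h := key (m - 1) n
    rwa [sub_add_cancel] at h
  · intro Z X U i j hX ht hZ hX'
    have key : ∀ m n, Bij (D.c (m + 1) n U) := by
      intro m n
      obtain ⟨L, L', ca, cb, cd⟩ := hD.ladder i j hX ht n
      exact five (ca (m + 1)) (cb (m + 1)) (cd m) (ca m) (L.exB _) (L.exC _) (L.exA _)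
        (L'.exB _) (L'.exC _) (L'.exA _) (hZ _ _) (hX' _ _) (hZ _ _) (hX' _ _)
    intro m n
    have h := key (m - 1) n
    rwa [sub_add_cancel] at h
  · intro Z X U i j hX ht hX' hU m n
    obtain ⟨L, L', ca, cb, cd⟩ := hD.ladder i j hX ht n
    exact five (cb (m + 1)) (cd m) (ca m) (cb m) (L.exC _) (L.exA _) (L.exB _)
      (L'.exC _) (L'.exA _) (L'.exB _) (hX' _ _) (hU _ _) (hX' _ _) (hU _ _)
  · intro N i n
    have h := (hbun k N (f1 k N) (aff k k) (𝟙 _) inferInstance (range_id N)).mpr hD.point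
    exact bij_same (hD.iso (ft_aff True) ⟨affIso (jouOne k N).symm⟩ i n) (h i n)
  · intro A _ _ _ m f U j hj hr h
    cases m with
    | zero => exact hempty U (open_empty f j.left hr)
    | succ m => exact (hbun A m f U j hj hr).mp h
  · intro A _ _ _ h i n
    exact bij_summand (hD.torus A i n) (h _ _)
  · intro A _ _ _ m f U j hj hr h
    cases m with
    | zero => exact hempty _ (jou_empty f)
    | succ m => exact (hbun A m f U j hj hr).mpr h

/-- finiteness -/
theorem bnd_fin (h0 : ∀ i n, Module.Finite E (D.M i n (aff k k))) :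
    Bnd True fun X => ∀ i n, Module.Finite E (D.M i n X) := by
  have hbun : ∀ (A : Type) [CommRing A] [Algebra k A] [Algebra.FiniteType k A] (m : ℕ)
      (f : Fin (m + 1) → A) (U : Sch k) (j : U ⟶ aff k A), IsOpenImmersion j.left →
      Set.range j.left = {x : PrimeSpectrum A | ∃ l, f l ∉ x.asIdeal} →
      ((∀ i n, Module.Finite E (D.M i n (aff k (Jou f)))) ↔
        ∀ i n, Module.Finite E (D.M i n U)) := by
    intro A _ _ _ m f U j hj hr
    constructor
    · intro h i n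
      exact fin_same (hD.bundle A m f U j ⟨hj, hr⟩ i n) (h _ _)
    · intro h i n
      have h1 := fin_same (same_symm (hD.bundle A m f U j ⟨hj, hr⟩ (i - 2 * m) (n - m))) (h _ _)
      rwa [sub_add_cancel, sub_add_cancel] at h1
  have hempty : ∀ X : Sch k, IsEmpty X.left → ∀ i n, Module.Finite E (D.M i n X) := by
    intro X hX i n
    obtain ⟨h1, h2⟩ := hD.empty X hX i n
    infer_instance
  refine
    { iso := ?_, total := ?_, opened := ?_, closed := ?_, space := ?_, jouanolou := ?_, torus := ?_,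
      bundle := ?_ }
  · intro X Y hX e h i n
    exact fin_same (hD.iso hX e i n) (h i n)
  · intro Z X U i j hX ht hZ hU m n
    obtain ⟨L⟩ := hD.ladder i j hX ht n
    exact fin_mid _ _ (L.L.exB m) (hZ _ _) (hU _ _)
  · intro Z X U i j hX ht hZ hX' m n
    obtain ⟨L⟩ := hD.ladder i j hX ht n
    have h := fin_mid _ _ (L.L.exC (m - 1)) (hX' _ _) (hZ _ _)
    rwa [sub_add_cancel] at h
  · intro Z X U i j hX ht hX' hU m n
    obtain ⟨L⟩ := hD.ladder i j hX ht n
    exact fin_mid _ _ (L.L.exA m) (hU _ _) (hX' _ _)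
  · intro N i n
    have h := (hbun k N (f1 k N) (aff k k) (𝟙 _) inferInstance (range_id N)).mpr h0
    exact fin_same (hD.iso (ft_aff True) ⟨affIso (jouOne k N).symm⟩ i n) (h i n)
  · intro A _ _ _ m f U j hj hr h
    cases m with
    | zero => exact hempty U (open_empty f j.left hr)
    | succ m => exact (hbun A m f U j hj hr).mp h
  · intro A _ _ _ h i n
    exact fin_summand (hD.torus A i n) (h _ _)
  · intro A _ _ _ m f U j hj hr h
    cases m with
    | zero => exact hempty _ (jou_empty f)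
    | succ m => exact (hbun A m f U j hj hr).mpr h

omit hD in
/-- conjunctions -/
theorem bnd_and {sep : Prop} {P Q : Sch k → Prop} (hP : Bnd sep P) (hQ : Bnd sep Q) :
    Bnd sep fun X => P X ∧ Q X where
  iso hX e h := ⟨hP.iso hX e h.1, hQ.iso hX e h.2⟩
  total i j hX ht hZ hU := ⟨hP.total i j hX ht hZ.1 hU.1, hQ.total i j hX ht hZ.2 hU.2⟩
  opened i j hX ht hZ hU := ⟨hP.opened i j hX ht hZ.1 hU.1, hQ.opened i j hX ht hZ.2 hU.2⟩
  closed i j hX ht hZ hU := ⟨hP.closed i j hX ht hZ.1 hU.1, hQ.closed i j hX ht hZ.2 hU.2⟩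
  space n := ⟨hP.space n, hQ.space n⟩
  jouanolou A _ _ _ m f U j hj hr h :=
    ⟨hP.jouanolou A m f U j hj hr h.1, hQ.jouanolou A m f U j hj hr h.2⟩
  torus A _ _ _ h := ⟨hP.torus A h.1, hQ.torus A h.2⟩
  bundle A _ _ _ m f U j hj hr h :=
    ⟨hP.bundle A m f U j hj hr h.1, hQ.bundle A m f U j hj hr h.2⟩

end Pool.Agent.Helper11U
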