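import Pool.Agent.Helper11U.Hodge
import Pool.Agent.Helper11U.Cmp

/-!
# Alterations and comparison maps
-/

set_option autoImplicit false

open CategoryTheory CategoryTheory.Limits AlgebraicGeometry MvPolynomial
open Pool.Agent.Y116.UV Pool.Agent.Z125.UN Pool.Agent.Q282.UK Pool.Agent.Q282.UZ

namespace Pool.Agent.Helper11U

universe w w'

/-- The closure properties `ResClosed`, and: for a finite flat surjective morphism `V → U` of integral
schemes the property passes from `V` to `U`. -/
structure AltClosed {k : Type} [Field k] (P : Sch k → Prop) : Prop extends ResClosed P where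
  finite : ∀ {V U : Sch k} (f : V ⟶ U), FT True U → IsFinite f.left → Flat f.left →
    Surjective f.left → IsIntegral V.left → IsIntegral U.left → P V → P U

/-- **Alterations** (de Jong, `k` perfect), in the form of a principle of dévissage: a property with the
closure properties `AltClosed` which is true for all smooth proper schemes of dimension at most `d` is
true for all separated schemes of finite type and dimension at most `d`. -/
def Alterations (k : Type) [Field k] : Prop :=
  ∀ P : Sch k → Prop, AltClosed P → ∀ d : WithBot ℕ∞, ForSmoothProper P d →
    ∀ X : Sch k, FT True X → topologicalKrullDim X.left ≤ d → P X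

/-- The comparison map of `U` is a direct summand of the one of `V` if `V → U` is a finite flat
surjective morphism of integral schemes (pull-back and transfer; the coefficients contain `ℚ`). -/
def HasTransfer {k : Type} [Field k] {E : Type w'} [Field E] (D : CmpThy.{w} k E) : Prop :=
  ∀ {V U : Sch k} (f : V ⟶ U), FT True U → IsFinite f.left → Flat f.left →
    Surjective f.left → IsIntegral V.left → IsIntegral U.left → ∀ i n,
      D.Summand i n U i n V

section

variable {k : Type} [Field k] {P : Sch k → Prop} (hP : Bnd True P)
  (hf : ∀ {V U : Sch k} (f : V ⟶ U), FT True U → IsFinite f.left → Flat f.left →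
    Surjective f.left → IsIntegral V.left → IsIntegral U.left → P V → P U)
  (hA : Alterations k)

include hP hf hA

/-- Dimension at most `d` and blocks of at most `d + 2` variables. -/
theorem alt_iff [PerfectField k] (d : ℕ) : ForSmoothProper P d ↔ ForBlock P (d + 2) := by
  have h := dim_block hP d
  constructor
  · intro h1
    exact h.mp (hA P ⟨resClosed_of_bnd hP, hf⟩ d h1)
  · intro h1 X hX _ _ hd
    exact h.mpr h1 X hX hd

/-- The hypersurfaces `∑_l z_l ∑_{(i, j) ∈ E_l} x_i y_j = 1` over a prime field. -/
theorem alt_short (hZ : Function.Surjective (Int.cast : ℤ → k)) : ForSmoothProper P ⊤ ↔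
    ∀ (a b c : ℕ) (E : Fin c → Finset (Fin a × Fin b)), (∀ l, (E l).card ≤ 3) → P (cubS k E) := by
  rw [← short_iff (short_presents hZ) hP]
  constructor
  · intro h1 X hX
    exact hA P ⟨resClosed_of_bnd hP, hf⟩ ⊤ h1 X hX le_top
  · intro h1 X hX _ _ _
    exact h1 X hX

end

end Pool.Agent.Helper11U
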