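import Pool.Agent.Q282.UZ.Sys
import Pool.Agent.Q282.UM.Rat
import Pool.Agent.Z125.UN.Dim2
import Pool.Agent.Z125.UN.Sym

/-!
# Closed-open decompositions: short cubic hypersurfaces, dimension and blocks of variables
-/

set_option autoImplicit false

open CategoryTheory CategoryTheory.Limits AlgebraicGeometry MvPolynomial
open Pool.Agent.Y116.UV Pool.Agent.Z125.UN Pool.Agent.Q282.UK Pool.Agent.Q282.UZ

namespace Pool.Agent.Helper11U

/-- The ring `R[z, x, y] / (∑_l z_l ∑_{(i, j) ∈ E_l} x_i y_j - 1)`. -/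
abbrev Cub (R : Type) [CommRing R] {a b c : ℕ} (E : Fin c → Finset (Fin a × Fin b)) : Type :=
  MvPolynomial (Fin c ⊕ (Fin a ⊕ Fin b)) R ⧸ Ideal.span
    {∑ l, ∑ e ∈ E l, X (Sum.inl l) * X (Sum.inr (Sum.inl e.1)) * X (Sum.inr (Sum.inr e.2)) -
      (1 : MvPolynomial (Fin c ⊕ (Fin a ⊕ Fin b)) R)}

/-- The hypersurface `∑_l z_l ∑_{(i, j) ∈ E_l} x_i y_j = 1` over `R`. -/
noncomputable def cubS (R : Type) [CommRing R] {a b c : ℕ} (E : Fin c → Finset (Fin a × Fin b)) :
    Sch R :=
  aff R (Cub R E)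

variable {R : Type} [CommRing R]

/-- The ring of the hypersurface and Jouanolou's ring. -/
noncomputable def cubEquiv {a b c : ℕ} (E : Fin c → Finset (Fin a × Fin b)) :
    Cub R E ≃ₐ[R] Jou (fun l => few R (E l)) :=
  Ideal.quotientEquivAlg _ _ (sumAlgEquiv R (Fin c) (Fin a ⊕ Fin b)) (by
    rw [Ideal.map_span, Set.image_singleton]
    congr 2
    simp only [RingHom.coe_coe, map_sub, map_one, map_sum, map_mul,
      sumAlgEquiv_X_inl, sumAlgEquiv_X_inr, few]
    congr 1
    apply Finset.sum_congr rfl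
    intro l _
    rw [Finset.sum_mul]
    apply Finset.sum_congr rfl
    intro e _
    ring)

open Classical in
/-- the trilinear form of the sets `E l` -/
noncomputable def triE {a b c : ℕ} (E : Fin c → Finset (Fin a × Fin b)) (l : Fin c) (i : Fin a)
    (j : Fin b) : R :=
  if (i, j) ∈ E l then 1 else 0

lemma bil_triE {a b c : ℕ} (E : Fin c → Finset (Fin a × Fin b)) (l : Fin c) :
    bil (Fin a) (Fin b) (triE (R := R) E l) = few R (E l) := by
  classical
  rw [bil_apply, few]
  have h1 : ∀ (i : Fin a) (j : Fin b), (C (triE (R := R) E l i j) * X (Sum.inl i) *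
      X (Sum.inr j) : MvPolynomial (Fin a ⊕ Fin b) R) =
      if (i, j) ∈ E l then X (Sum.inl i) * X (Sum.inr j) else 0 := by
    intro i j
    unfold triE
    split_ifs
    · rw [map_one, one_mul]
    · rw [map_zero, zero_mul, zero_mul]
  simp only [h1]
  rw [← Fintype.sum_prod_type' (f := fun (i : Fin a) (j : Fin b) =>
    if (i, j) ∈ E l then (X (Sum.inl i) * X (Sum.inr j) : MvPolynomial (Fin a ⊕ Fin b) R) else 0),
    ← Finset.sum_filter, Finset.filter_univ_mem]

/-- The ring of the hypersurface as the ring of a trilinear form. -/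
noncomputable def cubHyp {a b c : ℕ} (E : Fin c → Finset (Fin a × Fin b)) :
    Cub R E ≃ₐ[R] Hyp (triE (R := R) E) := by
  have h : (fun l => few R (E l)) = fun l => bil (Fin a) (Fin b) (triE (R := R) E l) :=
    funext fun l => (bil_triE E l).symm
  have e := cubEquiv (R := R) E
  rw [h] at e
  exact e.trans (hypEquiv _).symm

theorem cub_smooth {a b c : ℕ} (E : Fin c → Finset (Fin a × Fin b)) :
    Algebra.Smooth R (Cub R E) := by
  have h : Algebra.Smooth R (Hyp (triE (R := R) E)) := hyp_smooth _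
  exact Algebra.Smooth.of_equiv (cubHyp E).symm

section

variable {sep : Prop} {P : Sch R → Prop}

lemma clo_of_bnd (hP : Bnd sep P) : Clo sep P where
  iso := hP.iso
  total := hP.total
  opened := hP.opened
  torus := hP.torus

/-- The hypersurfaces `∑_l z_l ∑_{(i, j) ∈ E_l} x_i y_j = 1` with sets `E_l` of at most three pairs
decide. -/
theorem short_iff (hR : ShortPresents R) (hP : Bnd sep P) : (∀ X : Sch R, FT sep X → P X) ↔
    ∀ (a b c : ℕ) (E : Fin c → Finset (Fin a × Fin b)), (∀ l, (E l).card ≤ 3) →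
      P (cubS R E) := by
  constructor
  · intro h a b c E _
    exact h _ (ft_aff sep)
  · intro h
    refine (three_iff hR (clo_of_bnd hP)).mpr fun a b c E hE => ?_
    refine of_jou hP.toUni (fun l => few R (E l)) ?_ (iso_alg hP.toUni (cubEquiv E) (h a b c E hE))
    exact iso_alg hP.toUni (renameEquiv R (Fintype.equivFin (Fin a ⊕ Fin b)).symm) (hP.space _)

lemma bform_eq {a b c : ℕ} (T : Fin a → Fin b → Fin c → R) (l : Fin c) :
    bform T l = bl (fun l i j => T i j l) l := rfl

/-- systems of bilinear equations and hypersurfaces -/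
theorem bil_iff (hP : Bnd sep P) {a b c : ℕ} (T : Fin a → Fin b → Fin c → R) :
    P (bilS T) ↔ P (hypS T) := by
  have e1 : Hyp T ≃ₐ[R] Hyp fun l i j => T i j l :=
    (swapR T).trans (swapL fun i l j => T i j l)
  have h1 : P (hypS T) ↔ P (aff R (Hyp fun l i j => T i j l)) :=
    ⟨fun h => iso_alg hP.toUni e1 h, fun h => iso_alg hP.toUni e1.symm h⟩
  have h2 : P (bilS T) ↔ P (aff R (Pc (bl fun l i j => T i j l) 1)) :=
    ⟨fun h => iso_alg hP.toUni (oneE (bl fun l i j => T i j l)) h,
      fun h => iso_alg hP.toUni (oneE (bl fun l i j => T i j l)).symm h⟩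
  rw [h1, h2, hyp_iff hP]

end

section field

variable {k : Type} [Field k] [PerfectField k] {sep : Prop} {P : Sch k → Prop}

/-- Dimension at most `d` and blocks of at most `d + 2` variables. -/
theorem dim_block (hP : Bnd sep P) (d : ℕ) :
    (∀ X : Sch k, FT sep X → topologicalKrullDim X.left ≤ d → P X) ↔
      ∀ (a b c : ℕ) (T : Fin a → Fin b → Fin c → k), (a ≤ d + 2 ∨ b ≤ d + 2 ∨ c ≤ d + 2) →
        P (hypS T) := by
  constructor
  · intro h a b c T hm
    have h2 : ∀ I : Ideal (MvPolynomial (Fin (d + 1)) k),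
        P (aff k (MvPolynomial (Fin (d + 1)) k ⧸ I)) :=
      dim_to_closed hP fun A _ _ _ hA => h _ (ft_aff sep) (by rw [topDim_aff]; exact hA)
    exact of_block hP (fun a b c' hc' T => to_tri hP h2 a b c' hc' T) T hm
  · intro h
    exact (dim_tri hP d).mpr fun a b T => h a b (d + 2) T (Or.inr (Or.inr le_rfl))

/-- Smooth schemes suffice. -/
theorem dim_block_smooth (hP : Bnd sep P) (d : ℕ) :
    (∀ X : Sch k, FT sep X → Smooth X.hom → topologicalKrullDim X.left ≤ d → P X) ↔
      ∀ (a b c : ℕ) (T : Fin a → Fin b → Fin c → k), (a ≤ d + 2 ∨ b ≤ d + 2 ∨ c ≤ d + 2) →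
        P (hypS T) := by
  rw [← dim_block hP d]
  exact ⟨fun h => dim_smooth hP d h, fun h X hX _ hd => h X hX hd⟩

end field

end Pool.Agent.Helper11U
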