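import Mathlib

/-!
# The elementary group over a finitely generated ring is finitely generated
-/

set_option autoImplicit false

namespace Pool.Agent.Helper11U

open Matrix

/-- The subgroup of `GL_N(A)` generated by the elementary matrices. -/
def elem (N : ℕ) (A : Type) [CommRing A] : Subgroup (GL (Fin N) A) :=
  Subgroup.closure {g | ∃ (i j : Fin N) (c : A), i ≠ j ∧
    (g : Matrix (Fin N) (Fin N) A) = Matrix.transvection i j c}

/-- the elementary matrix as an element of `GL_N(A)` -/
def tv {N : ℕ} {A : Type} [CommRing A] (i j : Fin N) (h : i ≠ j) (c : A) : GL (Fin N) A where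
  val := transvection i j c
  inv := transvection i j (-c)
  val_inv := by rw [transvection_mul_transvection_same i j h, add_neg_cancel, transvection_zero]
  inv_val := by rw [transvection_mul_transvection_same i j h, neg_add_cancel, transvection_zero]

variable {N : ℕ} {A : Type} [CommRing A]

lemma tv_add (i j : Fin N) (h : i ≠ j) (c d : A) : tv i j h (c + d) = tv i j h c * tv i j h d := by
  apply Units.ext
  exact (transvection_mul_transvection_same i j h c d).symm

lemma tv_zero (i j : Fin N) (h : i ≠ j) : tv i j h (0 : A) = 1 := by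
  apply Units.ext
  exact transvection_zero i j

lemma tv_neg (i j : Fin N) (h : i ≠ j) (c : A) : tv i j h (-c) = (tv i j h c)⁻¹ := by
  rw [eq_inv_iff_mul_eq_one, ← tv_add, neg_add_cancel, tv_zero]

lemma tv_mul (i j k : Fin N) (hik : i ≠ k) (hkj : k ≠ j) (hij : i ≠ j) (a b : A) :
    tv i j hij (a * b) =
      tv i k hik a * tv k j hkj b * (tv i k hik a)⁻¹ * (tv k j hkj b)⁻¹ := by
  rw [← tv_neg, ← tv_neg]
  apply Units.ext
  change transvection i j (a * b) = transvection i k a * transvection k j b *
    transvection i k (-a) * transvection k j (-b)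
  have h1 : single i k a * single i k (-a) = 0 := single_mul_single_of_ne _ _ _ _ hik.symm _
  have h2 : single i k a * single k j b = single i j (a * b) := single_mul_single_same _ _ _ _ _
  have h3 : single k j b * single i k (-a) = 0 := single_mul_single_of_ne _ _ _ _ hij.symm _
  have h4 : single k j b * single k j (-b) = 0 := single_mul_single_of_ne _ _ _ _ hkj.symm _
  have h5 : single i j (a * b) * single i k (-a) = 0 := single_mul_single_of_ne _ _ _ _ hij.symm _
  have h6 : single i j (a * b) * single k j (-b) = 0 := single_mul_single_of_ne _ _ _ _ hkj.symm _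
  have h7 : single i k (-a) * single k j (-b) = single i j (a * b) := by
    rw [single_mul_single_same, neg_mul_neg]
  have h8 : single i k a * single k j (-b) = -single i j (a * b) := by
    rw [single_mul_single_same, mul_neg, single_neg]
  have h9 : single i k (-a) = -single i k a := (single_neg _ _ _).symm
  have h10 : single k j (-b) = -single k j b := (single_neg _ _ _).symm
  have e1 : transvection i k a * transvection k j b =
      1 + single i k a + single k j b + single i j (a * b) := by
    simp only [transvection, mul_add, add_mul, one_mul, mul_one, h2]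
    abel
  have e2 : (1 + single i k a + single k j b + single i j (a * b)) * transvection i k (-a) =
      1 + single k j b + single i j (a * b) := by
    simp only [transvection, mul_add, add_mul, one_mul, mul_one, h9]
    simp only [h9] at h1 h3 h5
    simp only [h1, h3, h5]
    abel
  have e3 : (1 + single k j b + single i j (a * b)) * transvection k j (-b) =
      1 + single i j (a * b) := by
    simp only [transvection, mul_add, add_mul, one_mul, mul_one, h10]
    simp only [h10] at h4 h6
    simp only [h4, h6]
    abel
  rw [e1, e2, e3]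
  rfl

lemma elem_eq : elem N A = Subgroup.closure {g | ∃ (i j : Fin N) (h : i ≠ j) (c : A),
    g = tv i j h c} := by
  unfold elem
  congr 1
  ext g
  constructor
  · rintro ⟨i, j, c, h, hg⟩
    exact ⟨i, j, h, c, Units.ext hg⟩
  · rintro ⟨i, j, h, c, rfl⟩
    exact ⟨i, j, c, h, rfl⟩

theorem elem_fg (hN : 3 ≤ N) (hA : Algebra.FiniteType ℤ A) : (elem N A).FG := by
  classical
  obtain ⟨S, hS⟩ := hA.1
  let F : Set (GL (Fin N) A) := {g | ∃ (i j : Fin N) (h : i ≠ j) (c : A),
    c ∈ insert 1 (S : Set A) ∧ g = tv i j h c}
  have hF : F.Finite := by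
    have h1 : F ⊆ (fun q : (Fin N × Fin N) × A => if h : q.1.1 ≠ q.1.2 then
        tv q.1.1 q.1.2 h q.2 else 1) '' (Set.univ ×ˢ (insert 1 (S : Set A))) := by
      rintro _ ⟨i, j, h, c, hc, rfl⟩
      exact ⟨((i, j), c), ⟨trivial, hc⟩, dif_pos h⟩
    exact ((Set.finite_univ.prod (S.finite_toSet.insert 1)).image _).subset h1
  refine ⟨hF.toFinset, ?_⟩
  rw [Set.Finite.coe_toFinset]
  have key : ∀ a : A, ∀ (i j : Fin N) (h : i ≠ j), tv i j h a ∈ Subgroup.closure F := by
    intro a
    have ha : a ∈ Algebra.adjoin ℤ (S : Set A) := by rw [hS]; trivial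
    have hone : ∀ (i j : Fin N) (h : i ≠ j), tv i j h (1 : A) ∈ Subgroup.closure F :=
      fun i j h => Subgroup.subset_closure ⟨i, j, h, 1, Set.mem_insert _ _, rfl⟩
    induction ha using Algebra.adjoin_induction with
    | mem x hx => exact fun i j h =>
        Subgroup.subset_closure ⟨i, j, h, x, Set.mem_insert_of_mem _ hx, rfl⟩
    | algebraMap r =>
      intro i j h
      induction r with
      | zero => rw [map_zero, tv_zero]; exact one_mem _
      | succ n ih =>
        rw [map_add, map_one, tv_add]
        exact mul_mem ih (hone i j h)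
      | pred n ih =>
        rw [map_sub, map_one, sub_eq_add_neg, tv_add, tv_neg i j h 1]
        exact mul_mem ih (inv_mem (hone i j h))
    | add x y _ _ hx hy =>
      intro i j h
      rw [tv_add]
      exact mul_mem (hx i j h) (hy i j h)
    | mul x y _ _ hx hy =>
      intro i j h
      obtain ⟨k, hk⟩ : ∃ k : Fin N, k ∉ ({i, j} : Finset (Fin N)) := by
        by_contra hcon
        push Not at hcon
        have h1 : (Finset.univ : Finset (Fin N)) ⊆ {i, j} := fun k _ => hcon k
        have h2 := Finset.card_le_card h1
        rw [Finset.card_univ, Fintype.card_fin] at h2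
        have h3 := Finset.card_le_two (a := i) (b := j)
        omega
      rw [Finset.mem_insert, Finset.mem_singleton, not_or] at hk
      rw [tv_mul i j k (Ne.symm hk.1) hk.2 h]
      exact mul_mem (mul_mem (mul_mem (hx _ _ _) (hy _ _ _)) (inv_mem (hx _ _ _)))
        (inv_mem (hy _ _ _))
  rw [elem_eq]
  apply le_antisymm
  · rw [Subgroup.closure_le]
    rintro _ ⟨i, j, h, c, _, rfl⟩
    exact Subgroup.subset_closure ⟨i, j, h, c, rfl⟩
  · rw [Subgroup.closure_le]
    rintro _ ⟨i, j, h, c, rfl⟩
    exact key c i j h

/-- an extension of finitely generated groups -/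
theorem fg_ext {G Q : Type} [Group G] [Group Q] (φ : G →* Q) (hφ : Function.Surjective φ)
    (hK : φ.ker.FG) (hQ : Group.FG Q) : Group.FG G := by
  classical
  obtain ⟨T, hT⟩ := hK
  obtain ⟨S, hS⟩ := hQ.out
  choose s hs using hφ
  rw [Group.fg_iff]
  refine ⟨(T : Set G) ∪ s '' (S : Set Q), ?_,
    T.finite_toSet.union (S.finite_toSet.image _)⟩
  rw [eq_top_iff]
  intro g _
  have h1 : φ g ∈ (Subgroup.closure (s '' (S : Set Q))).map φ := by
    rw [MonoidHom.map_closure, Set.image_image]
    simp only [hs, Set.image_id']
    rw [hS]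
    trivial
  obtain ⟨h, hh, hg⟩ := h1
  have h2 : h⁻¹ * g ∈ φ.ker := by
    rw [MonoidHom.mem_ker, map_mul, map_inv, hg, inv_mul_cancel]
  rw [← hT] at h2
  have h3 : g = h * (h⁻¹ * g) := by rw [mul_inv_cancel_left]
  rw [h3]
  exact mul_mem (Subgroup.closure_mono Set.subset_union_right hh)
    (Subgroup.closure_mono Set.subset_union_left h2)

end Pool.Agent.Helper11U
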