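import Pool.Agent.Helper11U.Base
import Pool.Agent.Helper11U.Elem
import Pool.Agent.R904.TR.Res

/-!
# Bass's conjecture degree by degree and the homology of linear groups
-/

set_option autoImplicit false

open CategoryTheory CategoryTheory.Limits AlgebraicGeometry MvPolynomial
open Pool.Agent.R904.CU Pool.Agent.Y116.UV Pool.Agent.Z125.UN Pool.Agent.Q282.UK
  Pool.Agent.Q282.UZ Pool.Agent.R904.TR

namespace Pool.Agent.Helper11U

/-- The homology group `H_i(GL_N(A), ℤ)` is finitely generated. -/
def FinHom (A : Type) [CommRing A] (N i : ℕ) : Prop :=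
  Module.Finite ℤ (groupHomology (Rep.trivial ℤ (GL (Fin N) A) ℤ) i)

/-- The properties of Quillen's groups `K'_n(X)` of schemes of finite type over `ℤ` which are used:
those of `KThy` and the following.
* `laurent_zero`: `K'_0(A[t, 1/t]) = K'_0(A)`;
* `generic_regular`: a domain which is finitely generated over `ℤ` has a non-zero element `w` such that
  `A[1/w]` is regular (finitely generated rings are excellent);
* for regular rings `A` which are finitely generated over `ℤ` (so that `K'_n(A) = K_n(A)`):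
  - `homology`: `K_i(A)` is finitely generated for `1 ≤ i ≤ n` if and only if `H_i(GL_N(A), ℤ)` is
    finitely generated for `i ≤ n` and all large `N` (the space `BGL(A)⁺`; homological stability, van der
    Kallen);
  - `stability`: for all large `N` the group `K_1(A)` is the quotient of `GL_N(A)` by the subgroup
    generated by the elementary matrices (Bass, Vaserstein);
  - `presentation`: `K_1(A)` and `K_2(A)` are finitely generated if and only if `GL_N(A)` is finitely
    presented for all large `N` (the Steinberg groups are finitely presented by Krstić and McCool;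
    stability of `K_2`, Dennis, van der Kallen, Suslin, Tulenbaev). -/
structure LinThy extends KThy where
  laurent_zero : ∀ (A : Type) [CommRing A] [Algebra.FiniteType ℤ A],
    Nonempty (G 0 (laurS A) ≃+ G 0 (sp A))
  generic_regular : ∀ (A : Type) [CommRing A] [IsDomain A] [Algebra.FiniteType ℤ A],
    ∃ w : A, w ≠ 0 ∧ IsRegularScheme (sp (Localization.Away w))
  homology : ∀ (A : Type) [CommRing A] [Algebra.FiniteType ℤ A], IsRegularScheme (sp A) → ∀ n : ℕ,
    (∀ i, 1 ≤ i → i ≤ n → AddGroup.FG (G i (sp A))) ↔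
      ∃ N₀, ∀ N, N₀ ≤ N → ∀ i ≤ n, FinHom A N i
  stability : ∀ (A : Type) [CommRing A] [Algebra.FiniteType ℤ A], IsRegularScheme (sp A) →
    ∃ N₀, ∀ N, N₀ ≤ N → ∃ φ : GL (Fin N) A →* Multiplicative (G 1 (sp A)),
      Function.Surjective φ ∧ φ.ker = elem N A
  presentation : ∀ (A : Type) [CommRing A] [Algebra.FiniteType ℤ A], IsRegularScheme (sp A) →
    (AddGroup.FG (G 1 (sp A)) ∧ AddGroup.FG (G 2 (sp A)) ↔
      ∃ N₀, ∀ N, N₀ ≤ N → Group.IsFinitelyPresented (GL (Fin N) A))

/-- `K'_m(X)` is finitely generated for all schemes `X` of finite type over `R` and all `m ≤ n`. -/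
def LinThy.UpTo (K : LinThy) (R : Type) [CommRing R] (n : ℕ) : Prop :=
  ∀ X : Sch R, FT False X → ∀ m ≤ n, AddGroup.FG (K.G m X.left)

/-- `K'_m(X)` is finitely generated for all regular schemes `X` of finite type over `R` and all
`m ≤ n`. -/
def LinThy.RegUpTo (K : LinThy) (R : Type) [CommRing R] (n : ℕ) : Prop :=
  ∀ X : Sch R, FT False X → IsRegularScheme X.left → ∀ m ≤ n, AddGroup.FG (K.G m X.left)

section noeth

variable {R : Type} [CommRing R] {sep : Prop} {P : Sch R → Prop} (hP : Clo sep P)

include hP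

variable {A : Type} [CommRing A] [Algebra R A] [Algebra.FiniteType R A]

lemma cquot_ideal (I J : Ideal A) (h : P (aff R (A ⧸ (I ⊔ J)))) :
    P (aff R ((A ⧸ I) ⧸ Ideal.map (Ideal.Quotient.mkₐ R I) J)) :=
  clo_alg hP (DoubleQuot.quotQuotEquivQuotSupₐ R I J).symm h

lemma cquot_mk (I : Ideal A) (a : A) (h : P (aff R (A ⧸ (I ⊔ Ideal.span {a})))) :
    P (aff R ((A ⧸ I) ⧸ Ideal.span {Ideal.Quotient.mk I a})) := by
  have h2 : Ideal.map (Ideal.Quotient.mkₐ R I) (Ideal.span {a}) =
      Ideal.span {Ideal.Quotient.mk I a} := by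
    rw [Ideal.map_span, Set.image_singleton]
    rfl
  rw [← h2]
  exact cquot_ideal hP I _ h

/-- If `a b = 0` then `A_a` is the localisation of `A / b`. -/
lemma czero_div {a b : A} (hab : a * b = 0) (h1 : P (aff R (A ⧸ Ideal.span {b})))
    (h2 : P (aff R ((A ⧸ Ideal.span {b}) ⧸ Ideal.span {Ideal.Quotient.mk (Ideal.span {b}) a}))) :
    P (aff R (Localization.Away a)) := by
  have h3 := hP.opened _ _ (ft_aff sep) (triple_away (Ideal.Quotient.mk (Ideal.span {b}) a)) h2 h1
  let B := A ⧸ Ideal.span {b}
  let S := Localization.Away (Ideal.Quotient.mk (Ideal.span {b}) a)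
  let f : A →+* S := (algebraMap B S).comp (Ideal.Quotient.mk (Ideal.span {b}))
  let _ : Algebra A S := f.toAlgebra
  have hloc : IsLocalization.Away a S := by
    have hu : IsUnit (algebraMap A S a) := IsLocalization.Away.algebraMap_isUnit
      (S := S) (Ideal.Quotient.mk (Ideal.span {b}) a)
    refine ⟨?_, ?_, ?_⟩
    · rintro ⟨_, n, rfl⟩
      change IsUnit (algebraMap A S (a ^ n))
      rw [map_pow]
      exact hu.pow n
    · intro z
      obtain ⟨⟨y, ⟨_, n, rfl⟩⟩, hy⟩ := IsLocalization.surj
        (Submonoid.powers (Ideal.Quotient.mk (Ideal.span {b}) a)) z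
      obtain ⟨y, rfl⟩ := Ideal.Quotient.mk_surjective y
      refine ⟨(y, ⟨a ^ n, n, rfl⟩), ?_⟩
      change z * algebraMap A S (a ^ n) = _
      have h4 : algebraMap A S (a ^ n) =
          algebraMap B S ((Ideal.Quotient.mk (Ideal.span {b}) a) ^ n) := by
        rw [← map_pow]
        rfl
      rw [h4]
      exact hy
    · intro x y hxy
      have h5 : algebraMap B S (Ideal.Quotient.mk _ x) = algebraMap B S (Ideal.Quotient.mk _ y) :=
        hxy
      obtain ⟨⟨_, n, rfl⟩, hc⟩ := (IsLocalization.eq_iff_exists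
        (Submonoid.powers (Ideal.Quotient.mk (Ideal.span {b}) a)) S).mp h5
      have h6 : Ideal.Quotient.mk (Ideal.span {b}) (a ^ n * x - a ^ n * y) = 0 := by
        rw [map_sub, map_mul, map_mul, map_pow]
        exact sub_eq_zero.mpr hc
      rw [Ideal.Quotient.eq_zero_iff_mem, Ideal.mem_span_singleton] at h6
      obtain ⟨c, hc⟩ := h6
      refine ⟨⟨a ^ (n + 1), n + 1, rfl⟩, ?_⟩
      change a ^ (n + 1) * x = a ^ (n + 1) * y
      have h7 : a ^ (n + 1) * x - a ^ (n + 1) * y = (a * b) * c := by
        linear_combination a * hc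
      rw [hab, zero_mul, sub_eq_zero] at h7
      exact h7
  let e : Localization.Away a ≃ₐ[A] S :=
    IsLocalization.algEquiv (Submonoid.powers a) (Localization.Away a) S
  let e2 : S ≃ₐ[R] Localization.Away a := AlgEquiv.ofRingEquiv (f := e.symm.toRingEquiv) (by
    intro r
    have h8 : algebraMap R S r = algebraMap A S (algebraMap R A r) := rfl
    change e.symm (algebraMap R S r) = _
    rw [h8, e.symm.commutes, ← IsScalarTower.algebraMap_apply])
  have : Algebra.FiniteType R S :=
    Algebra.FiniteType.trans (S := A ⧸ Ideal.span {b}) inferInstance inferInstance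
  exact clo_alg hP e2 h3

/-- Noetherian induction: it is enough to find, for each domain of finite type, a non-empty open
subscheme for which the property is true. -/
theorem cnoeth [IsNoetherianRing R]
    (h0 : ∀ (B : Type) [CommRing B] [Algebra R B], Subsingleton B → P (aff R B))
    (hD : ∀ p : Ideal A, p.IsPrime → ∃ w : A ⧸ p, w ≠ 0 ∧ P (aff R (Localization.Away w))) :
    P (aff R A) := by
  have hN : IsNoetherianRing A := Algebra.FiniteType.isNoetherianRing R A
  have key : ∀ I : Ideal A, P (aff R (A ⧸ I)) := by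
    intro I
    induction I using IsNoetherian.induction with
    | hgt I ih =>
    by_cases hI : I = ⊤
    · subst hI
      exact h0 _ (Ideal.Quotient.subsingleton_iff.mpr rfl)
    by_cases hp : Ideal.IsPrime I
    · obtain ⟨w, hw, hPw⟩ := hD I hp
      obtain ⟨w, rfl⟩ := Ideal.Quotient.mk_surjective w
      refine hP.total _ _ (ft_aff sep) (triple_away _) (cquot_mk hP I w (ih _ ?_)) hPw
      refine lt_of_le_of_ne le_sup_left fun h => hw ?_
      rw [Ideal.Quotient.eq_zero_iff_mem, h]
      exact Ideal.mem_sup_right (Ideal.mem_span_singleton_self w)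
    · have h1 : ∃ a b, a * b ∈ I ∧ a ∉ I ∧ b ∉ I := by
        by_contra hcon
        push Not at hcon
        exact hp ⟨hI, fun {a b} hab => by
          by_contra h
          push Not at h
          exact h.2 (hcon a b hab h.1)⟩
      obtain ⟨a, b, hab, ha, hb⟩ := h1
      have hJ : ∀ c, c ∉ I → I < I ⊔ Ideal.span {c} := fun c hc =>
        lt_of_le_of_ne le_sup_left fun h => hc (by
          rw [h]
          exact Ideal.mem_sup_right (Ideal.mem_span_singleton_self c))
      have hPa := cquot_mk hP I a (ih _ (hJ a ha))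
      have hPb := cquot_mk hP I b (ih _ (hJ b hb))
      refine hP.total _ _ (ft_aff sep) (triple_away _) hPa
        (czero_div hP (b := Ideal.Quotient.mk I b) ?_ hPb ?_)
      · rw [← map_mul, Ideal.Quotient.eq_zero_iff_mem]
        exact hab
      · have h2 := ih (I ⊔ (Ideal.span {b} ⊔ Ideal.span {a}))
          (lt_of_lt_of_le (hJ b hb) (sup_le_sup_left le_sup_left I))
        have h3 := cquot_ideal hP I _ h2
        have h4 : Ideal.map (Ideal.Quotient.mkₐ R I) (Ideal.span {b} ⊔ Ideal.span {a}) =
            Ideal.span {Ideal.Quotient.mk I b} ⊔ Ideal.span {Ideal.Quotient.mk I a} := by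
          rw [Ideal.map_sup, Ideal.map_span, Ideal.map_span, Set.image_singleton,
            Set.image_singleton]
          rfl
        rw [h4] at h3
        exact cquot_mk hP _ _ h3
  exact clo_alg hP (AlgEquiv.quotientBot R A) (key ⊥)

end noeth

section

variable {R : Type} [CommRing R] [hR : Algebra.FiniteType ℤ R] (K : LinThy)

include hR

/-- the groups up to degree `n` -/
theorem cloN (sep : Prop) (n : ℕ) : Clo sep fun X : Sch R => ∀ m ≤ n, AddGroup.FG (K.G m X.left) where
  iso {X Y} h e hX m hm := by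
    obtain ⟨e⟩ := e
    exact fg_equiv (K.iso m _ _ ((Over.forget _).mapIso e)) (hX m hm)
  total {Z X U} i j h ht hZ hU m hm := by
    obtain ⟨a, b, d, h1, h2, h3, -⟩ := K.localization X.left Z.left U.left _ i.left j.left
      (ft_int h) ht.closed ht.opened ht.compl
    exact fg_exact (a m) (b m) (h1 m) (hZ m hm) (hU m hm)
  opened {Z X U} i j h ht hZ hX m hm := by
    obtain ⟨a, b, d, h1, h2, h3, h4⟩ := K.localization X.left Z.left U.left _ i.left j.left
      (ft_int h) ht.closed ht.opened ht.compl
    cases m with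
    | zero =>
      have := hX 0 hm
      exact AddGroup.fg_of_surjective h4
    | succ m => exact fg_exact (b (m + 1)) (d m) (h2 m) (hX (m + 1) hm) (hZ m (by omega))
  torus A _ _ _ h m hm := by
    have := ft_trans (R := R) A
    cases m with
    | zero => exact fg_equiv (K.laurent_zero A) (h 0 hm)
    | succ m =>
      obtain ⟨e⟩ := K.laurent m A
      have h1 : AddGroup.FG (K.G (m + 1) (Spec (.of (LaurentPolynomial A)))) := h (m + 1) hm
      refine AddGroup.fg_of_surjective (f := (AddMonoidHom.fst (K.G (m + 1) (Spec (.of A)))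
        (K.G m (Spec (.of A)))).comp e.toAddMonoidHom) (fun y => ⟨e.symm (y, 0), ?_⟩)
      change (e (e.symm (y, 0))).1 = y
      rw [e.apply_symm_apply]

/-- all groups of the affine spaces -/
theorem fin_space (h0 : K.Fin (Spec (.of R))) (σ : Type) [Fintype σ] :
    K.Fin (aff R (MvPolynomial σ R)).left :=
  iso_alg (bnd K.toKThy False h0).toUni (renameEquiv R (Fintype.equivFin σ).symm)
    ((bnd K.toKThy False h0).space _)

/-- The localization sequence of `f = 0` in an affine scheme, and the affine bundle over the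
complement. -/
theorem loc_jou {A : Type} [CommRing A] [Algebra R A] [Algebra.FiniteType R A] {c : ℕ}
    (f : Fin c → A) : ∃ U : Scheme.{0}, LocSeq K.G K.grp (aff R A).left
      (aff R (A ⧸ Ideal.span (Set.range f))).left U ∧ ∀ m, Nonempty (K.G m U ≃+ K.G m (jouS f)) := by
  have := ft_trans (R := R) A
  let i := affMap (Ideal.Quotient.mkₐ R (Ideal.span (Set.range f)))
  let j := opnMap (aff R A) (neOpen R f)
  have ht : IsTriple i j := by
    refine ⟨closed_affMap _ (Ideal.Quotient.mkₐ_surjective R _), inferInstance, ?_⟩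
    rw [range_affMap _ (Ideal.Quotient.mkₐ_surjective R _), range_opnMap]
    ext x
    change (∀ a, Ideal.Quotient.mk (Ideal.span (Set.range f)) a = 0 → a ∈ x.asIdeal) ↔
      ¬ ∃ l, f l ∉ x.asIdeal
    push Not
    constructor
    · intro h l
      exact h (f l) (Ideal.Quotient.eq_zero_iff_mem.mpr (Ideal.subset_span ⟨l, rfl⟩))
    · intro h a ha
      rw [Ideal.Quotient.eq_zero_iff_mem] at ha
      refine (Ideal.span_le.mpr ?_ : Ideal.span (Set.range f) ≤ x.asIdeal) ha
      rintro _ ⟨l, rfl⟩
      exact h l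
  refine ⟨(opn (aff R A) (neOpen R f)).left, ?_, fun m => ?_⟩
  · exact K.localization _ _ _ _ i.left j.left (ft_int (ft_aff (R := R) (A := A) False))
      ht.closed ht.opened ht.compl
  · exact K.bundle m A c f _ j.left ⟨ht.opened, range_opnMap _ _⟩

theorem sys_of_jou {A : Type} [CommRing A] [Algebra R A] [Algebra.FiniteType R A] {c : ℕ}
    (f : Fin c → A) (hA : K.Fin (aff R A).left) (n : ℕ)
    (h : ∀ m ≤ n + 1, AddGroup.FG (K.G m (jouS f))) :
    ∀ m ≤ n, AddGroup.FG (K.G m (aff R (A ⧸ Ideal.span (Set.range f))).left) := by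
  intro m hm
  obtain ⟨U, ⟨a, b, d, -, -, h3, -⟩, hU⟩ := loc_jou (R := R) K f
  obtain ⟨e⟩ := hU (m + 1)
  exact fg_exact (d m) (a m) (h3 m) (fg_equiv ⟨e.symm⟩ (h (m + 1) (by omega))) (hA m)

theorem jou_of_sys {A : Type} [CommRing A] [Algebra R A] [Algebra.FiniteType R A] {c : ℕ}
    (f : Fin c → A) (hA : K.Fin (aff R A).left) (n : ℕ)
    (h : ∀ m < n, AddGroup.FG (K.G m (aff R (A ⧸ Ideal.span (Set.range f))).left)) :
    ∀ m ≤ n, AddGroup.FG (K.G m (jouS f)) := by
  intro m hm
  obtain ⟨U, ⟨a, b, d, -, h2, -, h4⟩, hU⟩ := loc_jou (R := R) K f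
  refine fg_equiv (hU m) ?_
  cases m with
  | zero =>
    have := hA 0
    exact AddGroup.fg_of_surjective h4
  | succ m => exact fg_exact (b (m + 1)) (d m) (h2 m) (hA (m + 1)) (h m (by omega))

omit hR in
theorem iso_cub {a b c : ℕ} (E : Fin c → Finset (Fin a × Fin b)) (m : ℕ) :
    Nonempty (K.G m (jouS fun l => few R (E l)) ≃+ K.G m (cubS R E).left) :=
  K.iso m _ _ ((Over.forget _).mapIso (affIso (cubEquiv (R := R) E)))

theorem empty_fg (n : ℕ) (h0 : K.Fin (Spec (.of R))) (B : Type) [CommRing B] [Algebra R B]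
    (hB : Subsingleton B) : ∀ m ≤ n, AddGroup.FG (K.G m (aff R B).left) :=
  fun m _ => p_empty (bnd K.toKThy False h0) B hB m

variable [IsNoetherianRing R]

/-- The groups up to degree `n` of all schemes, and those up to degree `n + 1` of the short cubic
hypersurfaces. -/
theorem upTo_iff (hZ : Function.Surjective (Int.cast : ℤ → R)) (h0 : K.Fin (Spec (.of R))) (n : ℕ) :
    K.UpTo R n ↔ ∀ (a b c : ℕ) (E : Fin c → Finset (Fin a × Fin b)), (∀ l, (E l).card ≤ 3) →
      ∀ m, 1 ≤ m → m ≤ n + 1 → AddGroup.FG (K.G m (cubS R E).left) := by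
  constructor
  · intro h a b c E _ m _ hm
    refine fg_equiv (iso_cub K E m) (jou_of_sys (R := R) K (fun l => few R (E l)) (fin_space K h0 _) (n + 1)
      (fun m hm => h _ (ft_aff False) m (by omega)) m hm)
  · intro h
    refine (three_iff (short_presents hZ) (cloN K False n)).mpr fun a b c E hE => ?_
    refine sys_of_jou (R := R) K (fun l => few R (E l)) (fin_space K h0 _) n fun m hm => ?_
    rcases Nat.eq_zero_or_pos m with rfl | hm0
    · exact jou_of_sys (R := R) K (fun l => few R (E l)) (fin_space K h0 _) 0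
        (fun m hm => absurd hm (by omega)) 0 le_rfl
    · obtain ⟨e⟩ := iso_cub (R := R) K E m
      exact fg_equiv ⟨e.symm⟩ (h a b c E hE m hm0 hm)

/-- Regular schemes suffice, degree by degree. -/
theorem regUpTo_iff (h0 : K.Fin (Spec (.of R))) (n : ℕ) : K.RegUpTo R n ↔ K.UpTo R n := by
  constructor
  · intro h X hX
    refine of_affine' (cloN K False n).iso (cloN K False n).total (fun A _ _ _ => ?_) X hX
    refine cnoeth (cloN K False n) (fun B _ _ hB => empty_fg K n h0 B hB) fun p hp => ?_
    have hp' : p.IsPrime := hp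
    have := ft_trans (R := R) (A ⧸ p)
    obtain ⟨w, hw, hr⟩ := K.generic_regular (A ⧸ p)
    have h3 : Algebra.FiniteType R (Localization.Away w) :=
      Algebra.FiniteType.trans (S := A ⧸ p) inferInstance inferInstance
    exact ⟨w, hw, h (aff R (Localization.Away w)) (ft_aff False) hr⟩
  · intro h X hX _
    exact h X hX

end

/-- short cubic rings over regular rings are regular -/
theorem regular_cub {R : Type} [CommRing R] [IsRegularRing R] {a b c : ℕ}
    (E : Fin c → Finset (Fin a × Fin b)) : IsRegularScheme (cubS R E).left := by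
  have h : IsRegularScheme (hypS (triE (R := R) E)).left := regular_hyp _
  exact isRegularScheme_iso ((Over.forget _).mapIso (affIso (cubHyp E)).symm) h

section

variable (K : LinThy) {R : Type} [CommRing R] [IsRegularRing R]

theorem finiteType_of_surj (hZ : Function.Surjective (Int.cast : ℤ → R)) :
    Algebra.FiniteType ℤ R :=
  Algebra.FiniteType.of_surjective (Algebra.ofId ℤ R) (by
    intro r
    obtain ⟨n, rfl⟩ := hZ r
    exact ⟨n, by simp⟩)

theorem dim_of_surj (hZ : Function.Surjective (Int.cast : ℤ → R)) : ringKrullDim R ≤ 1 :=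
  (ringKrullDim_le_of_surjective (Int.castRingHom R) hZ).trans dim_int

/-- degree by degree: the homology of the linear groups -/
theorem homology_iff (hZ : Function.Surjective (Int.cast : ℤ → R)) (n : ℕ) :
    K.UpTo R n ↔ ∀ (a b c : ℕ) (E : Fin c → Finset (Fin a × Fin b)), (∀ l, (E l).card ≤ 3) →
      ∃ N₀, ∀ N, N₀ ≤ N → ∀ i ≤ n + 1, FinHom (Cub R E) N i := by
  have hR := finiteType_of_surj hZ
  rw [upTo_iff K hZ (fin_dim_one K.toKThy R (dim_of_surj hZ)) n]
  refine forall_congr' fun a => forall_congr' fun b => forall_congr' fun c => forall_congr' fun E =>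
    forall_congr' fun _ => ?_
  have := ft_trans (R := R) (Cub R E)
  exact K.homology (Cub R E) (regular_cub E) (n + 1)

theorem fg_iff (hZ : Function.Surjective (Int.cast : ℤ → R)) :
    K.UpTo R 0 ↔ ∀ (a b c : ℕ) (E : Fin c → Finset (Fin a × Fin b)), (∀ l, (E l).card ≤ 3) →
      ∃ N₀, ∀ N, N₀ ≤ N → Group.FG (GL (Fin N) (Cub R E)) := by
  have hR := finiteType_of_surj hZ
  rw [upTo_iff K hZ (fin_dim_one K.toKThy R (dim_of_surj hZ)) 0]
  refine forall_congr' fun a => forall_congr' fun b => forall_congr' fun c => forall_congr' fun E =>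
    forall_congr' fun _ => ?_
  have hT := ft_trans (R := R) (Cub R E)
  obtain ⟨N₀, hN₀⟩ := K.stability (Cub R E) (regular_cub E)
  constructor
  · intro h
    refine ⟨max N₀ 3, fun N hN => ?_⟩
    obtain ⟨φ, hφ, hK⟩ := hN₀ N ((le_max_left _ _).trans hN)
    have h1 : AddGroup.FG (K.G 1 (sp (Cub R E))) := h 1 le_rfl le_rfl
    refine fg_ext φ hφ ?_ inferInstance
    rw [hK]
    exact elem_fg ((le_max_right _ _).trans hN) hT
  · rintro ⟨N₁, h⟩ m hm1 hm
    obtain rfl : m = 1 := by omega
    obtain ⟨φ, hφ, -⟩ := hN₀ (max N₀ N₁) (le_max_left _ _)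
    have h1 := h (max N₀ N₁) (le_max_right _ _)
    have h2 : Group.FG (Multiplicative (K.G 1 (sp (Cub R E)))) := Group.fg_of_surjective hφ
    exact AddGroup.fg_iff_mul_fg.mpr h2

theorem fp_iff (hZ : Function.Surjective (Int.cast : ℤ → R)) :
    K.UpTo R 1 ↔ ∀ (a b c : ℕ) (E : Fin c → Finset (Fin a × Fin b)), (∀ l, (E l).card ≤ 3) →
      ∃ N₀, ∀ N, N₀ ≤ N → Group.IsFinitelyPresented (GL (Fin N) (Cub R E)) := by
  have hR := finiteType_of_surj hZ
  rw [upTo_iff K hZ (fin_dim_one K.toKThy R (dim_of_surj hZ)) 1]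
  refine forall_congr' fun a => forall_congr' fun b => forall_congr' fun c => forall_congr' fun E =>
    forall_congr' fun _ => ?_
  have hT := ft_trans (R := R) (Cub R E)
  rw [← K.presentation (Cub R E) (regular_cub E)]
  constructor
  · intro h
    exact ⟨h 1 le_rfl (by omega), h 2 (by omega) le_rfl⟩
  · rintro ⟨h1, h2⟩ m hm1 hm
    obtain rfl | rfl : m = 1 ∨ m = 2 := by omega
    · exact h1
    · exact h2

theorem reg_iff (hZ : Function.Surjective (Int.cast : ℤ → R)) (n : ℕ) :
    K.RegUpTo R n ↔ K.UpTo R n :=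
  have := finiteType_of_surj hZ
  regUpTo_iff K (fin_dim_one K.toKThy R (dim_of_surj hZ)) n

end

end Pool.Agent.Helper11U
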