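import Pool.Agent.Helper11U.Alt

/-!
# Blocks of variables, with the limit case
-/

set_option autoImplicit false

open CategoryTheory CategoryTheory.Limits AlgebraicGeometry MvPolynomial
open Pool.Agent.Y116.UV Pool.Agent.Z125.UN Pool.Agent.Q282.UK Pool.Agent.Q282.UZ

namespace Pool.Agent.Helper11U

universe w w' v u

/-- `P` is true for the hypersurfaces `T(x, y, z) = 1` over `k`, for all trilinear forms `T` such that one
of the three blocks of variables has at most `m` variables (for `m = ⊤`: for all trilinear forms). -/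
def ForBlocks {k : Type} [Field k] (P : Sch k → Prop) (m : ℕ∞) : Prop :=
  ∀ (a b c : ℕ) (T : Fin a → Fin b → Fin c → k), ((a : ℕ∞) ≤ m ∨ (b : ℕ∞) ≤ m ∨ (c : ℕ∞) ≤ m) →
    P (hypS T)

variable {k : Type} [Field k]

lemma forBlocks_top (P : Sch k → Prop) :
    ForBlocks P ⊤ ↔ ∀ (a b c : ℕ) (T : Fin a → Fin b → Fin c → k), P (hypS T) :=
  ⟨fun h a b c T => h a b c T (Or.inl le_top), fun h a b c T _ => h a b c T⟩

/-- The hypersurfaces of trilinear forms decide. -/
lemma all_of_tri {P : Sch k → Prop} (hP : Bnd True P) :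
    (∀ X : Sch k, FT True X → P X) ↔ ∀ (a b c : ℕ) (T : Fin a → Fin b → Fin c → k), P (hypS T) :=
  ⟨fun h _ _ _ _ => h _ (ft_aff True), fun h X hX => universal (R := k) (S := Set.univ) hP.toUni
    trivial trivial (fun a b c T _ => h a b c T) presents_univ X hX⟩

lemma forBlocks_coe (P : Sch k → Prop) (m : ℕ) : ForBlocks P m ↔ ForBlock P m := by
  simp only [ForBlocks, ForBlock, Nat.cast_le]

section

variable {C : Type u} [Category.{v} C] [Abelian C] {D : GrThy k C} (hD : IsGrThy D)
  (hp : IsPure D) (hR : Resolution k) {S : C → Prop} (hS : IsAdd D.T S)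
  (h0 : ∀ i w, S (D.G i w (aff k k)))

include hD hp hR hS h0

/-- Dimension at most `d` and blocks of at most `d + 2` variables. -/
theorem class_blocks [PerfectField k] (d : ℕ∞) :
    ForSmoothProper (fun X => ∀ i, S (D.G i i X)) d ↔
      ForBlocks (fun X => ∀ i w, S (D.G i w X)) (d + 2) := by
  induction d using ENat.recTopCoe with
  | top =>
    rw [show (⊤ : ℕ∞) + 2 = ⊤ from rfl, forBlocks_top]
    exact class_all hD hp hR hS h0
  | coe d =>
    rw [show ((d : ℕ∞) + 2) = ((d + 2 : ℕ) : ℕ∞) from rfl, forBlocks_coe]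
    exact class_iff hD hp hR hS h0 d

end

section

variable {P : Sch k → Prop} (hP : Bnd True P)
  (hf : ∀ {V U : Sch k} (f : V ⟶ U), FT True U → IsFinite f.left → Flat f.left →
    Surjective f.left → IsIntegral V.left → IsIntegral U.left → P V → P U)
  (hA : Alterations k)

include hP hf hA

/-- Dimension at most `d` and blocks of at most `d + 2` variables. -/
theorem alt_blocks [PerfectField k] (d : ℕ∞) : ForSmoothProper P d ↔ ForBlocks P (d + 2) := by
  induction d using ENat.recTopCoe with
  | top =>
    rw [show (⊤ : ℕ∞) + 2 = ⊤ from rfl, forBlocks_top]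
    constructor
    · intro h a b c T
      exact hA P ⟨resClosed_of_bnd hP, hf⟩ ⊤ h _ (ft_aff True) le_top
    · intro h X hX _ _ _
      exact universal (R := k) (S := Set.univ) hP.toUni trivial trivial
        (fun a b c T _ => h a b c T) presents_univ X hX
  | coe d =>
    rw [show ((d : ℕ∞) + 2) = ((d + 2 : ℕ) : ℕ∞) from rfl, forBlocks_coe]
    exact alt_iff hP hf hA d

end

end Pool.Agent.Helper11U
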