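import Pool.Agent.Helper11U.Base

/-!
# Systems of linear equations whose minors belong to a given multiplicative set
-/

set_option autoImplicit false

open CategoryTheory CategoryTheory.Limits AlgebraicGeometry MvPolynomial
open Pool.Agent.Y116.UV Pool.Agent.Z125.UN Pool.Agent.Q282.UK Pool.Agent.Q282.UZ

namespace Pool.Agent.Helper11U

section param

variable {R : Type} [CommRing R] {τ σ κ κ' : Type} (G : κ → MvPolynomial τ R)
  (w : MvPolynomial τ R) (G' : κ' → MvPolynomial σ R) (w' : MvPolynomial σ R)

/-- functions of the parameters -/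
lemma pc_param (f : τ → σ) (h : ∀ k, pc G' w' (rename f (G k)) = 0)
    (hw : IsUnit (pc G' w' (rename f w))) :
    ∃ φ : Pc G w →ₐ[R] Pc G' w', ∀ p, φ (pc G w p) = pc G' w' (rename f p) := by
  have h1 : ∀ p : MvPolynomial τ R, aeval (fun t => pv G' w' (f t)) p = pc G' w' (rename f p) := by
    intro p
    rw [← pc_aeval, aeval_rename]
    rfl
  refine ⟨pcLift G w (fun t => pv G' w' (f t)) (fun k => by rw [h1]; exact h k)
    (by rw [h1]; exact hw), fun p => ?_⟩
  rw [pcLift_pc, h1]

end param

section chio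

variable {A : Type} [CommRing A] {ι : Type} [Fintype ι] [DecidableEq ι]

/-- The identity of Chiò: the determinant of the matrix of the minors which contain a fixed invertible
entry. -/
lemma chio (x : A) (hx : IsUnit x) (r : ι → A) (c : ι → A) (N : Matrix ι ι A) :
    ∃ u : A, IsUnit u ∧ (Matrix.of fun a b => x * N a b - c a * r b).det =
      u * (Matrix.fromBlocks (Matrix.of fun (_ : Unit) (_ : Unit) => x)
        (Matrix.of fun (_ : Unit) b => r b) (Matrix.of fun a (_ : Unit) => c a) N).det := by
  obtain ⟨y, hy⟩ := hx.exists_right_inv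
  let X : Matrix Unit Unit A := Matrix.of fun (_ : Unit) (_ : Unit) => x
  let Y : Matrix Unit Unit A := Matrix.of fun (_ : Unit) (_ : Unit) => y
  have hXY : X * Y = 1 := by
    ext a b
    rw [Matrix.mul_apply, Finset.univ_unique, Finset.sum_singleton]
    change x * y = _
    rw [hy, Matrix.one_apply, if_pos (Subsingleton.elim _ _)]
  have hYX : Y * X = 1 := by
    ext a b
    rw [Matrix.mul_apply, Finset.univ_unique, Finset.sum_singleton]
    change y * x = _
    rw [mul_comm, hy, Matrix.one_apply, if_pos (Subsingleton.elim _ _)]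
  let iX : Invertible X := ⟨Y, hYX, hXY⟩
  have h1 := Matrix.det_fromBlocks₁₁ X (Matrix.of fun (_ : Unit) b => r b)
    (Matrix.of fun a (_ : Unit) => c a) N
  have h2 : (Matrix.of fun a b => x * N a b - c a * r b) =
      x • (N - (Matrix.of fun a (_ : Unit) => c a) * ⅟X * (Matrix.of fun (_ : Unit) b => r b)) := by
    ext a b
    rw [Matrix.smul_apply, Matrix.sub_apply, Matrix.mul_apply, Finset.univ_unique,
      Finset.sum_singleton, Matrix.mul_apply, Finset.univ_unique, Finset.sum_singleton]
    change x * N a b - c a * r b = x * (N a b - c a * y * r b)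
    linear_combination (c a * r b) * hy
  have h3 : X.det = x := by
    rw [Matrix.det_unique]
    rfl
  refine ⟨x ^ Fintype.card ι * y, (hx.pow _).mul (IsUnit.of_mul_eq_one x (by rw [mul_comm]; exact hy)), ?_⟩
  rw [h2, Matrix.det_smul, h1, h3]
  linear_combination (-(x ^ Fintype.card ι * (N - (Matrix.of fun a (_ : Unit) => c a) * ⅟X *
    (Matrix.of fun (_ : Unit) b => r b)).det)) * hy

end chio

section

variable {R : Type} [CommRing R] {τ : Type} (S : Submonoid (MvPolynomial τ R))

/-- Over `G = 0`, `w ≠ 0` every minor of the matrix `M` is the product of a unit and an element of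
`S`. -/
def Minors {κ α β : Type} (G : κ → MvPolynomial τ R) (w : MvPolynomial τ R)
    (M : α → β → MvPolynomial τ R) : Prop :=
  ∀ (ι : Type) [Fintype ι] [DecidableEq ι] (I : ι → α) (J : ι → β), ∃ s ∈ S, ∃ u, IsUnit u ∧
    pc G w (Matrix.of fun a b => M (I a) (J b)).det = u * pc G w s

variable {S} {κ α β : Type} {G : κ → MvPolynomial τ R} {w : MvPolynomial τ R}
  {M : α → β → MvPolynomial τ R}

lemma Minors.entry (h : Minors S G w M) (i : α) (j : β) :
    ∃ s ∈ S, ∃ u, IsUnit u ∧ pc G w (M i j) = u * pc G w s := by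
  obtain ⟨s, hs, u, hu, h1⟩ := h Unit (fun _ => i) (fun _ => j)
  refine ⟨s, hs, u, hu, ?_⟩
  rwa [Matrix.det_unique] at h1

/-- the closed part -/
lemma Minors.zap (h : Minors S G w M) {i : α} {j : β} {s : MvPolynomial τ R} {u : Pc G w}
    (h1 : pc G w (M i j) = u * pc G w s) : Minors S (adj G s) w (zap M i j) := by
  classical
  intro ι _ _ I J
  obtain ⟨s', hs', u', hu', h2⟩ := h ι I J
  refine ⟨s', hs', cloF G w s u', hu'.map _, ?_⟩
  have h0 : pc (adj G s) w (M i j) = 0 := by
    rw [← cloF_pc, h1, map_mul, cloF_pc]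
    have : pc (adj G s) w s = 0 := pc_rel (adj G s) w none
    rw [this, mul_zero]
  rw [← cloF_pc (e := s) (p := s'), ← map_mul, ← h2, cloF_pc]
  have h3 : ∀ p : Matrix ι ι (MvPolynomial τ R), pc (adj G s) w p.det =
      ((pc (adj G s) w).mapMatrix p).det := fun p => AlgHom.map_det _ _
  rw [h3, h3]
  congr 1
  ext a b
  change pc _ _ (Pool.Agent.Z125.UN.zap M i j (I a) (J b)) = pc _ _ (M (I a) (J b))
  by_cases h4 : I a = i ∧ J b = j
  · rw [h4.1, h4.2, zap_self, map_zero, h0]
  · rw [zap_ne M i j h4]

/-- the open part -/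
lemma Minors.piv [DecidableEq β] (h : Minors S G w M) {i : α} {j : β} {s : MvPolynomial τ R}
    {u : Pc G w} (hu : IsUnit u) (h1 : pc G w (M i j) = u * pc G w s) :
    Minors S G (w * s) (piv M i j) := by
  classical
  intro ι _ _ I J
  obtain ⟨s', hs', u', hu', h2⟩ := h (Unit ⊕ ι) (Sum.elim (fun _ => i) I)
    (Sum.elim (fun _ => j) fun b => (J b).1)
  have hx : IsUnit (pc G (w * s) (M i j)) := by
    rw [← opnF_pc, h1, map_mul, opnF_pc]
    exact (hu.map _).mul (pc_unit_right _ _ _)
  obtain ⟨v, hv, h3⟩ := chio (pc G (w * s) (M i j)) hx (fun b => pc G (w * s) (M i (J b).1))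
    (fun a => pc G (w * s) (M (I a) j))
    (Matrix.of fun a b => pc G (w * s) (M (I a) (J b).1))
  have h4 : ∀ (ι' : Type) [Fintype ι'] [DecidableEq ι'] (p : Matrix ι' ι' (MvPolynomial τ R)),
      pc G (w * s) p.det = ((pc G (w * s)).mapMatrix p).det := fun _ _ _ p => AlgHom.map_det _ _
  refine ⟨s', hs', v * opnF G w s u', hv.mul (hu'.map _), ?_⟩
  rw [mul_assoc, ← opnF_pc (e := s) (p := s'), ← map_mul (opnF G w s), ← h2, opnF_pc, h4, h4]
  refine Eq.trans ?_ (h3.trans ?_)
  · congr 1
    ext a b
    change pc G (w * s) (M i j * M (I a) (J b).1 - M (I a) j * M i (J b).1) = _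
    rw [map_sub, map_mul, map_mul]
    rfl
  · congr 2
    ext (a | a) (b | b) <;> rfl

variable {sep : Prop} {P : Sch R → Prop} (hP : Bnd sep P) [Finite τ]

include hP

/-- The relation or the unit may be changed by units. -/
lemma entry_closed [Fintype β] {i : α} {j : β} {s : MvPolynomial τ R} {u : Pc G w} (hu : IsUnit u)
    (h1 : pc G w (M i j) = u * pc G w s)
    (h : P (aff R (Pc (sys (adj G s) (zap M i j)) (rename Sum.inl w)))) :
    P (aff R (Pc (sys (adj G (M i j)) (zap M i j)) (rename Sum.inl w))) := by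
  refine iso_alg hP.toUni (pcSame ?_ (pc_unit _ _) ?_ (pc_unit _ _)) h
  · obtain ⟨φ, hφ⟩ := pc_param G w (sys (adj G (M i j)) (zap M i j)) (rename Sum.inl w)
      (Sum.inl : τ → τ ⊕ β) (fun k => pc_rel (sys (adj G (M i j)) (zap M i j)) _ (Sum.inl (some k)))
      (pc_unit _ _)
    rintro ((_ | k) | i')
    · change pc _ _ (rename Sum.inl s) = 0
      have h2 : pc (sys (adj G (M i j)) (zap M i j)) (rename Sum.inl w)
          (rename Sum.inl (M i j)) = 0 := pc_rel _ _ (Sum.inl none)
      have h3 := congrArg φ h1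
      rw [map_mul, hφ, hφ, h2] at h3
      exact (hu.map φ).mul_right_eq_zero.mp h3.symm
    · exact pc_rel (sys (adj G (M i j)) (zap M i j)) _ (Sum.inl (some k))
    · exact pc_rel (sys (adj G (M i j)) (zap M i j)) _ (Sum.inr i')
  · obtain ⟨φ, hφ⟩ := pc_param G w (sys (adj G s) (zap M i j)) (rename Sum.inl w)
      (Sum.inl : τ → τ ⊕ β) (fun k => pc_rel (sys (adj G s) (zap M i j)) _ (Sum.inl (some k)))
      (pc_unit _ _)
    rintro ((_ | k) | i')
    · change pc _ _ (rename Sum.inl (M i j)) = 0
      have h2 : pc (sys (adj G s) (zap M i j)) (rename Sum.inl w)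
          (rename Sum.inl s) = 0 := pc_rel _ _ (Sum.inl none)
      have h3 := congrArg φ h1
      rwa [map_mul, hφ, hφ, h2, mul_zero] at h3
    · exact pc_rel (sys (adj G s) (zap M i j)) _ (Sum.inl (some k))
    · exact pc_rel (sys (adj G s) (zap M i j)) _ (Sum.inr i')

lemma entry_open [Fintype β] [DecidableEq β] {i : α} {j : β} {s : MvPolynomial τ R} {u : Pc G w}
    (hu : IsUnit u) (h1 : pc G w (M i j) = u * pc G w s)
    (h : P (aff R (Pc (sys G (piv M i j)) (rename Sum.inl (w * s))))) :
    P (aff R (Pc (sys G (piv M i j)) (rename Sum.inl w * rename Sum.inl (M i j)))) := by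
  refine iso_alg hP.toUni (pcSame (fun k => pc_rel _ _ k) ?_ (fun k => pc_rel _ _ k) ?_) h
  · obtain ⟨φ, hφ⟩ := pc_param G w (sys G (piv M i j)) (rename Sum.inl w * rename Sum.inl (M i j))
      (Sum.inl : τ → τ ⊕ {j' // j' ≠ j}) (fun k => pc_rel (sys G (piv M i j)) _ (Sum.inl k))
      (pc_unit_left _ _ _)
    have h2 : IsUnit (pc (sys G (piv M i j)) (rename Sum.inl w * rename Sum.inl (M i j))
        (rename Sum.inl (M i j))) := pc_unit_right _ _ _
    have h3 := congrArg φ h1
    rw [map_mul, hφ, hφ] at h3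
    rw [h3] at h2
    rw [map_mul, map_mul]
    exact (pc_unit_left _ _ _).mul (isUnit_of_mul_isUnit_right h2)
  · have h5 : IsUnit (pc (sys G (piv M i j)) (rename Sum.inl (w * s)) (rename Sum.inl w)) := by
      rw [map_mul]
      exact pc_unit_left _ _ _
    have h6 : IsUnit (pc (sys G (piv M i j)) (rename Sum.inl (w * s)) (rename Sum.inl s)) := by
      rw [map_mul]
      exact pc_unit_right _ _ _
    obtain ⟨φ, hφ⟩ := pc_param G w (sys G (piv M i j)) (rename Sum.inl (w * s))
      (Sum.inl : τ → τ ⊕ {j' // j' ≠ j}) (fun k => pc_rel (sys G (piv M i j)) _ (Sum.inl k)) h5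
    have h3 : φ (pc G w (M i j)) = φ u * φ (pc G w s) := by rw [h1, map_mul φ]
    rw [hφ, hφ] at h3
    rw [map_mul (pc _ _), h3]
    exact h5.mul ((hu.map φ).mul h6)

/-- If the property is true for all closed subschemes of an affine space with equations in `S`, then it is
true for the solutions of systems of linear equations all of whose minors belong to `S`. -/
theorem pieces_minors (hN : ∀ (κ : Type) (g : κ → MvPolynomial τ R), (∀ k, g k ∈ S) →
      P (aff R (Pc g 1))) (n : ℕ) :
    ∀ (β : Type) (_ : Fintype β), Fintype.card β = n → ∀ (α : Type) (_ : Fintype α) (q : ℕ)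
      (κ : Type) (g : κ → MvPolynomial τ R) (w : MvPolynomial τ R)
      (M : α → β → MvPolynomial τ R), (∀ k, g k ∈ S) → w ∈ S → Minors S g w M →
      Nat.card {p : α × β // M p.1 p.2 ≠ 0} ≤ q → P (aff R (Pc (sys g M) (rename Sum.inl w))) := by
  classical
  have hP1 : ∀ (κ : Type) (g : κ → MvPolynomial τ R) (w : MvPolynomial τ R), (∀ k, g k ∈ S) →
      w ∈ S → P (aff R (Pc g w)) := by
    intro κ g w hg hw
    have h := pc_open hP (e := w) (hN κ g hg) (hN (Option κ) (adj g w) (by
      rintro (_ | k)
      · exact hw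
      · exact hg k))
    rwa [one_mul] at h
  induction n using Nat.strong_induction_on with
  | _ n ihn =>
  intro β _ hβ α _ q
  induction q with
  | zero =>
    intro κ g w M hg hw hMin hM
    have h0 : ∀ i j, M i j = 0 := by
      intro i j
      by_contra h
      have h1 : Nat.card {p : α × β // M p.1 p.2 ≠ 0} = 0 := Nat.le_zero.mp hM
      rw [Nat.card_eq_zero] at h1
      rcases h1 with h1 | h1
      · exact h1.false ⟨(i, j), h⟩
      · exact h1.not_finite inferInstance
    exact iso_alg hP.toUni (zeroE g w M h0) (pc_poly hP β (hP1 κ g w hg hw))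
  | succ q ihq =>
    intro κ g w M hg hw hMin hM
    by_cases h0 : ∀ i j, M i j = 0
    · exact iso_alg hP.toUni (zeroE g w M h0) (pc_poly hP β (hP1 κ g w hg hw))
    · push Not at h0
      obtain ⟨i, j, hij⟩ := h0
      obtain ⟨s, hs, u, hu, hsu⟩ := hMin.entry i j
      refine pc_total hP (e := rename Sum.inl (M i j)) ?_ ?_
      · refine iso_alg hP.toUni (zapE g w M i j) (entry_closed hP hu hsu
          (ihq (Option κ) (adj g s) w _ (by
            rintro (_ | k)
            · exact hs
            · exact hg k) hw (hMin.zap hsu) ?_))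
        have h1 : Nat.card {p : α × β // zap M i j p.1 p.2 ≠ 0} <
            Nat.card {p : α × β // M p.1 p.2 ≠ 0} := by
          let f : {p : α × β // zap M i j p.1 p.2 ≠ 0} → {p : α × β // M p.1 p.2 ≠ 0} := fun p =>
            ⟨p.1, by
              have h2 := p.2
              by_cases h3 : p.1.1 = i ∧ p.1.2 = j
              · rw [h3.1, h3.2, zap_self] at h2
                exact absurd rfl h2
              · rwa [zap_ne M i j h3] at h2⟩
          rw [Nat.card_eq_fintype_card, Nat.card_eq_fintype_card]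
          refine Fintype.card_lt_of_injective_of_notMem f ?_ (b := ⟨(i, j), hij⟩) ?_
          · intro x y h
            exact Subtype.ext (congrArg (fun z => z.1) h)
          · rintro ⟨x, hx⟩
            have h3 : x.1 = (i, j) := congrArg (fun z => z.1) hx
            have h2 := x.2
            rw [h3] at h2
            exact h2 (zap_self M i j)
        omega
      · refine iso_alg hP.toUni (pivE g w M i j) (entry_open hP hu hsu ?_)
        have hc : Fintype.card {j' : β // j' ≠ j} = n - 1 := by
          rw [Fintype.card_subtype_compl, Fintype.card_subtype_eq, hβ]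
        have hn : 0 < n := by
          rw [← hβ]
          exact Fintype.card_pos_iff.mpr ⟨j⟩
        exact ihn (n - 1) (by omega) {j' : β // j' ≠ j} inferInstance hc α inferInstance
          _ κ g (w * s) (piv M i j) hg (S.mul_mem hw hs) (hMin.piv hu hsu) le_rfl

end

end Pool.Agent.Helper11U
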