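import Pool.Agent.Helper11U.Deg

/-!
# Trilinear forms with minors of small degree
-/

set_option autoImplicit false

open CategoryTheory CategoryTheory.Limits AlgebraicGeometry MvPolynomial
open Pool.Agent.Y116.UV Pool.Agent.Z125.UN Pool.Agent.Q282.UK Pool.Agent.Q282.UZ

namespace Pool.Agent.Helper11U

/-- The polynomials which are products of polynomials of degree at most `e`. -/
noncomputable def prodDeg (σ R : Type) [CommRing R] (e : ℕ) : Submonoid (MvPolynomial σ R) :=
  Submonoid.closure {p | p.totalDegree ≤ e}

/-- The matrix of linear forms `T(z)_{ij} = ∑_k T_{ijk} z_k`. -/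
noncomputable def linM {R : Type} [CommRing R] {α β γ : Type} [Fintype γ] (T : α → β → γ → R)
    (i : α) (j : β) : MvPolynomial γ R :=
  ∑ k, C (T i j k) * X k

/-- Every minor of the matrix `T(z)` is a product of polynomials of degree at most `e`. -/
def SmallMinors {R : Type} [CommRing R] {α β γ : Type} [Fintype γ] (e : ℕ) (T : α → β → γ → R) :
    Prop :=
  ∀ (m : ℕ) (I : Fin m → α) (J : Fin m → β),
    (Matrix.of fun i j => linM T (I i) (J j)).det ∈ prodDeg γ R e

/-- `P` is true for the closed subschemes of the affine spaces of dimension at most `N` whose equations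
are products of polynomials of degree at most `e`. -/
def ForDeg {R : Type} [CommRing R] (P : Sch R → Prop) (N e : ℕ) : Prop :=
  ∀ c ≤ N, ∀ (κ : Type) (g : κ → MvPolynomial (Fin c) R), (∀ k, g k ∈ prodDeg (Fin c) R e) →
    P (aff R (MvPolynomial (Fin c) R ⧸ Ideal.span (Set.range g)))

section degree

variable {R : Type} [CommRing R] {σ τ : Type}

lemma deg_aeval (v : σ → MvPolynomial τ R) (hv : ∀ i, (v i).totalDegree ≤ 1)
    (p : MvPolynomial σ R) : (aeval v p).totalDegree ≤ p.totalDegree := by
  classical
  conv_lhs => rw [p.as_sum, map_sum]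
  refine totalDegree_finsetSum_le fun m hm => ?_
  rw [aeval_monomial]
  have h1 : (m.prod fun i k => v i ^ k).totalDegree ≤ m.degree := by
    rw [Finsupp.prod, Finsupp.degree_apply]
    refine (totalDegree_finsetProd _ _).trans (Finset.sum_le_sum fun i _ => ?_)
    refine (totalDegree_pow _ _).trans ?_
    calc m i * (v i).totalDegree ≤ m i * 1 := Nat.mul_le_mul_left _ (hv i)
      _ = m i := mul_one _
  have h2 : m.degree ≤ p.totalDegree := le_totalDegree hm
  refine (totalDegree_mul _ _).trans ?_
  rw [show (algebraMap R (MvPolynomial τ R)) (coeff m p) = C (coeff m p) from rfl, totalDegree_C,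
    zero_add]
  exact h1.trans h2

lemma prodDeg_map {e : ℕ} (φ : MvPolynomial σ R →ₐ[R] MvPolynomial τ R)
    (hφ : ∀ i, (φ (X i)).totalDegree ≤ 1) {p : MvPolynomial σ R} (hp : p ∈ prodDeg σ R e) :
    φ p ∈ prodDeg τ R e := by
  have h1 : ∀ q, φ q = aeval (fun i => φ (X i)) q := fun q =>
    congrArg (fun f : MvPolynomial σ R →ₐ[R] MvPolynomial τ R => f q) (by
      apply MvPolynomial.algHom_ext
      intro i
      rw [aeval_X])
  refine (Submonoid.closure_le.mpr ?_ : prodDeg σ R e ≤
    (prodDeg τ R e).comap (φ : MvPolynomial σ R →* MvPolynomial τ R)) hp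
  intro q hq
  refine Submonoid.subset_closure ?_
  change (φ q).totalDegree ≤ e
  rw [h1]
  exact (deg_aeval _ hφ q).trans hq

lemma deg_det {ι : Type} [Fintype ι] [DecidableEq ι] (M : Matrix ι ι (MvPolynomial τ R))
    (hM : ∀ i j, (M i j).totalDegree ≤ 1) : M.det.totalDegree ≤ Fintype.card ι := by
  rw [Matrix.det_apply]
  refine totalDegree_finsetSum_le fun s _ => ?_
  refine (totalDegree_smul_le _ _).trans ?_
  refine (totalDegree_finsetProd _ _).trans ?_
  refine (Finset.sum_le_sum fun i _ => hM (s i) i).trans ?_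
  rw [Finset.sum_const, smul_eq_mul, mul_one, Finset.card_univ]

lemma deg_linM [Fintype τ] {α β : Type} (T : α → β → τ → R) (i : α) (j : β) :
    (linM T i j).totalDegree ≤ 1 := by
  refine totalDegree_finsetSum_le fun k _ => ?_
  refine (totalDegree_mul _ _).trans ?_
  rw [totalDegree_C, zero_add]
  rcases subsingleton_or_nontrivial R with h | h
  · rw [Subsingleton.elim (X k : MvPolynomial τ R) 0, totalDegree_zero]
    exact Nat.zero_le _
  · rw [totalDegree_X]

/-- small minors, for matrices indexed by finite types -/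
lemma SmallMinors.det [Fintype τ] {α β : Type} {e : ℕ} {T : α → β → τ → R}
    (h : SmallMinors e T) (ι : Type) [Fintype ι] [DecidableEq ι] (I : ι → α) (J : ι → β) :
    (Matrix.of fun i j => linM T (I i) (J j)).det ∈ prodDeg τ R e := by
  let f := Fintype.equivFin ι
  have h1 := h (Fintype.card ι) (I ∘ f.symm) (J ∘ f.symm)
  have h2 : (Matrix.of fun i j => linM T ((I ∘ f.symm) i) ((J ∘ f.symm) j)) =
      (Matrix.of fun i j => linM T (I i) (J j)).submatrix f.symm f.symm := rfl
  rwa [h2, Matrix.det_submatrix_equiv_self] at h1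

/-- A matrix with at most `e` rows has small minors. -/
lemma small_rows [Fintype τ] {a e : ℕ} {β : Type} (ha : a ≤ e) (T : Fin a → β → τ → R) :
    SmallMinors e T := by
  intro m I J
  by_cases hI : Function.Injective I
  · have h1 : m ≤ a := by
      have := Fintype.card_le_of_injective I hI
      rwa [Fintype.card_fin, Fintype.card_fin] at this
    refine Submonoid.subset_closure ?_
    have h2 := deg_det (Matrix.of fun i j => linM T (I i) (J j)) fun i j => deg_linM T _ _
    rw [Fintype.card_fin] at h2
    exact h2.trans (h1.trans ha)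
  · rw [Function.Injective] at hI
    push Not at hI
    obtain ⟨x, y, hxy, hne⟩ := hI
    have h1 : (Matrix.of fun i j => linM T (I i) (J j)).det = 0 :=
      Matrix.det_zero_of_row_eq hne (by
        funext j
        change linM T (I x) (J j) = linM T (I y) (J j)
        rw [hxy])
    rw [h1]
    refine Submonoid.subset_closure ?_
    change (0 : MvPolynomial τ R).totalDegree ≤ e
    rw [totalDegree_zero]
    exact Nat.zero_le _

/-- the transposed matrix -/
lemma small_swap [Fintype τ] {α β : Type} {e : ℕ} {T : α → β → τ → R} (h : SmallMinors e T) :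
    SmallMinors e fun j i k => T i j k := by
  intro m I J
  have h1 := h m J I
  rw [← Matrix.det_transpose] at h1
  exact h1

end degree

section

variable {R : Type} [CommRing R] {sep : Prop} {P : Sch R → Prop} (hP : Bnd sep P)

include hP

/-- Bilinear systems whose minors belong to a family of multiplicative sets which is stable under the
substitutions `z_c = 0` and `z_c = 1` for the last variable. -/
theorem bilin_family {α β : Type} [Fintype α] [Fintype β]
    (S : ∀ c, Submonoid (MvPolynomial (Fin c) R))
    (hS0 : ∀ c p, p ∈ S (c + 1) → aeval (Fin.lastCases 0 X : Fin (c + 1) → MvPolynomial (Fin c) R) p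
      ∈ S c)
    (hS1 : ∀ c p, p ∈ S (c + 1) → aeval (Fin.lastCases 1 X : Fin (c + 1) → MvPolynomial (Fin c) R) p
      ∈ S c) : ∀ (c : ℕ)
    (_ : ∀ c' < c, ∀ (κ : Type) (g : κ → MvPolynomial (Fin c') R),
      (∀ k, g k ∈ S c') → P (aff R (Pc g 1))) (T : α → β → Fin c → R),
    (∀ (ι : Type) [Fintype ι] [DecidableEq ι] (I : ι → α) (J : ι → β),
      (Matrix.of fun i j => linM T (I i) (J j)).det ∈ S c) → P (aff R (Pc (bl T) 1)) := by
  intro c
  induction c with
  | zero =>
    intro _ T _
    refine iso_alg hP.toUni (pcSame ?_ ?_ ?_ ?_) (pc_space hP (σ := β ⊕ Fin 0))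
    · exact fun k => k.elim
    · rw [map_one]
      exact isUnit_one
    · intro i
      rw [bl, bil_apply]
      simp
    · rw [map_one]
      exact isUnit_one
  | succ c ih =>
    intro h T hT
    refine pc_total hP (e := zl β R c) ?_ ?_
    · refine iso_alg hP.toUni (hypE T) (ih (fun c' hc' => h c' (by omega)) (tl T) ?_)
      let φ : MvPolynomial (Fin (c + 1)) R →ₐ[R] MvPolynomial (Fin c) R :=
        aeval (Fin.lastCases 0 X)
      have hφ : ∀ i j, φ (linM T i j) = linM (tl T) i j := by
        intro i j
        rw [linM, linM, map_sum, Fin.sum_univ_castSucc]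
        have h1 : φ (C (T i j (Fin.last c)) * X (Fin.last c)) = 0 := by
          rw [map_mul, aeval_X, Fin.lastCases_last, mul_zero]
        rw [h1, add_zero]
        refine Finset.sum_congr rfl fun k _ => ?_
        rw [map_mul, aeval_X, Fin.lastCases_castSucc, algHom_C]
        rfl
      intro ι _ _ I J
      have h1 : φ _ ∈ S c := hS0 c _ (hT ι I J)
      rw [AlgHom.map_det] at h1
      have h2 : φ.mapMatrix (Matrix.of fun i j => linM T (I i) (J j)) =
          Matrix.of fun i j => linM (tl T) (I i) (J j) := by
        ext1 i j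
        exact hφ _ _
      rwa [h2] at h1
    · refine iso_alg hP.toUni (opE T) (pc_gm hP ?_)
      let φ : MvPolynomial (Fin (c + 1)) R →ₐ[R] MvPolynomial (Fin c) R :=
        aeval (Fin.lastCases 1 X)
      have hφ : ∀ i j, φ (linM T i j) = dm T i j := by
        intro i j
        rw [linM, dm, map_sum, Fin.sum_univ_castSucc, add_comm]
        congr 1
        · rw [map_mul, aeval_X, Fin.lastCases_last, mul_one, algHom_C]
          rfl
        · refine Finset.sum_congr rfl fun k _ => ?_
          rw [map_mul, aeval_X, Fin.lastCases_castSucc, algHom_C]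
          rfl
      refine pieces_minors hP (S := S c) (h c (by omega)) _ β inferInstance rfl α
        inferInstance _ Empty (nor c) 1 (dm T) (fun k => k.elim) (Submonoid.one_mem _) ?_ le_rfl
      intro ι _ _ I J
      have h1 : φ _ ∈ S c := hS1 c _ (hT ι I J)
      rw [AlgHom.map_det] at h1
      have h2 : φ.mapMatrix (Matrix.of fun i j => linM T (I i) (J j)) =
          Matrix.of fun i j => dm T (I i) (J j) := by
        ext1 i j
        exact hφ _ _
      rw [h2] at h1
      exact ⟨_, h1, 1, isUnit_one, by rw [one_mul]⟩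

omit hP in
lemma deg_last {c e : ℕ} (r : R) {p : MvPolynomial (Fin (c + 1)) R} (hp : p ∈ prodDeg (Fin (c + 1)) R e) :
    aeval (Fin.lastCases (C r) X : Fin (c + 1) → MvPolynomial (Fin c) R) p ∈
      prodDeg (Fin c) R e := by
  refine prodDeg_map _ (fun i => ?_) hp
  rw [aeval_X]
  refine Fin.lastCases ?_ (fun k => ?_) i
  · rw [Fin.lastCases_last, totalDegree_C]
    exact Nat.zero_le _
  · rw [Fin.lastCases_castSucc]
    rcases subsingleton_or_nontrivial R with h | h
    · rw [Subsingleton.elim (X k : MvPolynomial (Fin c) R) 0, totalDegree_zero]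
      exact Nat.zero_le _
    · rw [totalDegree_X]

/-- Bilinear systems with small minors. -/
theorem bilin_minors {α β : Type} [Fintype α] [Fintype β] {e : ℕ} (c : ℕ)
    (h : ∀ c' < c, ∀ (κ : Type) (g : κ → MvPolynomial (Fin c') R),
      (∀ k, g k ∈ prodDeg (Fin c') R e) → P (aff R (Pc g 1))) (T : α → β → Fin c → R)
    (hT : SmallMinors e T) : P (aff R (Pc (bl T) 1)) := by
  refine bilin_family hP (fun c => prodDeg (Fin c) R e) ?_ ?_ c h T fun ι _ _ I J => hT.det ι I J
  · intro c p hp
    have := deg_last (0 : R) hp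
    rwa [map_zero] at this
  · intro c p hp
    have := deg_last (1 : R) hp
    rwa [map_one] at this

/-- Trilinear forms with at most `N + 1` variables `z` and small minors. -/
theorem minors_tri {N e : ℕ} (h : ForDeg P N e) {a b c : ℕ} (T : Fin a → Fin b → Fin c → R)
    (hc : c ≤ N + 1) (hT : SmallMinors e T) : P (hypS T) := by
  refine (hyp_iff hP T).mpr (bilin_minors hP (e := e) c (fun c' hc' κ g hg => ?_) T hT)
  exact iso_alg hP.toUni (oneE g) (h c' (by omega) κ g hg)

/-- Two blocks of at most `N + 1` and `e` variables. -/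
theorem two_blocks {N e : ℕ} (h : ForDeg P N e) {a b c : ℕ} (T : Fin a → Fin b → Fin c → R)
    (hT : (a ≤ N + 1 ∧ (b ≤ e ∨ c ≤ e)) ∨ (b ≤ N + 1 ∧ (a ≤ e ∨ c ≤ e)) ∨
      (c ≤ N + 1 ∧ (a ≤ e ∨ b ≤ e))) : P (hypS T) := by
  have key : ∀ (a b c : ℕ) (T : Fin a → Fin b → Fin c → R), c ≤ N + 1 → (a ≤ e ∨ b ≤ e) →
      P (hypS T) := by
    intro a b c T hc hab
    refine minors_tri hP h T hc ?_
    rcases hab with ha | hb
    · exact small_rows ha T
    · exact small_swap (small_rows hb fun j i k => T i j k)
  rcases hT with ⟨h1, h2⟩ | ⟨h1, h2⟩ | ⟨h1, h2⟩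
  · have e1 := swapL T
    have e2 := swapR fun j i k => T i j k
    exact iso_alg hP.toUni (e1.trans e2).symm (key b c a (fun j k i => T i j k) h1 h2)
  · exact iso_alg hP.toUni (swapR T).symm (key a c b (fun i k j => T i j k) h1 h2)
  · exact key a b c T h1 h2

end

end Pool.Agent.Helper11U
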