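import Pool.Agent.Helper11U.Simple

/-!
# Deligne's conjecture on critical values for the objects of a category of motives
-/

set_option autoImplicit false

open CategoryTheory CategoryTheory.Limits AlgebraicGeometry TensorProduct
open Pool.Agent.Y116.UV Pool.Agent.Z125.UN

namespace Pool.Agent.Helper11U

universe v u

/-- Motives for absolute Hodge cycles over `ℚ` with coefficients in the number field `E`, their critical
integers, `L`-values and periods. `C` is the category of motives; `G i w X` (see `GrThy`) is the graded piece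
of weight `w` of the cohomology `H^i_c(X) ⊗ E` of a scheme `X` over `ℚ`, and `T M = M(-1)`. For a motive
`M`:
* `Adm M`: `M` is pure of some weight `w`, and `M^{w/2,w/2} = 0` if `w` is even;
* `Crit m M`: the integer `m` is critical for `M`;
* `L m M`: the value `L(m, M)` in `E ⊗ ℂ`;
* `n ε M`: the dimension over `E` of the eigenspace `M^ε` of `F_∞` (`ε = ±1`);
* `c ε M`: the period `c^ε(M)` in `E ⊗ ℂ`, for a choice of bases. -/
structure DelThy (E : Type) [Field E] [Algebra ℚ E] (C : Type u) [Category.{v} C] extends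
    GrThy ℚ C where
  Adm : C → Prop
  Crit : ℤ → C → Prop
  L : ℤ → C → E ⊗[ℚ] ℂ
  n : ℤˣ → C → ℕ
  c : ℤˣ → C → E ⊗[ℚ] ℂ

/-- `x ∼_E y`: `x = e y` for some `e ∈ E`. -/
def SimE {E : Type} [Field E] [Algebra ℚ E] (x y : E ⊗[ℚ] ℂ) : Prop :=
  ∃ e : E, x = (e ⊗ₜ[ℚ] (1 : ℂ)) * y

/-- `x = e y` for some non-zero `e ∈ E`. -/
def UnitE {E : Type} [Field E] [Algebra ℚ E] (x y : E ⊗[ℚ] ℂ) : Prop :=
  ∃ e : E, e ≠ 0 ∧ x = (e ⊗ₜ[ℚ] (1 : ℂ)) * y

/-- The element `(2πi)^m` of `E ⊗ ℂ`. -/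
noncomputable def tpi (E : Type) [Field E] [Algebra ℚ E] (m : ℤ) : E ⊗[ℚ] ℂ :=
  (1 : E) ⊗ₜ[ℚ] ((2 * Real.pi * Complex.I : ℂ) ^ m)

section tensor

variable {E : Type} [Field E] [Algebra ℚ E]

lemma tpi_add (a b : ℤ) : tpi E (a + b) = tpi E a * tpi E b := by
  rw [tpi, tpi, tpi, Algebra.TensorProduct.tmul_mul_tmul, one_mul,
    zpow_add₀ Complex.two_pi_I_ne_zero]

lemma tpi_zero : tpi E 0 = 1 := by
  rw [tpi, zpow_zero]
  rfl

lemma tpi_inv (a : ℤ) : tpi E a * tpi E (-a) = 1 := by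
  rw [← tpi_add, add_neg_cancel, tpi_zero]

lemma emul (a b : E) : (a ⊗ₜ[ℚ] (1 : ℂ)) * (b ⊗ₜ[ℚ] (1 : ℂ)) = ((a * b) ⊗ₜ[ℚ] (1 : ℂ)) := by
  rw [Algebra.TensorProduct.tmul_mul_tmul, one_mul]

lemma eone : ((1 : E) ⊗ₜ[ℚ] (1 : ℂ)) = 1 := rfl

lemma UnitE.symm {x y : E ⊗[ℚ] ℂ} (h : UnitE x y) : UnitE y x := by
  obtain ⟨e, he, h⟩ := h
  refine ⟨e⁻¹, inv_ne_zero he, ?_⟩
  rw [h, ← mul_assoc, emul, inv_mul_cancel₀ he, eone, one_mul]

lemma UnitE.mul {x y z : E ⊗[ℚ] ℂ} (h : UnitE x y) : UnitE (z * x) (z * y) := by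
  obtain ⟨e, he, h⟩ := h
  exact ⟨e, he, by rw [h]; ring⟩

lemma SimE.trans {x y z : E ⊗[ℚ] ℂ} (h : SimE x y) (h' : UnitE y z) : SimE x z := by
  obtain ⟨a, h⟩ := h
  obtain ⟨b, _, h'⟩ := h'
  exact ⟨a * b, by rw [h, h', ← emul]; ring⟩

end tensor

section

variable {E : Type} [Field E] [Algebra ℚ E] {C : Type u} [Category.{v} C]

/-- The right hand side `(2πi)^{m n^ε} c^ε(M)` of the conjecture, `ε` the sign of `(-1)^m`. -/
noncomputable def DelThy.Om (D : DelThy E C) (m : ℤ) (M : C) : E ⊗[ℚ] ℂ :=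
  tpi E (m * D.n m.negOnePow M) * D.c m.negOnePow M

/-- **Deligne's conjecture** for `M`: if `M` is pure of some weight `w` and has no `(w/2, w/2)`-classes,
then `L(m, M) ∼_E (2πi)^{m n^ε} c^ε(M)` for all critical `m`. -/
def DelThy.Deligne (D : DelThy E C) (M : C) : Prop :=
  D.Adm M → ∀ m : ℤ, D.Crit m M → SimE (D.L m M) (D.Om m M)

/-- The invariants of `A` and `B` agree. -/
structure DelThy.Same (D : DelThy E C) (A B : C) : Prop where
  adm : D.Adm A ↔ D.Adm B
  crit : ∀ m, D.Crit m A ↔ D.Crit m B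
  L : ∀ m, D.L m A = D.L m B
  n : ∀ ε, D.n ε A = D.n ε B
  c : ∀ ε, UnitE (D.c ε A) (D.c ε B)

/-- The invariants of a direct sum. -/
structure DelThy.IsSum (D : DelThy E C) (A B M : C) : Prop where
  adm : D.Adm M → D.Adm A ∧ D.Adm B
  crit : ∀ m, D.Crit m M → D.Crit m A ∧ D.Crit m B
  L : D.Adm M → ∀ m, D.Crit m M → D.L m M = D.L m A * D.L m B
  n : ∀ ε, D.n ε M = D.n ε A + D.n ε B
  c : ∀ ε, UnitE (D.c ε M) (D.c ε A * D.c ε B)

/-- The invariants of `B = A(-1)`: `L(m, A(-1)) = L(m - 1, A)`, `n^ε(A(-1)) = n^{-ε}(A)` and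
`c^ε(A(-1)) (2πi)^{n^{-ε}(A)} = c^{-ε}(A)`. -/
structure DelThy.IsTwist (D : DelThy E C) (A B : C) : Prop where
  adm : D.Adm B ↔ D.Adm A
  crit : ∀ m, D.Crit m B ↔ D.Crit (m - 1) A
  L : ∀ m, D.L m B = D.L (m - 1) A
  n : ∀ ε, D.n ε B = D.n (-ε) A
  c : ∀ ε, UnitE (tpi E (D.n (-ε) A) * D.c ε B) (D.c (-ε) A)

/-- The known properties of motives over `ℚ` with coefficients in `E`.
* `gr`, `pure`, `resolution`: the properties of the graded pieces of `H^i_c` (`IsGrThy`; among them: `C` is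
  semisimple), purity for smooth proper schemes, Hironaka's theorem as a principle of dévissage;
* `twist`: the Tate twist is an equivalence of categories;
* `finite`: every motive is a finite direct sum of simple motives;
* `generated`: every simple motive is, up to a Tate twist, a direct summand of `H^i(X) ⊗ E` for some smooth
  proper `X`;
* `point`: the simple summands of the motive of the point have classes of type `(0, 0)`;
* `iso`, `sum`, `tate`, `zero`: the critical integers, `L`-values and periods of isomorphic motives, of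
  direct sums, of Tate twists and of zero. -/
structure IsDelThy [Abelian C] (D : DelThy E C) : Prop where
  gr : IsGrThy D.toGrThy
  pure : IsPure D.toGrThy
  resolution : Resolution ℚ
  twist : ∃ F : C ≌ C, ∀ A, Nonempty (D.T A ≅ F.functor.obj A)
  finite : ∀ M : C, IsSumOfSimples M
  generated : ∀ P : C, Simple P → ∃ (X : Sch ℚ) (i : ℤ) (n : ℕ), FT True X ∧ IsProper X.hom ∧
    Smooth X.hom ∧ IsSummand (D.T^[n] P) (D.G i i X)
  point : ∀ (i w : ℤ) (P : C), Simple P → IsSummand P (D.G i w (aff ℚ ℚ)) → ¬ D.Adm P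
  iso : ∀ {A B : C}, (A ≅ B) → D.Same A B
  sum : ∀ A B : C, D.IsSum A B (A ⊞ B)
  tate : ∀ A : C, D.IsTwist A (D.T A)
  zero : ∀ Z : C, IsZero Z → ∀ m : ℤ, SimE (D.L m Z) (D.Om m Z)

variable [Abelian C] {D : DelThy E C} (hD : IsDelThy D)

include hD

lemma del_iso {A B : C} (e : A ≅ B) (h : D.Deligne A) : D.Deligne B := by
  obtain ⟨h1, h2, h3, h4, h5⟩ := hD.iso e
  intro hB m hm
  have h6 := h (h1.mpr hB) m ((h2 m).mpr hm)
  rw [← h3 m]
  refine h6.trans ?_
  rw [DelThy.Om, DelThy.Om, h4]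
  exact (h5 _).mul

lemma del_zero (Z : C) (h : IsZero Z) : D.Deligne Z := fun _ m _ => hD.zero Z h m

lemma del_sum (A B : C) (hA : D.Deligne A) (hB : D.Deligne B) : D.Deligne (A ⊞ B) := by
  obtain ⟨h1, h2, h3, h4, h5⟩ := hD.sum A B
  intro hM m hm
  obtain ⟨a, ha⟩ := hA (h1 hM).1 m (h2 m hm).1
  obtain ⟨b, hb⟩ := hB (h1 hM).2 m (h2 m hm).2
  obtain ⟨e, he, hc⟩ := (h5 m.negOnePow).symm
  rw [h3 hM m hm, ha, hb]
  refine ⟨a * b * e, ?_⟩
  rw [DelThy.Om, DelThy.Om, DelThy.Om, h4]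
  have h6 : tpi E (m * ((D.n m.negOnePow A + D.n m.negOnePow B : ℕ) : ℤ)) =
      tpi E (m * D.n m.negOnePow A) * tpi E (m * D.n m.negOnePow B) := by
    rw [← tpi_add]
    congr 1
    push_cast
    ring
  rw [h6, ← emul, ← emul]
  have h7 : D.c m.negOnePow A * D.c m.negOnePow B = (e ⊗ₜ[ℚ] (1 : ℂ)) * D.c m.negOnePow (A ⊞ B) := hc
  linear_combination ((a ⊗ₜ[ℚ] (1 : ℂ)) * (b ⊗ₜ[ℚ] (1 : ℂ)) * tpi E (m * D.n m.negOnePow A) *
    tpi E (m * D.n m.negOnePow B)) * h7

lemma om_twist (m : ℤ) (A : C) : UnitE (D.Om m (D.T A)) (D.Om (m - 1) A) := by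
  obtain ⟨-, -, -, h4, h5⟩ := hD.tate A
  have h6 : (m - 1).negOnePow = -m.negOnePow := by
    rw [Int.negOnePow_sub, Int.negOnePow_one]
    simp
  obtain ⟨e, he, hc⟩ := h5 m.negOnePow
  refine ⟨e, he, ?_⟩
  rw [DelThy.Om, DelThy.Om, h4, h6]
  have h7 : tpi E (m * (D.n (-m.negOnePow) A : ℤ)) =
      tpi E ((m - 1) * D.n (-m.negOnePow) A) * tpi E (D.n (-m.negOnePow) A) := by
    rw [← tpi_add]
    congr 1
    ring
  rw [h7]
  linear_combination (tpi E ((m - 1) * D.n (-m.negOnePow) A)) * hc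

lemma del_twist (A : C) : D.Deligne (D.T A) ↔ D.Deligne A := by
  obtain ⟨h1, h2, h3, -, -⟩ := hD.tate A
  constructor
  · intro h hA m hm
    have h4 := h (h1.mpr hA) (m + 1) ((h2 (m + 1)).mpr (by rwa [add_sub_cancel_right]))
    rw [h3, add_sub_cancel_right] at h4
    have h5 := om_twist hD (m + 1) A
    rw [add_sub_cancel_right] at h5
    exact h4.trans h5
  · intro h hA m hm
    have h4 := h (h1.mp hA) (m - 1) ((h2 m).mp hm)
    rw [h3]
    exact h4.trans (om_twist hD m A).symm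

theorem isAdd_del : IsAdd D.T (AllSimple D.Deligne) :=
  isAdd_allSimple hD.gr.semisimple hD.twist (fun e h => del_iso hD e h) (del_twist hD)

theorem summands_iff (M : C) : AllSummands D.Deligne M ↔ AllSimple D.Deligne M :=
  allSummands_iff (del_zero hD) (fun e h => del_iso hD e h) (del_sum hD) hD.finite M

theorem bnd_del : Bnd True fun X => ∀ i w, AllSimple D.Deligne (D.G i w X) :=
  bnd_gr hD.gr (isAdd_del hD) fun i w P hP hPG hA => absurd hA (hD.point i w P hP hPG)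

lemma simple_iter {P : C} (hP : Simple P) (n : ℕ) : Simple (D.T^[n] P) := by
  obtain ⟨F, hF⟩ := hD.twist
  induction n with
  | zero => exact hP
  | succ n ih =>
    rw [Function.iterate_succ_apply']
    obtain ⟨e⟩ := hF (D.T^[n] P)
    exact simple_iso e.symm (simple_map F ih)

lemma del_iter (A : C) (n : ℕ) : D.Deligne (D.T^[n] A) ↔ D.Deligne A := by
  induction n with
  | zero => rfl
  | succ n ih => rw [Function.iterate_succ_apply', del_twist hD, ih]

/-- Deligne's conjecture for all motives and for the simple motives. -/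
theorem all_iff : (∀ M, D.Deligne M) ↔ ∀ P : C, Simple P → D.Deligne P :=
  ⟨fun h P _ => h P, fun h M => of_simples (del_zero hD) (fun e h => del_iso hD e h)
    (del_sum hD) h (hD.finite M)⟩

end

end Pool.Agent.Helper11U
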