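import Mathlib

/-!
# Affine varieties over the complex numbers, their rational cohomology rings and mixed Hodge structures

An affine scheme of finite type over `ℂ` is given by its ring `B` of regular functions, a commutative
algebra of finite type over `ℂ`.
-/

set_option autoImplicit false

open TensorProduct

namespace Pool.Agent.Helper11U.Ell

/-! ### Spaces -/

/-- The space of complex points of `Spec B`. -/
def An (B : Type) [CommRing B] [Algebra ℂ B] : Type := B →ₐ[ℂ] ℂ

/-- The value of the function `b` at the point `z`. -/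
def An.val {B : Type} [CommRing B] [Algebra ℂ B] (z : An B) (b : B) : ℂ :=
  DFunLike.coe (F := B →ₐ[ℂ] ℂ) z b

/-- The analytic topology: the coarsest topology such that all functions `b ∈ B` are continuous. (If `B` is
generated by `b_1, …, b_n`, then `An B` is a closed subspace of `ℂ^n`.) -/
noncomputable instance {B : Type} [CommRing B] [Algebra ℂ B] : TopologicalSpace (An B) :=
  TopologicalSpace.induced (fun z b => z.val b) inferInstance

/-- The singular homology `H_k(X, ℚ)`. -/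
noncomputable abbrev Hom (k : ℕ) (X : Type) [TopologicalSpace X] : ModuleCat.{0} ℚ :=
  ((AlgebraicTopology.singularHomologyFunctor (ModuleCat.{0} ℚ) k).obj (ModuleCat.of ℚ ℚ)).obj
    (TopCat.of X)

/-- The rational homotopy group `π_{k+2}(X, x) ⊗ ℚ`. -/
abbrev RatPi (k : ℕ) (X : Type) [TopologicalSpace X] (x : X) : Type :=
  ℚ ⊗[ℤ] Additive (HomotopyGroup.Pi (k + 2) X x)

/-- Rationally elliptic spaces: `X` is simply connected, and the sums of the dimensions of the `H_k(X, ℚ)`
(equivalently: of the `H^k(X, ℚ)`) and of the `π_k(X) ⊗ ℚ` are finite. -/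
structure RationallyElliptic (X : Type) [TopologicalSpace X] : Prop where
  simply : SimplyConnectedSpace X
  homology : (∀ k, Module.Finite ℚ (Hom k X)) ∧ ∃ N, ∀ k ≥ N, Subsingleton (Hom k X)
  homotopy : ∀ x : X, (∀ k, Module.Finite ℚ (RatPi k X x)) ∧
    ∃ N, ∀ k ≥ N, Subsingleton (RatPi k X x)

/-! ### Varieties -/

/-- The ring of functions of the affine hypersurface `z_0 ^ a_0 + ⋯ + z_n ^ a_n = 1`. -/
def Pham {n : ℕ} (a : Fin (n + 1) → ℕ) : Type :=
  MvPolynomial (Fin (n + 1)) ℂ ⧸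
    Ideal.span {((∑ i, MvPolynomial.X i ^ a i) - 1 : MvPolynomial (Fin (n + 1)) ℂ)}

noncomputable instance {n : ℕ} (a : Fin (n + 1) → ℕ) : CommRing (Pham a) := Ideal.Quotient.commRing _

noncomputable instance {n : ℕ} (a : Fin (n + 1) → ℕ) : Algebra ℂ (Pham a) :=
  Ideal.instAlgebraQuotient _ _

section

variable (B C : Type) [CommRing B] [Algebra ℂ B] [CommRing C] [Algebra ℂ C]

/-- The ring of functions of the product `Spec B × Spec C`. -/
def Prd : Type := B ⊗[ℂ] C

noncomputable instance : CommRing (Prd B C) := Algebra.TensorProduct.instCommRing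

noncomputable instance : Algebra ℂ (Prd B C) := Algebra.TensorProduct.leftAlgebra

/-- The first projection `Spec B × Spec C → Spec B`. -/
noncomputable def fst : B →ₐ[ℂ] Prd B C := Algebra.TensorProduct.includeLeft

/-- The second projection `Spec B × Spec C → Spec C`. -/
noncomputable def snd : C →ₐ[ℂ] Prd B C := Algebra.TensorProduct.includeRight

/-- The exchange of the two factors of `Spec B × Spec B`. -/
noncomputable def swap : Prd B B ≃ₐ[ℂ] Prd B B := Algebra.TensorProduct.comm ℂ B B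

variable {C}

/-- The functions which are invariant under the automorphism `σ`. -/
def Inv (σ : C ≃ₐ[ℂ] C) : Subalgebra ℂ C where
  carrier := {c | σ c = c}
  mul_mem' {a b} (ha : σ a = a) (hb : σ b = b) := show σ (a * b) = a * b by rw [map_mul, ha, hb]
  add_mem' {a b} (ha : σ a = a) (hb : σ b = b) := show σ (a + b) = a + b by rw [map_add, ha, hb]
  algebraMap_mem' r := σ.commutes r

/-- The ring of functions of the quotient variety `(Spec C) / σ`, for an automorphism `σ` of finite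
order. -/
def Quo (σ : C ≃ₐ[ℂ] C) : Type := Inv σ

noncomputable instance (σ : C ≃ₐ[ℂ] C) : CommRing (Quo σ) := (Inv σ).toCommRing

noncomputable instance (σ : C ≃ₐ[ℂ] C) : Algebra ℂ (Quo σ) := (Inv σ).algebra

/-- The morphism `Spec C → (Spec C) / σ`. -/
def proj (σ : C ≃ₐ[ℂ] C) : Quo σ →ₐ[ℂ] C := (Inv σ).val

/-- The ring of functions of the symmetric square of `Spec B`. -/
abbrev SymSq : Type := Quo (swap B)

end

/-! ### Cohomology -/

/-- For the affine variety `X = Spec B`:
* `H B` is the rational singular cohomology ring `H^*(X(ℂ), ℚ)`, a functor in `B`;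
* `deg B k` is the part of degree `k`, that is `H^k(X(ℂ), ℚ)`. -/
structure CohThy where
  H : ∀ (B : Type) [CommRing B] [Algebra ℂ B], Type
  [ring : ∀ (B : Type) [CommRing B] [Algebra ℂ B], Ring (H B)]
  [alg : ∀ (B : Type) [CommRing B] [Algebra ℂ B], Algebra ℚ (H B)]
  map : ∀ {B C : Type} [CommRing B] [Algebra ℂ B] [CommRing C] [Algebra ℂ C],
    (B →ₐ[ℂ] C) → (H B →ₐ[ℚ] H C)
  map_id : ∀ (B : Type) [CommRing B] [Algebra ℂ B] (a : H B), map (AlgHom.id ℂ B) a = a
  map_comp : ∀ {B C E : Type} [CommRing B] [Algebra ℂ B] [CommRing C] [Algebra ℂ C] [CommRing E]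
    [Algebra ℂ E] (f : B →ₐ[ℂ] C) (g : C →ₐ[ℂ] E) (a : H B), map (g.comp f) a = map g (map f a)
  deg : ∀ (B : Type) [CommRing B] [Algebra ℂ B], ℕ → Submodule ℚ (H B)

attribute [instance] CohThy.ring CohThy.alg

/-- The complex cohomology `H^k(X(ℂ), ℂ) = ℂ ⊗ H^k(X(ℂ), ℚ)`. -/
def CohThy.HC (D : CohThy) (B : Type) [CommRing B] [Algebra ℂ B] (k : ℕ) : Type :=
  ℂ ⊗[ℚ] D.deg B k

noncomputable instance (D : CohThy) (B : Type) [CommRing B] [Algebra ℂ B] (k : ℕ) :
    AddCommGroup (D.HC B k) := TensorProduct.addCommGroup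

noncomputable instance (D : CohThy) (B : Type) [CommRing B] [Algebra ℂ B] (k : ℕ) :
    Module ℂ (D.HC B k) := TensorProduct.leftModule

/-- The cohomology together with the (complexified) weight filtration `W` and the Hodge filtration `F` of
Deligne on `H^k(X(ℂ), ℂ)`. -/
structure HodgeThy extends CohThy where
  W : ∀ (B : Type) [CommRing B] [Algebra ℂ B] (k : ℕ), ℤ → Submodule ℂ (toCohThy.HC B k)
  F : ∀ (B : Type) [CommRing B] [Algebra ℂ B] (k : ℕ), ℤ → Submodule ℂ (toCohThy.HC B k)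

/-- The dimension of `Gr_F^p Gr^W_{p+q} V`, that is, of `F^p ∩ W_{p+q}` modulo
`F^{p+1} ∩ W_{p+q} + F^p ∩ W_{p+q-1}`. -/
noncomputable def grDim {V : Type} [AddCommGroup V] [Module ℂ V] (W F : ℤ → Submodule ℂ V)
    (p q : ℤ) : ℕ :=
  Module.finrank ℂ ↥(F p ⊓ W (p + q)) -
    Module.finrank ℂ ↥((F (p + 1) ⊓ W (p + q)) ⊔ (F p ⊓ W (p + q - 1)))

/-- The mixed Hodge number `h^{k,p,q} = dim Gr_F^p Gr^W_{p+q} H^k(X(ℂ), ℂ)`. -/
noncomputable def HodgeThy.h (D : HodgeThy) (B : Type) [CommRing B] [Algebra ℂ B] (k : ℕ)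
    (p q : ℤ) : ℕ := grDim (D.W B k) (D.F B k) p q

/-! ### The known facts -/

/-- `H^k(X, ℚ)` is the dual space of `H_k(X, ℚ)`, which has finite dimension. -/
def Duality (D : CohThy) : Prop :=
  ∀ (B : Type) [CommRing B] [Algebra ℂ B], Algebra.FiniteType ℂ B → ∀ k,
    Module.Finite ℚ (Hom k (An B)) ∧ Nonempty (D.deg B k ≃ₗ[ℚ] Module.Dual ℚ (Hom k (An B)))

/-- `H^*(X, ℚ)` is the direct sum of the `H^k(X, ℚ)`, and it is graded commutative. -/
structure Graded (D : CohThy) : Prop where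
  internal : ∀ (B : Type) [CommRing B] [Algebra ℂ B], DirectSum.IsInternal (D.deg B)
  one : ∀ (B : Type) [CommRing B] [Algebra ℂ B], (1 : D.H B) ∈ D.deg B 0
  mul : ∀ (B : Type) [CommRing B] [Algebra ℂ B] (i j : ℕ) (a b : D.H B), a ∈ D.deg B i →
    b ∈ D.deg B j → a * b ∈ D.deg B (i + j)
  comm : ∀ (B : Type) [CommRing B] [Algebra ℂ B] (i j : ℕ) (a b : D.H B), a ∈ D.deg B i →
    b ∈ D.deg B j → b * a = (-1) ^ (i * j) * (a * b)

/-- The maps respect the degrees, and the cohomology of a point vanishes in positive degrees. -/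
structure Natural (D : CohThy) : Prop where
  map : ∀ (B C : Type) [CommRing B] [Algebra ℂ B] [CommRing C] [Algebra ℂ C] (f : B →ₐ[ℂ] C) (k : ℕ)
    (a : D.H B), a ∈ D.deg B k → D.map f a ∈ D.deg C k
  point : ∀ k : ℕ, k ≠ 0 → D.deg ℂ k = ⊥

/-- The cross product `pr_1^* a · pr_2^* c` in `H^*(X × Y, ℚ)`. -/
noncomputable def CohThy.cross (D : CohThy) {B C : Type} [CommRing B] [Algebra ℂ B] [CommRing C]
    [Algebra ℂ C] (a : D.H B) (c : D.H C) : D.H (Prd B C) := D.map (fst B C) a * D.map (snd B C) c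

/-- The Künneth formula: if `b_i` is a basis of `H^*(X, ℚ)` and `c_j` is a basis of `H^*(Y, ℚ)` then the
cross products of the `b_i` and `c_j` form a basis of `H^*(X × Y, ℚ)`. -/
def Kunneth (D : CohThy) : Prop :=
  ∀ (B C : Type) [CommRing B] [Algebra ℂ B] [CommRing C] [Algebra ℂ C],
    Algebra.FiniteType ℂ B → Algebra.FiniteType ℂ C → ∀ (I J : Type) (b : Module.Basis I ℚ (D.H B))
      (c : Module.Basis J ℚ (D.H C)), ∃ e : Module.Basis (I × J) ℚ (D.H (Prd B C)),
        ∀ i j, e (i, j) = D.cross (b i) (c j)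

/-- The rational cohomology of the quotient by an involution `σ` (transfer): `H^k(X/σ, ℚ)` is the space of
the `σ`-invariant elements of `H^k(X, ℚ)`. -/
def Transfer (D : CohThy) : Prop :=
  ∀ (C : Type) [CommRing C] [Algebra ℂ C], Algebra.FiniteType ℂ C →
    ∀ σ : C ≃ₐ[ℂ] C, (∀ c, σ (σ c) = c) → Function.Injective (D.map (proj σ)) ∧
      ∀ (k : ℕ) (a : D.H C), a ∈ D.deg C k → D.map σ.toAlgHom a = a →
        ∃ b ∈ D.deg (Quo σ) k, D.map (proj σ) b = a

/-- The quotient of a simply connected variety by an involution with a fixed point is simply connected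
(Armstrong). -/
def Armstrong : Prop :=
  ∀ (C : Type) [CommRing C] [Algebra ℂ C], Algebra.FiniteType ℂ C →
    ∀ σ : C ≃ₐ[ℂ] C, (∀ c, σ (σ c) = c) → SimplyConnectedSpace (An C) →
      (∃ z : An C, ∀ c, z.val (σ c) = z.val c) → SimplyConnectedSpace (An (Quo σ))

/-- The product of the `x_i` with `i ∈ s`, in increasing order. -/
def mono {R : Type} [Ring R] {r : ℕ} (x : Fin r → R) (s : Finset (Fin r)) : R :=
  (((List.finRange r).filter (· ∈ s)).map x).prod

/-- If `X` is simply connected and `H^*(X, ℚ)` is the exterior algebra generated by elements `x_1, …, x_r` of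
odd degrees `d_1, …, d_r` (that is, the products `x_{i_1} ⋯ x_{i_s}` for `i_1 < ⋯ < i_s` form a basis), then
`π_k(X) ⊗ ℚ` has dimension `#{i | d_i = k}` (Serre, Sullivan). -/
def OddGenerators (D : CohThy) : Prop :=
  ∀ (C : Type) [CommRing C] [Algebra ℂ C], Algebra.FiniteType ℂ C →
    SimplyConnectedSpace (An C) → ∀ (r : ℕ) (d : Fin r → ℕ) (x : Fin r → D.H C),
      (∀ i, Odd (d i) ∧ x i ∈ D.deg C (d i)) → LinearIndependent ℚ (mono x) →
        Submodule.span ℚ (Set.range (mono x)) = ⊤ → ∀ (k : ℕ) (z : An C),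
          Module.Finite ℚ (RatPi k (An C) z) ∧
            Module.finrank ℚ (RatPi k (An C) z) = Nat.card {i // d i = k + 2}

/-- The hypersurface `z_0 ^ a_0 + ⋯ + z_n ^ a_n = 1` is homotopy equivalent to a bouquet of `∏ (a_i - 1)` spheres
of dimension `n` (Pham, Milnor); so for `n ≥ 2` it is simply connected, and the Betti numbers are
`b_0 = 1`, `b_n = ∏ (a_i - 1)` and `0` in all other degrees. -/
def PhamMilnor (D : CohThy) : Prop :=
  ∀ (n : ℕ) (a : Fin (n + 1) → ℕ), 2 ≤ n → (∀ i, 2 ≤ a i) →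
    SimplyConnectedSpace (An (Pham a)) ∧ ∀ k : ℕ, Module.finrank ℚ (D.deg (Pham a) k) =
      if k = 0 then 1 else if k = n then ∏ i, (a i - 1) else 0

/-- The functors `Gr_F^p Gr^W_m` are exact: if a morphism `Y → X` induces a surjective map
`H^k(X) → H^k(Y)`, then the mixed Hodge numbers of `Y` in degree `k` are at most those of `X`
(Deligne). -/
def Strictness (D : HodgeThy) : Prop :=
  ∀ (B C : Type) [CommRing B] [Algebra ℂ B] [CommRing C] [Algebra ℂ C],
    Algebra.FiniteType ℂ B → Algebra.FiniteType ℂ C → ∀ (f : B →ₐ[ℂ] C) (k : ℕ),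
      (∀ c ∈ D.deg C k, ∃ b ∈ D.deg B k, D.map f b = c) → ∀ p q : ℤ, D.h C k p q ≤ D.h B k p q

/-- The number of all `(j_0, …, j_n)` with `0 < j_i < a_i` and `s < ∑ j_i / a_i < s + 1`. -/
noncomputable def spec {n : ℕ} (a : Fin (n + 1) → ℕ) (s : ℤ) : ℕ :=
  Nat.card {j : ∀ i, Fin (a i) // (∀ i, 0 < (j i : ℕ)) ∧
    (s : ℚ) < ∑ i, ((j i : ℕ) : ℚ) / a i ∧ ∑ i, ((j i : ℕ) : ℚ) / a i < s + 1}

/-- The Hodge numbers of weight `n` of the hypersurface `z_0 ^ a_0 + ⋯ + z_n ^ a_n = 1`, `n ≥ 1`: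
`h^{n,p,n-p}` is the number of all `(j_0, …, j_n)`, `0 < j_i < a_i`, with
`n - p < ∑ j_i / a_i < n - p + 1` (Griffiths, Steenbrink). -/
def Spectrum (D : HodgeThy) : Prop :=
  ∀ (n : ℕ) (a : Fin (n + 1) → ℕ), 1 ≤ n → (∀ i, 2 ≤ a i) → ∀ p : ℤ,
    D.h (Pham a) n p (n - p) = spec a (n - p)

/-- The known facts. -/
structure IsHodgeThy (D : HodgeThy) : Prop where
  dual : Duality D.toCohThy
  graded : Graded D.toCohThy
  natural : Natural D.toCohThy
  kunneth : Kunneth D.toCohThy
  transfer : Transfer D.toCohThy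
  armstrong : Armstrong
  serre : OddGenerators D.toCohThy
  pham : PhamMilnor D.toCohThy
  deligne : Strictness D
  steenbrink : Spectrum D

end Pool.Agent.Helper11U.Ell
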