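import Pool.Agent.Helper11U.EllTop

/-!
# Quotients by involutions
-/

set_option autoImplicit false

open CategoryTheory TensorProduct

namespace Pool.Agent.Helper11U.Ell

variable {D : HodgeThy} {B C E : Type} [CommRing B] [Algebra ℂ B] [CommRing C] [Algebra ℂ C]
  [CommRing E] [Algebra ℂ E]

lemma map_comp (f : B →ₐ[ℂ] C) (g : C →ₐ[ℂ] E) (a : D.H B) :
    D.map (g.comp f) a = D.map g (D.map f a) := D.map_comp f g a

lemma map_id (a : D.H B) : D.map (AlgHom.id ℂ B) a = a := D.map_id B a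

lemma mem_inv (σ : C ≃ₐ[ℂ] C) (t : C) : t ∈ Inv σ ↔ σ t = t := Iff.rfl

lemma inv_finiteType (hC : Algebra.FiniteType ℂ C) (σ : C ≃ₐ[ℂ] C) (h : ∀ c, σ (σ c) = c) :
    Algebra.FiniteType ℂ (Inv σ) := by
  have h1 : Algebra.IsIntegral (Inv σ) C := by
    refine ⟨fun t => ?_⟩
    have hs : t + σ t ∈ Inv σ := by
      rw [mem_inv, map_add, h, add_comm]
    have hp : t * σ t ∈ Inv σ := by
      rw [mem_inv, map_mul, h, mul_comm]
    refine ⟨Polynomial.X ^ 2 + (Polynomial.C ⟨_, hp⟩ - Polynomial.C ⟨_, hs⟩ * Polynomial.X), ?_, ?_⟩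
    · refine Polynomial.monic_X_pow_add ?_
      refine lt_of_le_of_lt (Polynomial.degree_sub_le _ _) (max_lt ?_ ?_)
      · exact lt_of_le_of_lt Polynomial.degree_C_le (by exact_mod_cast (by norm_num : (0 : ℕ) < 2))
      · exact lt_of_le_of_lt (Polynomial.degree_C_mul_X_le _)
          (by exact_mod_cast (by norm_num : (1 : ℕ) < 2))
    · simp only [Polynomial.eval₂_add, Polynomial.eval₂_sub, Polynomial.eval₂_pow,
        Polynomial.eval₂_mul, Polynomial.eval₂_X, Polynomial.eval₂_C]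
      change t ^ 2 + (t * σ t - (t + σ t) * t) = 0
      ring
  have h2 : Algebra.FiniteType (Inv σ) C :=
    Algebra.FiniteType.of_restrictScalars_finiteType ℂ (Inv σ) C
  have h3 : Module.Finite (Inv σ) C := Algebra.IsIntegral.finite
  exact ⟨fg_of_fg_of_fg ℂ (Inv σ) C hC.out h3.1 Subtype.val_injective⟩

lemma quo_finiteType (hC : Algebra.FiniteType ℂ C) (σ : C ≃ₐ[ℂ] C) (h : ∀ c, σ (σ c) = c) :
    Algebra.FiniteType ℂ (Quo σ) := inv_finiteType hC σ h

/-- the symmetric square is of finite type -/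
theorem sym2_finiteType (hB : Algebra.FiniteType ℂ B) : Algebra.FiniteType ℂ (SymSq B) :=
  quo_finiteType (prd_finiteType hB hB) (swap B) swap_swap

end Pool.Agent.Helper11U.Ell
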