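import Pool.Agent.Helper11U.EllAlg

/-!
# The cohomology of the symmetric square
-/

set_option autoImplicit false

open CategoryTheory TensorProduct

namespace Pool.Agent.Helper11U.Ell

variable {D : HodgeThy} (hD : IsHodgeThy D) {B : Type} [CommRing B] [Algebra ℂ B]

include hD

lemma deg_finite (hB : Algebra.FiniteType ℂ B) (k : ℕ) : Module.Finite ℚ (D.deg B k) := by
  obtain ⟨h1, ⟨e⟩⟩ := hD.dual B hB k
  exact Module.Finite.equiv e.symm

omit hD in
lemma sign_smul {R : Type} [Ring R] [Algebra ℚ R] (m : ℕ) (z : R) :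
    (-1) ^ m * z = ((-1 : ℚ) ^ m) • z := by
  rw [Algebra.smul_def, map_pow, map_neg, map_one]

/-- The cohomology ring of a variety with Betti numbers `1` (degree `0`) and `2` (degree `n`). -/
theorem exists_basis (hB : Algebra.FiniteType ℂ B) {n : ℕ} (hn : n ≠ 0)
    (hf : ∀ k, Module.finrank ℚ (D.deg B k) = if k = 0 then 1 else if k = n then 2 else 0) :
    ∃ (b : Module.Basis (Fin 3) ℚ (D.H B)), b 0 = 1 ∧ b 1 ∈ D.deg B n ∧ b 2 ∈ D.deg B n ∧
      ∀ c ∈ D.deg B n, ∃ s t : ℚ, c = s • b 1 + t • b 2 := by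
  have hfin := deg_finite hD hB
  have h2 : Module.finrank ℚ (D.deg B n) = 2 := by rw [hf, if_neg hn, if_pos rfl]
  have h1 : Module.finrank ℚ (D.deg B 0) = 1 := by rw [hf, if_pos rfl]
  have hbot : ∀ k, k ≠ 0 → k ≠ n → D.deg B k = ⊥ := by
    intro k hk hk'
    have h3 : Module.finrank ℚ (D.deg B k) = 0 := by rw [hf, if_neg hk, if_neg hk']
    exact Submodule.finrank_eq_zero.mp h3
  have v : Module.Basis (Fin 2) ℚ (D.deg B n) := Module.finBasisOfFinrankEq ℚ _ h2
  have hne : (⟨1, hD.graded.one B⟩ : D.deg B 0) ≠ 0 := by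
    intro h
    have h3 : (1 : D.H B) = 0 := congrArg Subtype.val h
    have h4 : Subsingleton (D.deg B 0) := by
      refine ⟨fun a b => Subtype.ext ?_⟩
      rw [← mul_one a.1, ← mul_one b.1, h3, mul_zero, mul_zero]
    rw [Module.finrank_zero_of_subsingleton] at h1
    exact absurd h1 (by norm_num)
  have hdisj : Disjoint (D.deg B 0) (D.deg B n) :=
    (hD.graded.internal B).submodule_iSupIndep.pairwiseDisjoint (Ne.symm hn)
  let e : Fin 3 → D.H B := ![1, (v 0 : D.H B), (v 1 : D.H B)]
  have hspan_n : ∀ c ∈ D.deg B n, ∃ s t : ℚ, c = s • (v 0 : D.H B) + t • (v 1 : D.H B) := by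
    intro c hc
    refine ⟨v.repr ⟨c, hc⟩ 0, v.repr ⟨c, hc⟩ 1, ?_⟩
    have h3 := v.sum_repr ⟨c, hc⟩
    rw [Fin.sum_univ_two] at h3
    exact (congrArg Subtype.val h3).symm
  have hli : LinearIndependent ℚ e := by
    rw [Fintype.linearIndependent_iff]
    intro g hg
    rw [Fin.sum_univ_three] at hg
    change g 0 • (1 : D.H B) + g 1 • (v 0 : D.H B) + g 2 • (v 1 : D.H B) = 0 at hg
    have h3 : g 0 • (1 : D.H B) = 0 := by
      have h4 : g 0 • (1 : D.H B) ∈ D.deg B n := by
        have h5 : g 0 • (1 : D.H B) = -(g 1 • (v 0 : D.H B) + g 2 • (v 1 : D.H B)) := by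
          rw [eq_neg_iff_add_eq_zero, ← add_assoc]
          exact hg
        rw [h5]
        exact neg_mem (add_mem (Submodule.smul_mem _ _ (v 0).2) (Submodule.smul_mem _ _ (v 1).2))
      exact (Submodule.disjoint_def.mp hdisj) _ (Submodule.smul_mem _ _ (hD.graded.one B)) h4
    have h0 : g 0 = 0 := by
      by_contra hc
      apply hne
      apply Subtype.ext
      rcases smul_eq_zero.mp h3 with h4 | h4
      · exact absurd h4 hc
      · exact h4
    rw [h3, zero_add] at hg
    have h4 : g 1 • v 0 + g 2 • v 1 = 0 := Subtype.ext hg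
    have h5 := Fintype.linearIndependent_iff.mp v.linearIndependent ![g 1, g 2] (by
      rw [Fin.sum_univ_two]
      exact h4)
    intro i
    fin_cases i
    · exact h0
    · exact h5 0
    · exact h5 1
  have hsp : ⊤ ≤ Submodule.span ℚ (Set.range e) := by
    rw [← (hD.graded.internal B).submodule_iSup_eq_top]
    refine iSup_le fun k => ?_
    by_cases hk : k = 0
    · subst hk
      intro c hc
      obtain ⟨s, hs⟩ := (finrank_eq_one_iff_of_nonzero' _ hne).mp h1 ⟨c, hc⟩
      have h3 : s • (1 : D.H B) = c := congrArg Subtype.val hs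
      rw [← h3]
      exact Submodule.smul_mem _ _ (Submodule.subset_span ⟨0, rfl⟩)
    · by_cases hk' : k = n
      · subst hk'
        intro c hc
        obtain ⟨s, t, rfl⟩ := hspan_n c hc
        exact add_mem (Submodule.smul_mem _ _ (Submodule.subset_span ⟨1, rfl⟩))
          (Submodule.smul_mem _ _ (Submodule.subset_span ⟨2, rfl⟩))
      · change D.deg B k ≤ _
        rw [hbot k hk hk']
        exact bot_le
  refine ⟨Module.Basis.mk hli hsp, ?_, ?_, ?_, ?_⟩
  · rw [Module.Basis.mk_apply]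
    rfl
  · rw [Module.Basis.mk_apply]
    exact (v 0).2
  · rw [Module.Basis.mk_apply]
    exact (v 1).2
  · intro c hc
    rw [Module.Basis.mk_apply, Module.Basis.mk_apply]
    exact hspan_n c hc

end Pool.Agent.Helper11U.Ell
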