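import Pool.Agent.Helper11U.EllAlg

/-!
# Integral domains

The lemmas `exists_point` and `isDomain_tensor` are copied from the starting file
`Pool.Agent.H920R2.Cu10`.
-/

set_option autoImplicit false

open CategoryTheory TensorProduct

namespace Pool.Agent.Helper11U.Ell

section copy

universe u

variable {k : Type u} [Field k] [IsAlgClosed k]

/-- The points of an affine variety over an algebraically closed field are dense. -/
lemma exists_point {A : Type u} [CommRing A] [IsDomain A] [Algebra k A]
    [Algebra.FiniteType k A] {c : A} (hc : c ≠ 0) : ∃ φ : A →ₐ[k] k, φ c ≠ 0 := by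
  let D := Localization.Away c
  have hnt : Nontrivial D := by
    have : IsDomain D := IsLocalization.isDomain_localization
      (powers_le_nonZeroDivisors_of_noZeroDivisors hc)
    infer_instance
  have hftD : Algebra.FiniteType k D := by
    have h1 : Algebra.FiniteType A D :=
      IsLocalization.finiteType_of_monoid_fg (Submonoid.powers c) D
    exact Algebra.FiniteType.trans inferInstance h1
  obtain ⟨M, hM⟩ := Ideal.exists_maximal D
  let _ : Field (D ⧸ M) := Ideal.Quotient.field M
  have hfin : Module.Finite k (D ⧸ M) := finite_of_finite_type_of_isJacobsonRing k (D ⧸ M)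
  have hbij : Function.Bijective (algebraMap k (D ⧸ M)) :=
    IsAlgClosed.algebraMap_bijective_of_isIntegral
  let e : k ≃ₐ[k] (D ⧸ M) := AlgEquiv.ofBijective (Algebra.ofId k (D ⧸ M)) hbij
  let φ : A →ₐ[k] k := (e.symm : (D ⧸ M) →ₐ[k] k).comp
    ((Ideal.Quotient.mkₐ k M).comp (IsScalarTower.toAlgHom k A D))
  refine ⟨φ, ?_⟩
  have hu : IsUnit (algebraMap A D c) :=
    IsLocalization.map_units D (⟨c, Submonoid.mem_powers c⟩ : Submonoid.powers c)
  have h1 : IsUnit (φ c) := hu.map ((e.symm : (D ⧸ M) →ₐ[k] k).comp (Ideal.Quotient.mkₐ k M))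
  exact h1.ne_zero

/-- The product of two affine varieties over an algebraically closed field is integral. -/
theorem isDomain_tensor {A A' : Type u} [CommRing A] [IsDomain A] [Algebra k A]
    [Algebra.FiniteType k A] [CommRing A'] [IsDomain A'] [Algebra k A'] :
    IsDomain (A ⊗[k] A') := by
  classical
  let b := Module.Basis.ofVectorSpace k A'
  let bA := Algebra.TensorProduct.basis A b
  have hnt : Nontrivial (A ⊗[k] A') := by
    obtain ⟨φ, -⟩ := exists_point (k := k) (one_ne_zero (α := A))
    let e : A ⊗[k] A' →ₐ[k] A' := Algebra.TensorProduct.lift ((Algebra.ofId k A').comp φ)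
      (AlgHom.id k A') (fun _ _ => Commute.all _ _)
    exact e.toRingHom.domain_nontrivial
  have hnz : NoZeroDivisors (A ⊗[k] A') := by
    constructor
    intro x y hxy
    by_contra hcon
    push Not at hcon
    obtain ⟨hx, hy⟩ := hcon
    obtain ⟨i, hi⟩ : ∃ i, bA.repr x i ≠ 0 := by
      by_contra h
      push Not at h
      apply hx
      apply bA.repr.injective
      rw [map_zero]
      ext i
      exact h i
    obtain ⟨l, hl⟩ : ∃ i, bA.repr y i ≠ 0 := by
      by_contra h
      push Not at h
      apply hy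
      apply bA.repr.injective
      rw [map_zero]
      ext i
      exact h i
    obtain ⟨φ, hφ⟩ := exists_point (k := k) (mul_ne_zero hi hl)
    rw [map_mul] at hφ
    let e : A ⊗[k] A' →ₐ[k] A' := Algebra.TensorProduct.lift ((Algebra.ofId k A').comp φ)
      (AlgHom.id k A') (fun _ _ => Commute.all _ _)
    have he : ∀ z i, b.repr (e z) i = φ (bA.repr z i) := by
      intro z i
      induction z using TensorProduct.induction_on with
      | zero => simp
      | tmul a a' =>
        rw [Algebra.TensorProduct.basis_repr_tmul]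
        have h1 : e (a ⊗ₜ a') = φ a • a' := by
          rw [Algebra.TensorProduct.lift_tmul, Algebra.smul_def]
          rfl
        rw [h1, map_smul, Finsupp.smul_apply, Finsupp.smul_apply, Finsupp.mapRange_apply,
          smul_eq_mul, smul_eq_mul, map_mul, AlgHom.commutes]
        rfl
      | add z z' hz hz' =>
        rw [map_add, map_add, map_add, Finsupp.add_apply, Finsupp.add_apply, map_add, hz, hz']
    have h1 : e x * e y = 0 := by rw [← map_mul, hxy, map_zero]
    rcases mul_eq_zero.1 h1 with h2 | h2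
    · apply hφ
      rw [← he x i, h2, map_zero, Finsupp.zero_apply, zero_mul]
    · apply hφ
      rw [← he y l, h2, map_zero, Finsupp.zero_apply, mul_zero]
  exact NoZeroDivisors.to_isDomain _

end copy

/-- The equation of the threefold `x² + y² + z² + t³ = 1`. -/
noncomputable def eqn : MvPolynomial (Fin 4) ℂ :=
  (∑ i, MvPolynomial.X i ^ (![2, 2, 2, 3] : Fin 4 → ℕ) i) - 1

open Polynomial in
lemma not_square (r : ℂ[X]) : r ^ 2 + (X ^ 3 - 1) ≠ 0 := by
  intro h
  have h1 : r ^ 2 = -(X ^ 3 - C 1) := by
    rw [map_one]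
    exact eq_neg_of_add_eq_zero_left h
  have h2 := congrArg natDegree h1
  rw [natDegree_neg, natDegree_X_pow_sub_C, natDegree_pow] at h2
  omega

lemma eqn_prime : Prime eqn := by
  let e := MvPolynomial.finSuccEquiv ℂ 3
  let g : MvPolynomial (Fin 3) ℂ :=
    MvPolynomial.X 0 ^ 2 + MvPolynomial.X 1 ^ 2 + MvPolynomial.X 2 ^ 3 - 1
  have he : e eqn = Polynomial.X ^ 2 + Polynomial.C g := by
    have h0 : e (MvPolynomial.X 0) = Polynomial.X := MvPolynomial.finSuccEquiv_X_zero
    have h1 : e (MvPolynomial.X 1) = Polynomial.C (MvPolynomial.X 0) :=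
      MvPolynomial.finSuccEquiv_X_succ (j := 0)
    have h2 : e (MvPolynomial.X 2) = Polynomial.C (MvPolynomial.X 1) :=
      MvPolynomial.finSuccEquiv_X_succ (j := 1)
    have h3 : e (MvPolynomial.X 3) = Polynomial.C (MvPolynomial.X 2) :=
      MvPolynomial.finSuccEquiv_X_succ (j := 2)
    have h4 : eqn = MvPolynomial.X 0 ^ 2 + MvPolynomial.X 1 ^ 2 + MvPolynomial.X 2 ^ 2 +
        MvPolynomial.X 3 ^ 3 - 1 := by
      rw [eqn, Fin.sum_univ_four]
      rfl
    rw [h4, map_sub, map_add, map_add, map_add, map_pow, map_pow, map_pow, map_pow, h0, h1, h2, h3,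
      map_one]
    change _ = Polynomial.X ^ 2 + Polynomial.C (_ + _ + _ - 1)
    rw [map_sub, map_add, map_add, map_pow, map_pow, map_pow, map_one]
    ring
  have hmon : (Polynomial.X ^ 2 + Polynomial.C g).Monic := Polynomial.monic_X_pow_add_C g (by norm_num)
  have hdeg : (Polynomial.X ^ 2 + Polynomial.C g).natDegree = 2 :=
    Polynomial.natDegree_X_pow_add_C
  have hirr : Irreducible (Polynomial.X ^ 2 + Polynomial.C g) := by
    rw [hmon.irreducible_iff_roots_eq_zero_of_degree_le_three (by rw [hdeg]) (by rw [hdeg]; norm_num)]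
    rw [Multiset.eq_zero_iff_forall_notMem]
    intro r hr
    have h1 : r ^ 2 + g = 0 := by
      have := (Polynomial.mem_roots'.mp hr).2
      simpa [Polynomial.IsRoot] using this
    let φ : MvPolynomial (Fin 3) ℂ →ₐ[ℂ] Polynomial ℂ := MvPolynomial.aeval ![0, 0, Polynomial.X]
    have h2 := congrArg φ h1
    have h3 : φ g = Polynomial.X ^ 3 - 1 := by
      change φ (_ + _ + _ - 1) = _
      simp [φ]
    rw [map_add, map_pow, h3, map_zero] at h2
    exact not_square _ h2
  have hp : Prime (e eqn) := by
    rw [he]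
    exact hirr.prime
  exact (MulEquiv.prime_iff (e : MvPolynomial (Fin 4) ℂ ≃* Polynomial (MvPolynomial (Fin 3) ℂ))).mp hp

/-- The threefold is irreducible and reduced. -/
theorem pham_isDomain : IsDomain (Pham ![2, 2, 2, 3]) := by
  have h : (Ideal.span {eqn}).IsPrime := (Ideal.span_singleton_prime eqn_prime.ne_zero).mpr eqn_prime
  have h2 : IsDomain (MvPolynomial (Fin 4) ℂ ⧸ Ideal.span {eqn}) :=
    Ideal.Quotient.isDomain (Ideal.span {eqn})
  exact h2

lemma finiteType_pham {n : ℕ} (a : Fin (n + 1) → ℕ) : Algebra.FiniteType ℂ (Pham a) := by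
  have h : Algebra.FiniteType ℂ (MvPolynomial (Fin (n + 1)) ℂ ⧸
      Ideal.span {((∑ i, MvPolynomial.X i ^ a i) - 1 : MvPolynomial (Fin (n + 1)) ℂ)}) :=
    Algebra.FiniteType.of_surjective (Ideal.Quotient.mkₐ ℂ _) (Ideal.Quotient.mkₐ_surjective ℂ _)
  exact h

/-- The symmetric square is irreducible and reduced. -/
theorem sym_isDomain : IsDomain (SymSq (Pham ![2, 2, 2, 3])) := by
  have h1 := pham_isDomain
  have h2 := finiteType_pham ![2, 2, 2, 3]
  have h3 : IsDomain (Pham ![2, 2, 2, 3] ⊗[ℂ] Pham ![2, 2, 2, 3]) := isDomain_tensor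
  have h4 : IsDomain (Prd (Pham ![2, 2, 2, 3]) (Pham ![2, 2, 2, 3])) := h3
  have h5 : IsDomain (Inv (swap (Pham ![2, 2, 2, 3]))) := inferInstance
  exact h5

end Pool.Agent.Helper11U.Ell
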