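import Pool.Agent.Helper11U.EllCoh

/-!
# The invariants in the cohomology of the square
-/

set_option autoImplicit false

open CategoryTheory TensorProduct

namespace Pool.Agent.Helper11U.Ell

variable {D : HodgeThy} {B : Type} [CommRing B] [Algebra ℂ B]

/-- the pull-back by the first projection -/
noncomputable def inl (D : HodgeThy) (B : Type) [CommRing B] [Algebra ℂ B] :
    D.H B →ₐ[ℚ] D.H (Prd B B) := D.map (fst B B)

/-- the pull-back by the second projection -/
noncomputable def inr (D : HodgeThy) (B : Type) [CommRing B] [Algebra ℂ B] :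
    D.H B →ₐ[ℚ] D.H (Prd B B) := D.map (snd B B)

/-- the action of the exchange of the factors -/
noncomputable def sw (D : HodgeThy) (B : Type) [CommRing B] [Algebra ℂ B] :
    D.H (Prd B B) →ₐ[ℚ] D.H (Prd B B) := D.map (swap B).toAlgHom

lemma sw_inl (a : D.H B) : sw D B (inl D B a) = inr D B a := by
  rw [sw, inl, ← map_comp, inr, swap_fst]

lemma sw_inr (a : D.H B) : sw D B (inr D B a) = inl D B a := by
  rw [sw, inr, ← map_comp, inl, swap_snd]

variable (hD : IsHodgeThy D)

include hD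

lemma inr_mul_inl {i j : ℕ} {a c : D.H B} (ha : a ∈ D.deg B i) (hc : c ∈ D.deg B j) :
    inr D B a * inl D B c = ((-1 : ℚ) ^ (j * i)) • (inl D B c * inr D B a) := by
  rw [← sign_smul]
  exact hD.graded.comm _ j i _ _ (hD.natural.map _ _ _ j c hc) (hD.natural.map _ _ _ i a ha)

/-- the degrees of the basis -/
def dg (n : ℕ) : Fin 3 → ℕ := ![0, n, n]

/-- The invariants. -/
theorem invariants (hB : Algebra.FiniteType ℂ B) {n : ℕ} (hn : Odd n)
    (b : Module.Basis (Fin 3) ℚ (D.H B)) (h0 : b 0 = 1) (h1 : b 1 ∈ D.deg B n)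
    (h2 : b 2 ∈ D.deg B n) (hz : D.deg B (n + n) = ⊥) :
    let x := inl D B (b 1) + inr D B (b 1)
    let y := inl D B (b 2) + inr D B (b 2)
    LinearIndependent ℚ ![1, x, y, x * y] ∧
      ∀ w : D.H (Prd B B), sw D B w = w → ∃ c0 c1 c2 c3 : ℚ,
        w = c0 • 1 + c1 • x + c2 • y + c3 • (x * y) := by
  intro x y
  obtain ⟨bT, hbT'⟩ := hD.kunneth B B hB hB (Fin 3) (Fin 3) b b
  have hbT : ∀ i j, bT (i, j) = inl D B (b i) * inr D B (b j) := fun i j => hbT' i j
  have hdeg : ∀ i, b i ∈ D.deg B (dg n i) := by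
    intro i
    fin_cases i
    · change b 0 ∈ D.deg B 0
      rw [h0]
      exact hD.graded.one B
    · exact h1
    · exact h2
  have hsw : ∀ i j, sw D B (bT (i, j)) = ((-1 : ℚ) ^ (dg n i * dg n j)) • bT (j, i) := by
    intro i j
    rw [hbT, hbT, map_mul, sw_inl, sw_inr, inr_mul_inl hD (hdeg i) (hdeg j), mul_comm (dg n j)]
  have hodd : (-1 : ℚ) ^ (n * n) = -1 := (hn.mul hn).neg_one_pow
  have hxy : x * y = bT (1, 2) - bT (2, 1) := by
    have e1 : b 1 * b 2 = 0 := by
      have h3 := hD.graded.mul B n n _ _ h1 h2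
      rw [hz] at h3
      exact (Submodule.mem_bot ℚ).mp h3
    have e2 : inr D B (b 1) * inl D B (b 2) = -(inl D B (b 2) * inr D B (b 1)) := by
      rw [inr_mul_inl hD h1 h2, hodd, neg_smul, one_smul]
    have e3 : inl D B (b 1) * inl D B (b 2) = 0 := by rw [← map_mul, e1, map_zero]
    have e4 : inr D B (b 1) * inr D B (b 2) = 0 := by rw [← map_mul, e1, map_zero]
    change (inl D B (b 1) + inr D B (b 1)) * (inl D B (b 2) + inr D B (b 2)) = _
    rw [add_mul, mul_add, mul_add, e2, e3, e4, hbT, hbT]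
    abel
  have hx : x = bT (1, 0) + bT (0, 1) := by
    rw [hbT, hbT, h0, map_one (inl D B), map_one (inr D B), mul_one, one_mul]
  have hy : y = bT (2, 0) + bT (0, 2) := by
    rw [hbT, hbT, h0, map_one (inl D B), map_one (inr D B), mul_one, one_mul]
  have hone : (1 : D.H (Prd B B)) = bT (0, 0) := by
    rw [hbT, h0, map_one (inl D B), map_one (inr D B), mul_one]
  constructor
  · rw [Fintype.linearIndependent_iff]
    intro g hg
    rw [Fin.sum_univ_four] at hg
    change g 0 • (1 : D.H (Prd B B)) + g 1 • x + g 2 • y + g 3 • (x * y) = 0 at hg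
    rw [hone, hxy, hx, hy] at hg
    have hr := fun p => congrArg (fun w => bT.repr w p) hg
    simp only [map_add, map_smul, map_sub, map_zero, Finsupp.add_apply, Finsupp.smul_apply,
      Finsupp.sub_apply, Module.Basis.repr_self, Finsupp.single_apply, Finsupp.zero_apply,
      smul_eq_mul] at hr
    intro i
    fin_cases i
    · simpa using hr (0, 0)
    · simpa using hr (1, 0)
    · simpa using hr (2, 0)
    · simpa using hr (1, 2)
  · intro w hw
    have hcoord : ∀ (w : D.H (Prd B B)) (i j : Fin 3), bT.repr (sw D B w) (j, i) =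
        ((-1 : ℚ) ^ (dg n i * dg n j)) * bT.repr w (i, j) := by
      intro w i j
      have h3 : (Finsupp.lapply (j, i) : (Fin 3 × Fin 3 →₀ ℚ) →ₗ[ℚ] ℚ) ∘ₗ bT.repr.toLinearMap ∘ₗ
          (sw D B).toLinearMap = ((-1 : ℚ) ^ (dg n i * dg n j)) •
            ((Finsupp.lapply (i, j) : (Fin 3 × Fin 3 →₀ ℚ) →ₗ[ℚ] ℚ) ∘ₗ bT.repr.toLinearMap) := by
        refine bT.ext ?_
        rintro ⟨k, l⟩
        change bT.repr (sw D B (bT (k, l))) (j, i) =
          ((-1 : ℚ) ^ (dg n i * dg n j)) * bT.repr (bT (k, l)) (i, j)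
        rw [hsw, map_smul, Finsupp.smul_apply, Module.Basis.repr_self, Module.Basis.repr_self,
          Finsupp.single_apply, Finsupp.single_apply, smul_eq_mul]
        by_cases hc : (k, l) = (i, j)
        · obtain ⟨rfl, rfl⟩ := Prod.mk.inj hc
          rw [if_pos rfl, if_pos rfl]
        · rw [if_neg hc, if_neg, mul_zero, mul_zero]
          intro hc'
          apply hc
          obtain ⟨e1, e2⟩ := Prod.mk.inj hc'
          exact Prod.ext e2 e1
      exact LinearMap.congr_fun h3 w
    have hc : ∀ i j, bT.repr w (j, i) = ((-1 : ℚ) ^ (dg n i * dg n j)) * bT.repr w (i, j) := by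
      intro i j
      rw [← hcoord, hw]
    have c11 := hc 1 1
    have c22 := hc 2 2
    have c01 := hc 1 0
    have c02 := hc 2 0
    have c12 := hc 1 2
    change bT.repr w (1, 1) = (-1 : ℚ) ^ (n * n) * bT.repr w (1, 1) at c11
    change bT.repr w (2, 2) = (-1 : ℚ) ^ (n * n) * bT.repr w (2, 2) at c22
    change bT.repr w (0, 1) = (-1 : ℚ) ^ (n * 0) * bT.repr w (1, 0) at c01
    change bT.repr w (0, 2) = (-1 : ℚ) ^ (n * 0) * bT.repr w (2, 0) at c02
    change bT.repr w (2, 1) = (-1 : ℚ) ^ (n * n) * bT.repr w (1, 2) at c12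
    rw [hodd] at c11 c22 c12
    rw [mul_zero, pow_zero, one_mul] at c01 c02
    have c11' : bT.repr w (1, 1) = 0 := by linarith
    have c22' : bT.repr w (2, 2) = 0 := by linarith
    refine ⟨bT.repr w (0, 0), bT.repr w (1, 0), bT.repr w (2, 0), bT.repr w (1, 2), ?_⟩
    have hs := bT.sum_repr w
    rw [Fintype.sum_prod_type] at hs
    simp only [Fin.sum_univ_three] at hs
    rw [c11', c22', c01, c02, c12] at hs
    rw [hone, hxy, hx, hy]
    conv_lhs => rw [← hs]
    module

end Pool.Agent.Helper11U.Ell
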