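import Pool.Agent.Helper11U.EllSym
import Pool.Agent.Helper11U.EllDom

/-!
# Symmetric squares of varieties with two odd classes
-/

set_option autoImplicit false

open CategoryTheory TensorProduct

namespace Pool.Agent.Helper11U.Ell

variable {D : HodgeThy} {B : Type} [CommRing B] [Algebra ℂ B]

variable (hD : IsHodgeThy D)

include hD

lemma anticomm {n : ℕ} (hn : Odd n) {a c : D.H B} (ha : a ∈ D.deg B n) (hc : c ∈ D.deg B n) :
    c * a = -(a * c) := by
  rw [hD.graded.comm B n n a c ha hc, (hn.mul hn).neg_one_pow, neg_one_mul]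

lemma square_zero {n : ℕ} (hn : Odd n) {a : D.H B} (ha : a ∈ D.deg B n) : a * a = 0 := by
  have h := anticomm hD hn ha ha
  have h2 : (2 : ℚ) • (a * a) = 0 := by
    rw [two_smul]
    exact add_eq_zero_iff_eq_neg.mpr h
  exact (smul_eq_zero.mp h2).resolve_left (by norm_num)

/-- The homology vanishes in high degrees if the cohomology ring has finite dimension. -/
lemma homology_finite (hB : Algebra.FiniteType ℂ B) (hf : Module.Finite ℚ (D.H B)) :
    (∀ k, Module.Finite ℚ (Hom k (An B))) ∧ ∃ N, ∀ k ≥ N, Subsingleton (Hom k (An B)) := by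
  refine ⟨fun k => (hD.dual B hB k).1, ?_⟩
  have h1 : {k | D.deg B k ≠ ⊥}.Finite :=
    WellFoundedGT.finite_ne_bot_of_iSupIndep (hD.graded.internal B).submodule_iSupIndep
  obtain ⟨N, hN⟩ := h1.bddAbove
  refine ⟨N + 1, fun k hk => ?_⟩
  obtain ⟨h2, ⟨e⟩⟩ := hD.dual B hB k
  have h3 : D.deg B k = ⊥ := by
    by_contra h
    have := hN h
    omega
  have h4 : Module.finrank ℚ (Hom k (An B)) = 0 := by
    rw [← Subspace.dual_finrank_eq, ← e.finrank_eq, h3, finrank_bot]
  exact Module.finrank_zero_iff.mp h4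

/-- **Symmetric squares.** Let `Spec B` be simply connected, with Betti numbers `1` in degree `0`, `2` in the
odd degree `n` and `0` in all other degrees. Then the symmetric square of `Spec B` is rationally
elliptic, and its mixed Hodge numbers in degree `n` are at least those of `Spec B`. -/
theorem sym_elliptic (hB : Algebra.FiniteType ℂ B) (hs : SimplyConnectedSpace (An B)) {n : ℕ}
    (hn : Odd n) (hf : ∀ k, Module.finrank ℚ (D.deg B k) =
      if k = 0 then 1 else if k = n then 2 else 0) :
    RationallyElliptic (An (SymSq B)) ∧ ∀ p q : ℤ, D.h B n p q ≤ D.h (SymSq B) n p q := by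
  have hn0 : n ≠ 0 := by
    rintro rfl
    exact absurd hn (by decide)
  have hT : Algebra.FiniteType ℂ (Prd B B) := prd_finiteType hB hB
  have hS : Algebra.FiniteType ℂ (SymSq B) := sym2_finiteType hB
  obtain ⟨b, h0, h1, h2, h3⟩ := exists_basis hD hB hn0 hf
  have hz : D.deg B (n + n) = ⊥ := by
    have hfin := deg_finite hD hB (n + n)
    have h4 : Module.finrank ℚ (D.deg B (n + n)) = 0 := by
      rw [hf, if_neg (by omega), if_neg (by omega)]
    exact Submodule.finrank_eq_zero.mp h4
  obtain ⟨x, hx, y, hy, hx', hy', hli, hsp⟩ := sym_structure hD hB hn b h0 h1 h2 hz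
  obtain ⟨hli', hsp', hfinH⟩ := mono_basis ![x, y] hli hsp
  have hsT : SimplyConnectedSpace (An (Prd B B)) := simply_prd
  obtain ⟨z0⟩ : Nonempty (An B) := ((simply_connected_iff_unique_homotopic _).mp hs).1
  have hsS : SimplyConnectedSpace (An (SymSq B)) :=
    hD.armstrong (Prd B B) hT (swap B) swap_swap hsT ⟨pt z0 z0, pt_swap z0⟩
  refine ⟨⟨hsS, homology_finite hD hS hfinH, fun w => ?_⟩, ?_⟩
  · have hserre := hD.serre (SymSq B) hS hsS 2 (fun _ => n) ![x, y] (by
      intro i
      fin_cases i
      · exact ⟨hn, hx⟩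
      · exact ⟨hn, hy⟩) hli' hsp'
    refine ⟨fun k => (hserre k w).1, n, fun k hk => ?_⟩
    obtain ⟨h4, h5⟩ := hserre k w
    have h6 : IsEmpty {i : Fin 2 // n = k + 2} := ⟨fun i => by
      have := i.2
      omega⟩
    rw [Nat.card_of_isEmpty] at h5
    exact Module.finrank_zero_iff.mp h5
  · -- the map `Spec B → Sym² (Spec B)`, `z ↦ z + z0`
    let ρ : Prd B B →ₐ[ℂ] B := mk (AlgHom.id ℂ B) ((Algebra.ofId ℂ B).comp z0.hom)
    have hρl : ∀ a : D.H B, D.map ρ (inl D B a) = a := by
      intro a
      rw [inl, ← map_comp, mk_fst, map_id]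
    have hρr : ∀ a ∈ D.deg B n, D.map ρ (inr D B a) = 0 := by
      intro a ha
      rw [inr, ← map_comp, mk_snd, map_comp]
      have h5 : D.map z0.hom a = 0 := by
        have h6 := hD.natural.map B ℂ z0.hom n a ha
        rw [hD.natural.point n hn0] at h6
        exact (Submodule.mem_bot ℚ).mp h6
      rw [h5, map_zero]
    intro p q
    refine hD.deligne (SymSq B) B hS hB (ρ.comp (proj (swap B))) n ?_ p q
    intro c hc
    obtain ⟨s, t, rfl⟩ := h3 c hc
    refine ⟨s • x + t • y, add_mem (Submodule.smul_mem _ _ hx) (Submodule.smul_mem _ _ hy), ?_⟩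
    rw [map_comp]
    change D.map ρ (pb D B (s • x + t • y)) = _
    rw [map_add, map_smul, map_smul, hx', hy', map_add, map_smul, map_smul, map_add, map_add, hρl,
      hρl, hρr _ h1, hρr _ h2, add_zero, add_zero]

end Pool.Agent.Helper11U.Ell
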