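import Pool.Agent.Helper11U.EllInv

/-!
# The cohomology of the symmetric square
-/

set_option autoImplicit false

open CategoryTheory TensorProduct

namespace Pool.Agent.Helper11U.Ell

variable {D : HodgeThy} {B : Type} [CommRing B] [Algebra ℂ B]

/-- the pull-back to the square -/
noncomputable def pb (D : HodgeThy) (B : Type) [CommRing B] [Algebra ℂ B] :
    D.H (SymSq B) →ₐ[ℚ] D.H (Prd B B) := D.map (proj (swap B))

lemma sw_pb (u : D.H (SymSq B)) : sw D B (pb D B u) = pb D B u := by
  rw [sw, pb, ← map_comp]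
  congr 2
  refine AlgHom.ext fun t => ?_
  exact t.2

/-- the subsets of a set with two elements -/
noncomputable def subs : Fin 4 ≃ Finset (Fin 2) :=
  Equiv.ofBijective ![∅, {0}, {1}, {0, 1}] (by decide)

/-- The four monomials. -/
lemma mono_subs {R : Type} [Ring R] (x : Fin 2 → R) :
    mono x ∘ subs = ![1, x 0, x 1, x 0 * x 1] := by
  funext i
  have h0 : (List.finRange 2).filter (· ∈ (∅ : Finset (Fin 2))) = [] := by decide
  have h1 : (List.finRange 2).filter (· ∈ ({0} : Finset (Fin 2))) = [0] := by decide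
  have h2 : (List.finRange 2).filter (· ∈ ({1} : Finset (Fin 2))) = [1] := by decide
  have h3 : (List.finRange 2).filter (· ∈ ({0, 1} : Finset (Fin 2))) = [0, 1] := by decide
  fin_cases i
  · change (((List.finRange 2).filter (· ∈ (∅ : Finset (Fin 2)))).map x).prod = 1
    rw [h0]
    rfl
  · change (((List.finRange 2).filter (· ∈ ({0} : Finset (Fin 2)))).map x).prod = x 0
    rw [h1]
    simp
  · change (((List.finRange 2).filter (· ∈ ({1} : Finset (Fin 2)))).map x).prod = x 1
    rw [h2]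
    simp
  · change (((List.finRange 2).filter (· ∈ ({0, 1} : Finset (Fin 2)))).map x).prod = x 0 * x 1
    rw [h3]
    simp

theorem mono_basis {R : Type} [Ring R] [Algebra ℚ R] (x : Fin 2 → R)
    (hli : LinearIndependent ℚ ![1, x 0, x 1, x 0 * x 1])
    (hs : ∀ w : R, ∃ c0 c1 c2 c3 : ℚ, w = c0 • 1 + c1 • x 0 + c2 • x 1 + c3 • (x 0 * x 1)) :
    LinearIndependent ℚ (mono x) ∧ Submodule.span ℚ (Set.range (mono x)) = ⊤ ∧
      Module.Finite ℚ R := by
  have h1 : LinearIndependent ℚ (mono x) := by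
    rw [← linearIndependent_equiv subs, mono_subs]
    exact hli
  have hspan : ⊤ ≤ Submodule.span ℚ (Set.range ![1, x 0, x 1, x 0 * x 1]) := by
    intro w _
    obtain ⟨c0, c1, c2, c3, rfl⟩ := hs w
    exact add_mem (add_mem (add_mem (Submodule.smul_mem _ _ (Submodule.subset_span ⟨0, rfl⟩))
      (Submodule.smul_mem _ _ (Submodule.subset_span ⟨1, rfl⟩)))
      (Submodule.smul_mem _ _ (Submodule.subset_span ⟨2, rfl⟩)))
      (Submodule.smul_mem _ _ (Submodule.subset_span ⟨3, rfl⟩))
  refine ⟨h1, ?_, Module.Finite.of_basis (Module.Basis.mk hli hspan)⟩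
  rw [← mono_subs, subs.surjective.range_comp] at hspan
  exact top_le_iff.mp hspan

variable (hD : IsHodgeThy D)

include hD

/-- The cohomology of the symmetric square. -/
theorem sym_structure (hB : Algebra.FiniteType ℂ B) {n : ℕ} (hn : Odd n)
    (b : Module.Basis (Fin 3) ℚ (D.H B)) (h0 : b 0 = 1) (h1 : b 1 ∈ D.deg B n)
    (h2 : b 2 ∈ D.deg B n) (hz : D.deg B (n + n) = ⊥) :
    ∃ x ∈ D.deg (SymSq B) n, ∃ y ∈ D.deg (SymSq B) n,
      pb D B x = inl D B (b 1) + inr D B (b 1) ∧ pb D B y = inl D B (b 2) + inr D B (b 2) ∧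
      LinearIndependent ℚ ![1, x, y, x * y] ∧
      ∀ w : D.H (SymSq B), ∃ c0 c1 c2 c3 : ℚ, w = c0 • 1 + c1 • x + c2 • y + c3 • (x * y) := by
  have hT : Algebra.FiniteType ℂ (Prd B B) := prd_finiteType hB hB
  obtain ⟨hinj, htr⟩ := hD.transfer (Prd B B) hT (swap B) swap_swap
  have hlift : ∀ c ∈ D.deg B n, ∃ x ∈ D.deg (SymSq B) n, pb D B x = inl D B c + inr D B c := by
    intro c hc
    refine htr n _ (add_mem (hD.natural.map _ _ _ n c hc) (hD.natural.map _ _ _ n c hc)) ?_
    change sw D B (inl D B c + inr D B c) = _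
    rw [map_add, sw_inl, sw_inr, add_comm]
  obtain ⟨x, hx, hx'⟩ := hlift (b 1) h1
  obtain ⟨y, hy, hy'⟩ := hlift (b 2) h2
  obtain ⟨hli, hinv⟩ := invariants hD hB hn b h0 h1 h2 hz
  refine ⟨x, hx, y, hy, hx', hy', ?_, ?_⟩
  · refine LinearIndependent.of_comp (pb D B).toLinearMap ?_
    have h3 : ((pb D B).toLinearMap : D.H (SymSq B) → D.H (Prd B B)) ∘ ![1, x, y, x * y] =
        ![1, inl D B (b 1) + inr D B (b 1), inl D B (b 2) + inr D B (b 2),
          (inl D B (b 1) + inr D B (b 1)) * (inl D B (b 2) + inr D B (b 2))] := by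
      funext i
      fin_cases i
      · exact map_one (pb D B)
      · exact hx'
      · exact hy'
      · refine (map_mul (pb D B) x y).trans ?_
        rw [hx', hy']
        rfl
    rw [h3]
    exact hli
  · intro w
    obtain ⟨c0, c1, c2, c3, h3⟩ := hinv (pb D B w) (sw_pb w)
    refine ⟨c0, c1, c2, c3, hinj ?_⟩
    change pb D B w = pb D B (c0 • 1 + c1 • x + c2 • y + c3 • (x * y))
    rw [h3, map_add, map_add, map_add, map_smul, map_smul, map_smul, map_smul, map_mul,
      map_one (pb D B), hx', hy']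

end Pool.Agent.Helper11U.Ell
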