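import Pool.Agent.Helper11U.Ell

/-!
# Products of analytic spaces
-/

set_option autoImplicit false

open CategoryTheory TensorProduct

namespace Pool.Agent.Helper11U.Ell

theorem simply_prod (X Y : Type*) [TopologicalSpace X] [TopologicalSpace Y]
    [SimplyConnectedSpace X] [SimplyConnectedSpace Y] : SimplyConnectedSpace (X × Y) := by
  rw [simply_connected_iff_paths_homotopic]
  refine ⟨inferInstance, ?_⟩
  rintro ⟨x, y⟩ ⟨x', y'⟩
  refine ⟨fun p q => ?_⟩
  rw [← Path.Homotopic.prod_projLeft_projRight p, ← Path.Homotopic.prod_projLeft_projRight q]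
  congr 1
  · exact Subsingleton.elim _ _
  · exact Subsingleton.elim _ _

variable {B C : Type} [CommRing B] [Algebra ℂ B] [CommRing C] [Algebra ℂ C]

lemma continuous_val (b : B) : Continuous fun z : An B => z.val b :=
  (continuous_apply b).comp continuous_induced_dom

lemma continuous_to {X : Type*} [TopologicalSpace X] {f : X → An B}
    (h : ∀ b, Continuous fun x => (f x).val b) : Continuous f :=
  continuous_induced_rng.mpr (continuous_pi h)

/-- the homomorphism of a point -/
def An.hom (z : An B) : B →ₐ[ℂ] ℂ := z

/-- the point of a homomorphism -/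
def An.of (f : B →ₐ[ℂ] ℂ) : An B := f

/-- the image of a point -/
def An.comp (z : An C) (f : B →ₐ[ℂ] C) : An B := An.of (z.hom.comp f)

lemma An.comp_val (z : An C) (f : B →ₐ[ℂ] C) (b : B) : (z.comp f).val b = z.val (f b) := rfl

lemma An.ext {z w : An B} (h : ∀ b, z.val b = w.val b) : z = w := AlgHom.ext h

/-- the point `(x, y)` of the product -/
noncomputable def pair (x : An B) (y : An C) : An (B ⊗[ℂ] C) :=
  An.of (Algebra.TensorProduct.lift x.hom y.hom (fun _ _ => Commute.all _ _))

lemma pair_tmul (x : An B) (y : An C) (b : B) (c : C) :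
    (pair x y).val (b ⊗ₜ c) = x.val b * y.val c :=
  Algebra.TensorProduct.lift_tmul x.hom y.hom (fun _ _ => Commute.all _ _) b c

lemma val_one (x : An B) : x.val 1 = 1 := map_one x.hom

lemma val_add (x : An B) (s t : B) : x.val (s + t) = x.val s + x.val t := map_add x.hom s t

lemma val_zero (x : An B) : x.val 0 = 0 := map_zero x.hom

lemma val_mul (x : An B) (s t : B) : x.val (s * t) = x.val s * x.val t := map_mul x.hom s t

/-- `X × Y` is the product also topologically. -/
noncomputable def prodHomeo (B C : Type) [CommRing B] [Algebra ℂ B] [CommRing C] [Algebra ℂ C] :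
    An (B ⊗[ℂ] C) ≃ₜ An B × An C where
  toFun z := (z.comp Algebra.TensorProduct.includeLeft, z.comp Algebra.TensorProduct.includeRight)
  invFun p := pair p.1 p.2
  left_inv z := by
    refine An.ext fun t => ?_
    induction t using TensorProduct.induction_on with
    | zero => rw [val_zero, val_zero]
    | tmul b c =>
      rw [pair_tmul, An.comp_val, An.comp_val, ← val_mul]
      simp
    | add s t hs ht => rw [val_add, val_add, hs, ht]
  right_inv p := by
    refine Prod.ext (An.ext fun b => ?_) (An.ext fun b => ?_)
    · exact (pair_tmul _ _ _ _).trans (by rw [val_one, mul_one])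
    · exact (pair_tmul _ _ _ _).trans (by rw [val_one, one_mul])
  continuous_toFun := by
    refine Continuous.prodMk (continuous_to fun b => ?_) (continuous_to fun c => ?_)
    · exact continuous_val (b ⊗ₜ[ℂ] (1 : C))
    · exact continuous_val ((1 : B) ⊗ₜ[ℂ] c)
  continuous_invFun := by
    refine continuous_to fun t => ?_
    induction t using TensorProduct.induction_on with
    | zero =>
      simp only [val_zero]
      exact continuous_const
    | tmul b c =>
      simp only [pair_tmul]
      exact ((continuous_val b).comp continuous_fst).mul ((continuous_val c).comp continuous_snd)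
    | add s t hs ht =>
      simp only [val_add]
      exact hs.add ht

theorem simply_tensor [SimplyConnectedSpace (An B)] [SimplyConnectedSpace (An C)] :
    SimplyConnectedSpace (An (B ⊗[ℂ] C)) := by
  have := simply_prod (An B) (An C)
  exact (prodHomeo B C).toHomotopyEquiv.simplyConnectedSpace

theorem simply_prd [SimplyConnectedSpace (An B)] [SimplyConnectedSpace (An C)] :
    SimplyConnectedSpace (An (Prd B C)) := simply_tensor (B := B) (C := C)

lemma prd_finiteType (hB : Algebra.FiniteType ℂ B) (hC : Algebra.FiniteType ℂ C) :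
    Algebra.FiniteType ℂ (Prd B C) := by
  have h : Algebra.FiniteType ℂ (B ⊗[ℂ] C) :=
    Algebra.FiniteType.trans (S := B) hB (Algebra.FiniteType.baseChange B)
  exact h

/-- the point `(x, y)` of the product -/
noncomputable def pt (x : An B) (y : An C) : An (Prd B C) := pair x y

lemma pt_swap (x : An B) (c : Prd B B) : (pt x x).val (swap B c) = (pt x x).val c := by
  have h : ∀ c : B ⊗[ℂ] B, (pair x x).val ((Algebra.TensorProduct.comm ℂ B B) c) =
      (pair x x).val c := by
    intro c
    induction c using TensorProduct.induction_on with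
    | zero => rw [map_zero]
    | tmul a b => rw [Algebra.TensorProduct.comm_tmul, pair_tmul, pair_tmul, mul_comm]
    | add s t hs ht => rw [map_add, val_add, val_add, hs, ht]
  exact h c

lemma swap_swap (t : Prd B B) : swap B (swap B t) = t :=
  (Algebra.TensorProduct.comm ℂ B B).symm_apply_apply t

lemma swap_fst : (swap B).toAlgHom.comp (fst B B) = snd B B := by
  refine AlgHom.ext fun b => ?_
  exact Algebra.TensorProduct.comm_tmul ..

lemma swap_snd : (swap B).toAlgHom.comp (snd B B) = fst B B := by
  refine AlgHom.ext fun b => ?_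
  exact Algebra.TensorProduct.comm_tmul ..

/-- the morphism `Spec E → Spec B × Spec C` given by two morphisms -/
noncomputable def mk {E : Type} [CommRing E] [Algebra ℂ E] (f : B →ₐ[ℂ] E) (g : C →ₐ[ℂ] E) :
    Prd B C →ₐ[ℂ] E :=
  show B ⊗[ℂ] C →ₐ[ℂ] E from Algebra.TensorProduct.lift f g (fun _ _ => Commute.all _ _)

lemma mk_fst {E : Type} [CommRing E] [Algebra ℂ E] (f : B →ₐ[ℂ] E) (g : C →ₐ[ℂ] E) :
    (mk f g).comp (fst B C) = f :=
  Algebra.TensorProduct.lift_comp_includeLeft f g (fun _ _ => Commute.all _ _)

lemma mk_snd {E : Type} [CommRing E] [Algebra ℂ E] (f : B →ₐ[ℂ] E) (g : C →ₐ[ℂ] E) :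
    (mk f g).comp (snd B C) = g :=
  Algebra.TensorProduct.lift_comp_includeRight f g (fun _ _ => Commute.all _ _)

end Pool.Agent.Helper11U.Ell
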