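import Pool.Agent.Helper11U.TateSS
import Pool.Agent.Helper11U.Bass

/-!
# Function fields over finite fields

`k` is a finite field, `E = ℚ_ℓ`; the notation is that of `TateThy`. For an open immersion `j : U ⟶ X` let
`rM i n j` and `rH i n j` be the restriction maps of motivic and `ℓ`-adic homology.
-/

set_option autoImplicit false

open CategoryTheory CategoryTheory.Limits AlgebraicGeometry MvPolynomial
open Pool.Agent.Y116.UV Pool.Agent.Z125.UN Pool.Agent.Q282.UK Pool.Agent.Q282.UZ

namespace Pool.Agent.Helper11U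

universe w w'

/-- A `TateThy` together with the restriction maps `rM`, `rH` to open subschemes. -/
structure FieldThy (k : Type) [Field k] (E : Type w') [Field E] extends TateThy.{w} k E where
  rM : ∀ (i n : ℤ) {U X : Sch k}, (U ⟶ X) → (M i n X ⟶ M i n U)
  rH : ∀ (i n : ℤ) {U X : Sch k}, (U ⟶ X) → (H i n X ⟶ H i n U)

variable {k : Type} [Field k] {E : Type w'} [Field E]

/-- `j` is the inclusion of a non-empty open subscheme. -/
def IsOpn {U X : Sch k} (j : U ⟶ X) : Prop := IsOpenImmersion j.left ∧ Nonempty U.left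

/-- The question for the function field of `X` (degree `i`, weight `n`), for the classes which are defined on
`X`: every class `v` in `H_i(X̄, ℚ_ℓ(n))` with `F v = v` is, after restriction to some non-empty open
subscheme `U` of `X`, the class of an element of `CH_n(U, i - 2n) ⊗ ℚ_ℓ`. -/
def FieldThy.Generic (D : FieldThy.{w} k E) (i n : ℤ) (X : Sch k) : Prop :=
  ∀ v : D.H i n X, (D.F i n X).hom v = v → ∃ (U : Sch k) (j : U ⟶ X), IsOpn j ∧
    ∃ x : D.M i n U, (D.cl i n U).hom x = (D.rH i n j).hom v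

/-- The question for all function fields of transcendence degree at most `d` over `k`, in degree `i` and
weight `n`: `Generic` for all integral separated schemes `X` of finite type over `k` of dimension at
most `d`. -/
def FieldThy.Question (D : FieldThy.{w} k E) (d : WithBot ℕ∞) (i n : ℤ) : Prop :=
  ∀ X : Sch k, FT True X → IsIntegral X.left → topologicalKrullDim X.left ≤ d → D.Generic i n X

/-- The dimension of `X` is at most `m` (at most `0` if `m < 0`). -/
def DimLE (X : Sch k) (m : ℤ) : Prop := topologicalKrullDim X.left ≤ ((m.toNat : ℕ) : WithBot ℕ∞)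

/-- The cycle class map in degree `i` and weight `n` is onto the generalized eigenspace of `F` for the
eigenvalue one. -/
def TateThy.SurAt (D : TateThy.{w} k E) (i n : ℤ) (X : Sch k) : Prop :=
  ∀ v : D.H i n X, (∃ r : ℕ, (((D.F i n X).hom - 1) ^ r) v = 0) → ∃ x, (D.cl i n X).hom x = v

/-- The conjectures of Tate and of Beilinson for `X`, with semisimplicity: for all `n` the map
`CH_n(X) ⊗ ℚ_ℓ → H_{2n}(X̄, ℚ_ℓ(n))` is injective, and its image is the generalized eigenspace of `F` for the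
eigenvalue one. -/
def TateThy.Strong (D : TateThy.{w} k E) (X : Sch k) : Prop :=
  ∀ n : ℤ, Function.Injective (D.cl (2 * n) n X).hom ∧ D.SurAt (2 * n) n X

/-- Known facts on the two homologies and the restriction maps.
* those of `IsTate`;
* `restrict`, `nat`, `comp`: the restriction maps are the maps of the localization sequences; they are
  compatible with `cl`, `F` and composition;
* `nonneg`, `weights`: `CH_n(X, m) = 0` for `m < 0`; the eigenvalue one does not occur in
  `H_i(X̄, ℚ_ℓ(n))` for `i < 2n` (Deligne);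
* `low`: for `dim X ≤ n` the map `CH_n(X) ⊗ ℚ_ℓ → H_{2n}(X̄, ℚ_ℓ(n))` is injective and onto the generalized
  eigenspace (fundamental classes of the components);
* `units`: for `dim X ≤ n + 1` the map `CH_n(X, 1) ⊗ ℚ_ℓ → H_{2n+1}(X̄, ℚ_ℓ(n))` is onto the generalized
  eigenspace (Kummer theory, Weil);
* `fields`: `CH^a(Spec K, b) = 0` for fields `K` and `b < a`: for integral `X` of dimension greater than
  `i - n` every element of `CH_n(X, i - 2n)` vanishes on a non-empty open subscheme. -/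
structure IsFieldThy (D : FieldThy.{w} k E) : Prop extends IsTate D.toTateThy where
  restrict : ∀ {Z X U : Sch k} (i : Z ⟶ X) (j : U ⟶ X), FT True X → IsTriple i j → ∀ n : ℤ,
    ∃ L : LadderT D.toTateThy Z X U n, ∀ m, L.L.b m = D.rM m n j ∧ L.L'.b m = D.rH m n j
  nat : ∀ {U X : Sch k} (j : U ⟶ X), FT True X → IsOpenImmersion j.left → ∀ i n,
    D.rM i n j ≫ D.cl i n U = D.cl i n X ≫ D.rH i n j ∧
      D.rH i n j ≫ D.F i n U = D.F i n X ≫ D.rH i n j
  comp : ∀ {V U X : Sch k} (g : V ⟶ U) (j : U ⟶ X), FT True X → IsOpenImmersion g.left →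
    IsOpenImmersion j.left → ∀ i n, D.rM i n (g ≫ j) = D.rM i n j ≫ D.rM i n g ∧
      D.rH i n (g ≫ j) = D.rH i n j ≫ D.rH i n g
  nonneg : NoNegative D.toTateThy
  weights : ∀ X : Sch k, FT True X → ∀ i n : ℤ, i < 2 * n → ∀ v : D.H i n X,
    (D.F i n X).hom v = v → v = 0
  low : ∀ X : Sch k, FT True X → ∀ n : ℤ, DimLE X n →
    Function.Injective (D.cl (2 * n) n X).hom ∧ D.SurAt (2 * n) n X
  units : ∀ X : Sch k, FT True X → ∀ n : ℤ, DimLE X (n + 1) → D.SurAt (2 * n + 1) n X
  fields : ∀ X : Sch k, FT True X → IsIntegral X.left → ∀ i n : ℤ, ¬ DimLE X (i - n) →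
    ∀ x : D.M i n X, ∃ (U : Sch k) (j : U ⟶ X), IsOpn j ∧ (D.rM i n j).hom x = 0

section lemmas

variable {D : TateThy.{w} k E}

lemma surAt_iff (i n : ℤ) (X : Sch k) :
    D.SurAt i n X ↔ Function.Surjective (D.toCmp.c i n X).hom := by
  constructor
  · intro h v
    obtain ⟨x, hx⟩ := h v.1 v.2
    exact ⟨x, Subtype.ext hx⟩
  · intro h v hv
    obtain ⟨x, hx⟩ := h ⟨v, hv⟩
    exact ⟨x, congrArg Subtype.val hx⟩

lemma inj_iff (i n : ℤ) (X : Sch k) :
    Function.Injective (D.cl i n X).hom ↔ Function.Injective (D.toCmp.c i n X).hom :=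
  ⟨fun h _ _ hxy => h (congrArg Subtype.val hxy), fun h _ _ hxy => h (Subtype.ext hxy)⟩

/-- The property which is proved by induction: injectivity in degree `2n`, surjectivity in the degrees
`2n` and `2n + 1`, for all weights `n`. -/
def TateThy.J (D : TateThy.{w} k E) (X : Sch k) : Prop :=
  ∀ n : ℤ, Function.Injective (D.toCmp.c (2 * n) n X).hom ∧
    Function.Surjective (D.toCmp.c (2 * n) n X).hom ∧
    Function.Surjective (D.toCmp.c (2 * n + 1) n X).hom

/-- surjectivity of the restriction in degree `2n` -/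
lemma sur_b {A B C : ℤ → ModuleCat.{w} E} (L : LES A B C) (n : ℤ)
    (h : Subsingleton (A (2 * n - 1))) : Function.Surjective (L.b (2 * n)).hom := by
  have key : ∀ e m : ℤ, e = m + 1 → Subsingleton (A m) → Function.Surjective (L.b e).hom := by
    rintro e m rfl hm u
    exact (L.exC m u).mp (Subsingleton.elim _ _)
  exact key (2 * n) (2 * n - 1) (by omega) h

variable {Z X U : Sch k}

lemma total_inj {n i : ℤ} (L : Ladder D.toCmp Z X U n)
    (h1 : Function.Surjective (D.toCmp.c (i + 1) n U).hom)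
    (h2 : Function.Injective (D.toCmp.c i n Z).hom) (h3 : Function.Injective (D.toCmp.c i n U).hom) :
    Function.Injective (D.toCmp.c i n X).hom :=
  LinearMap.injective_of_surjective_of_injective_of_injective
    (L.L.d i).hom (L.L.a i).hom (L.L.b i).hom (L.L'.d i).hom (L.L'.a i).hom (L.L'.b i).hom
    (D.toCmp.c (i + 1) n U).hom (D.toCmp.c i n Z).hom (D.toCmp.c i n X).hom (D.toCmp.c i n U).hom
    (congrArg ModuleCat.Hom.hom (L.cd i).symm) (congrArg ModuleCat.Hom.hom (L.ca i).symm)
    (congrArg ModuleCat.Hom.hom (L.cb i).symm) (L.L.exA i) (L.L.exB i) (L.L'.exA i) h1 h2 h3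

lemma total_sur {n i : ℤ} (L : Ladder D.toCmp Z X U n)
    (h1 : Function.Surjective (D.toCmp.c (i + 1) n Z).hom)
    (h2 : Function.Surjective (D.toCmp.c (i + 1) n U).hom)
    (h3 : Function.Injective (D.toCmp.c i n Z).hom) :
    Function.Surjective (D.toCmp.c (i + 1) n X).hom :=
  LinearMap.surjective_of_surjective_of_surjective_of_injective
    (L.L.a (i + 1)).hom (L.L.b (i + 1)).hom (L.L.d i).hom
    (L.L'.a (i + 1)).hom (L.L'.b (i + 1)).hom (L.L'.d i).hom
    (D.toCmp.c (i + 1) n Z).hom (D.toCmp.c (i + 1) n X).hom (D.toCmp.c (i + 1) n U).hom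
    (D.toCmp.c i n Z).hom (congrArg ModuleCat.Hom.hom (L.ca (i + 1)).symm)
    (congrArg ModuleCat.Hom.hom (L.cb (i + 1)).symm) (congrArg ModuleCat.Hom.hom (L.cd i).symm)
    (L.L.exC i) (L.L'.exB _) (L.L'.exC i) h1 h2 h3

lemma total_sur' {n i : ℤ} (L : Ladder D.toCmp Z X U n) (hb : Function.Surjective (L.L.b i).hom)
    (h1 : Function.Surjective (D.toCmp.c i n Z).hom)
    (h2 : Function.Surjective (D.toCmp.c i n U).hom) :
    Function.Surjective (D.toCmp.c i n X).hom := by
  intro v
  obtain ⟨u, hu⟩ := h2 ((L.L'.b i).hom v)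
  obtain ⟨x, rfl⟩ := hb u
  have hcb : (D.toCmp.c i n U).hom ((L.L.b i).hom x) = (L.L'.b i).hom ((D.toCmp.c i n X).hom x) :=
    congrArg (fun g => g.hom x) (L.cb i)
  rw [hcb, ← sub_eq_zero, ← map_sub] at hu
  obtain ⟨w, hw⟩ := (L.L'.exB i _).mp hu
  obtain ⟨z, rfl⟩ := h1 w
  have hca : (D.toCmp.c i n X).hom ((L.L.a i).hom z) = (L.L'.a i).hom ((D.toCmp.c i n Z).hom z) :=
    congrArg (fun g => g.hom z) (L.ca i)
  refine ⟨x - (L.L.a i).hom z, ?_⟩
  rw [map_sub, hca, hw]
  abel

lemma open_sur {n i : ℤ} (L : Ladder D.toCmp Z X U n)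
    (h1 : Function.Surjective (D.toCmp.c (i + 1) n X).hom)
    (h2 : Function.Surjective (D.toCmp.c i n Z).hom)
    (h3 : Function.Injective (D.toCmp.c i n X).hom) :
    Function.Surjective (D.toCmp.c (i + 1) n U).hom :=
  LinearMap.surjective_of_surjective_of_surjective_of_injective
    (L.L.b (i + 1)).hom (L.L.d i).hom (L.L.a i).hom
    (L.L'.b (i + 1)).hom (L.L'.d i).hom (L.L'.a i).hom
    (D.toCmp.c (i + 1) n X).hom (D.toCmp.c (i + 1) n U).hom (D.toCmp.c i n Z).hom
    (D.toCmp.c i n X).hom (congrArg ModuleCat.Hom.hom (L.cb (i + 1)).symm)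
    (congrArg ModuleCat.Hom.hom (L.cd i).symm) (congrArg ModuleCat.Hom.hom (L.ca i).symm)
    (L.L.exA i) (L.L'.exC i) (L.L'.exA i) h1 h2 h3

lemma open_inj {n i : ℤ} (L : Ladder D.toCmp Z X U n) (hb : Function.Surjective (L.L.b i).hom)
    (h1 : Function.Surjective (D.toCmp.c i n Z).hom)
    (h2 : Function.Injective (D.toCmp.c i n X).hom) :
    Function.Injective (D.toCmp.c i n U).hom := by
  rw [injective_iff_map_eq_zero]
  intro u hu
  obtain ⟨x, rfl⟩ := hb u
  have hcb : (D.toCmp.c i n U).hom ((L.L.b i).hom x) = (L.L'.b i).hom ((D.toCmp.c i n X).hom x) :=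
    congrArg (fun g => g.hom x) (L.cb i)
  rw [hcb] at hu
  obtain ⟨w, hw⟩ := (L.L'.exB i _).mp hu
  obtain ⟨z, rfl⟩ := h1 w
  have hca : (D.toCmp.c i n X).hom ((L.L.a i).hom z) = (L.L'.a i).hom ((D.toCmp.c i n Z).hom z) :=
    congrArg (fun g => g.hom z) (L.ca i)
  rw [← hca] at hw
  rw [← h2 hw]
  exact (L.L.exB i _).mpr ⟨z, rfl⟩

lemma open_sur' {n i : ℤ} (L : Ladder D.toCmp Z X U n) (hb : Function.Surjective (L.L'.b i).hom)
    (h1 : Function.Surjective (D.toCmp.c i n X).hom) :
    Function.Surjective (D.toCmp.c i n U).hom := by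
  intro u
  obtain ⟨v, rfl⟩ := hb u
  obtain ⟨x, rfl⟩ := h1 v
  exact ⟨(L.L.b i).hom x, congrArg (fun g => g.hom x) (L.cb i)⟩

end lemmas

end Pool.Agent.Helper11U
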