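import Pool.Agent.Helper11U.FieldJ

/-!
# Function fields and smooth proper schemes
-/

set_option autoImplicit false

open CategoryTheory CategoryTheory.Limits AlgebraicGeometry MvPolynomial
open Pool.Agent.Y116.UV Pool.Agent.Z125.UN Pool.Agent.Q282.UK Pool.Agent.Q282.UZ

namespace Pool.Agent.Helper11U

universe w w'

variable {k : Type} [Field k] {E : Type w'} [Field E]

/-- Known facts: those of `IsFieldThy`, and
* `transfer`: for a finite flat surjective morphism `V → U` of integral schemes the homologies of `U` are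
  direct summands of the ones of `V`;
* `alterations`: the theorem of de Jong as a principle of dévissage;
* `purity`: for smooth proper `X` the eigenvalue one does not occur in `H_i(X̄, ℚ_ℓ(n))` for `i ≠ 2n`
  (Deligne). -/
structure IsFieldAltThy (D : FieldThy.{w} k E) : Prop extends IsFieldThy D where
  transfer : ∀ {V U : Sch k} (f : V ⟶ U), FT True U → IsFinite f.left → Flat f.left →
    Surjective f.left → IsIntegral V.left → IsIntegral U.left → ∀ i n, D.Summand i n U i n V
  alterations : Alterations k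
  purity : ∀ X : Sch k, FT True X → IsProper X.hom → Smooth X.hom → ∀ i n : ℤ, i ≠ 2 * n →
    ∀ v : D.H i n X, (D.F i n X).hom v = v → v = 0

variable {D : FieldThy.{w} k E} (hD : IsFieldAltThy D)

lemma strong_of_j {X : Sch k} (h : D.J X) : D.Strong X :=
  fun n => ⟨(inj_iff _ _ _).mpr (h n).1, (surAt_iff _ _ _).mpr (h n).2.1⟩

include hD

lemma j_of_strong (X : Sch k) (hX : FT True X) (h1 : IsProper X.hom) (h2 : Smooth X.hom)
    (h3 : D.Strong X) : D.J X := by
  intro n
  refine ⟨(inj_iff _ _ _).mp (h3 n).1, (surAt_iff _ _ _).mp (h3 n).2, fun v => ⟨0, ?_⟩⟩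
  have h4 : Subsingleton (D.toCmp.N (2 * n + 1) n X) :=
    gen_subsingleton _ (hD.purity X hX h1 h2 (2 * n + 1) n (by omega))
  exact Subsingleton.elim _ _

lemma j_alt : AltClosed D.J where
  iso := (clo_J hD.toIsFieldThy).iso
  total := (clo_J hD.toIsFieldThy).total
  opened := (clo_J hD.toIsFieldThy).opened
  finite f h1 h2 h3 h4 h5 h6 h n := by
    have h7 := fun i => summand_cmp (hD.transfer f h1 h2 h3 h4 h5 h6 i n)
    obtain ⟨a, b, c⟩ := h n
    exact ⟨inj_summand (h7 _) a, sur_summand (h7 _) b, sur_summand (h7 _) c⟩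

/-- Schemes of dimension at most `d` and smooth proper schemes of dimension at most `d`. -/
theorem j_iff (d : WithBot ℕ∞) : (∀ X : Sch k, FT True X → topologicalKrullDim X.left ≤ d → D.J X) ↔
    ForSmoothProper D.Strong d :=
  ⟨fun h X hX _ _ hd => strong_of_j (h X hX hd), fun h => hD.alterations D.J (j_alt hD) d
    fun X hX h1 h2 hd => j_of_strong hD X hX h1 h2 (h X hX h1 h2 hd)⟩

lemma question_of_sur {d : WithBot ℕ∞} {i n : ℤ}
    (h : ∀ X : Sch k, FT True X → topologicalKrullDim X.left ≤ d → D.SurAt i n X) :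
    D.Question d i n := by
  intro X hX hI hd v hv
  obtain ⟨x, hx⟩ := h X hX hd v (gen1_fixed hv)
  have ho : IsOpn (𝟙 X) := isOpn_id inferInstance
  refine ⟨X, 𝟙 X, ho, (D.rM i n (𝟙 X)).hom x, ?_⟩
  rw [← hx]
  exact congrArg (fun f => f.hom x) (hD.nat (𝟙 X) hX ho.1 i n).1

/-- The question in the degrees `2n` and `2n + 1`, dimension by dimension. -/
theorem fields_iff (d : WithBot ℕ∞) :
    ((∀ n : ℤ, D.Question d (2 * n) n) ∧ ∀ n : ℤ, D.Question d (2 * n + 1) n) ↔
      ForSmoothProper D.Strong d := by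
  rw [← j_iff hD d]
  constructor
  · rintro ⟨h1, h2⟩ X hX hd
    exact j_of_fields hD.toIsFieldThy h1 h2 X hX hd
  · intro h
    exact ⟨fun n => question_of_sur hD fun X hX hd => (surAt_iff _ _ _).mpr (h X hX hd n).2.1,
      fun n => question_of_sur hD fun X hX hd => (surAt_iff _ _ _).mpr (h X hX hd n).2.2⟩

end Pool.Agent.Helper11U
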