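import Pool.Agent.Helper11U.FieldAlt

/-!
# All degrees
-/

set_option autoImplicit false

open CategoryTheory CategoryTheory.Limits AlgebraicGeometry MvPolynomial
open Pool.Agent.Y116.UV Pool.Agent.Z125.UN Pool.Agent.Q282.UK Pool.Agent.Q282.UZ

namespace Pool.Agent.Helper11U

universe w w'

variable {k : Type} [Field k] {E : Type w'} [Field E]

/-- The conjecture of Parshin for `X`: `CH_n(X, m) ⊗ ℚ_ℓ = 0` for `m ≠ 0`. -/
def TateThy.Parshin (D : TateThy.{w} k E) (X : Sch k) : Prop :=
  ∀ i n : ℤ, i ≠ 2 * n → Subsingleton (D.M i n X)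

/-- Geisser's theorem: the conjectures of Tate and Beilinson, with semisimplicity, for all smooth proper
schemes over `k` imply the conjecture of Parshin for all smooth proper schemes over `k`. -/
def Geisser (D : TateThy.{w} k E) : Prop :=
  ForSmoothProper D.Strong ⊤ → ForSmoothProper D.Parshin ⊤

variable {D : FieldThy.{w} k E} (hD : IsFieldAltThy D)

include hD

lemma gen_of_strong (X : Sch k) (hX : FT True X) (h1 : IsProper X.hom) (h2 : Smooth X.hom)
    (h3 : D.Strong X) (h4 : D.Parshin X) : D.Gen X := by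
  intro i n
  by_cases hi : i = 2 * n
  · subst hi
    exact h3 n
  · have h5 := h4 i n hi
    have h6 := gen_subsingleton _ (hD.purity X hX h1 h2 i n hi)
    refine ⟨fun _ _ _ => Subsingleton.elim _ _, fun v hv => ⟨0, ?_⟩⟩
    have h7 : (⟨v, hv⟩ : gn (D.F i n X)) = 0 := Subsingleton.elim _ _
    rw [map_zero]
    exact (congrArg Subtype.val h7).symm

/-- all cycle class maps of all schemes -/
theorem gen_all [PerfectField k] (hG : Geisser D.toTateThy) (h : ForSmoothProper D.Strong ⊤)
    (X : Sch k) (hX : FT True X) : D.Gen X := by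
  have h1 : ForSmoothProper D.Gen ⊤ := fun X hX a b hd =>
    gen_of_strong hD X hX a b (h X hX a b hd) (hG h X hX a b hd)
  have hB : Bnd True D.Gen := bnd_gen hD.toIsTate
  refine hD.alterations D.Gen ⟨resClosed_of_bnd hB, ?_⟩ ⊤ h1 X hX le_top
  intro V U f h2 h3 h4 h5 h6 h7 h8
  rw [gen_iff] at h8 ⊢
  exact fun i n => bij_summand (summand_cmp (hD.transfer f h2 h3 h4 h5 h6 h7 i n)) (h8 i n)

omit hD in
lemma strong_of_gen {X : Sch k} (h : D.Gen X) : D.Strong X := fun n => h (2 * n) n

end Pool.Agent.Helper11U
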