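import Pool.Agent.Helper11U.FieldMain

/-!
# From function fields to schemes: the induction on the dimension
-/

set_option autoImplicit false

open CategoryTheory CategoryTheory.Limits AlgebraicGeometry MvPolynomial
open Pool.Agent.Y116.UV Pool.Agent.Z125.UN Pool.Agent.Q282.UK Pool.Agent.Q282.UZ

namespace Pool.Agent.Helper11U

universe w w'

variable {k : Type} [Field k] {E : Type w'} [Field E]

section chase

variable {D : TateThy.{w} k E} {Z X U : Sch k} {n i : ℤ} (L : Ladder D.toCmp Z X U n)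

include L

lemma lift_elt (v : D.toCmp.N (i + 1) n X) (x' : D.toCmp.M (i + 1) n U)
    (hx : (D.toCmp.c (i + 1) n U).hom x' = (L.L'.b (i + 1)).hom v)
    (h1 : Function.Surjective (D.toCmp.c (i + 1) n Z).hom)
    (h3 : Function.Injective (D.toCmp.c i n Z).hom) : ∃ x, (D.toCmp.c (i + 1) n X).hom x = v := by
  have ca : ∀ z, (D.toCmp.c (i + 1) n X).hom ((L.L.a (i + 1)).hom z) =
      (L.L'.a (i + 1)).hom ((D.toCmp.c (i + 1) n Z).hom z) :=
    fun z => congrArg (fun g => g.hom z) (L.ca (i + 1))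
  have cb : ∀ z, (D.toCmp.c (i + 1) n U).hom ((L.L.b (i + 1)).hom z) =
      (L.L'.b (i + 1)).hom ((D.toCmp.c (i + 1) n X).hom z) :=
    fun z => congrArg (fun g => g.hom z) (L.cb (i + 1))
  have cd : ∀ z, (D.toCmp.c i n Z).hom ((L.L.d i).hom z) =
      (L.L'.d i).hom ((D.toCmp.c (i + 1) n U).hom z) := fun z => congrArg (fun g => g.hom z) (L.cd i)
  have h4 : (L.L.d i).hom x' = 0 := by
    apply h3
    rw [cd, hx, map_zero]
    exact (L.L'.exC i _).mpr ⟨v, rfl⟩
  obtain ⟨x, rfl⟩ := (L.L.exC i x').mp h4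
  rw [cb, ← sub_eq_zero, ← map_sub] at hx
  obtain ⟨u, hu⟩ := (L.L'.exB (i + 1) _).mp hx
  obtain ⟨z, rfl⟩ := h1 u
  refine ⟨x - (L.L.a (i + 1)).hom z, ?_⟩
  rw [map_sub, ca, hu]
  abel

lemma lift_elt' (hb : Function.Surjective (L.L.b i).hom) (v : D.toCmp.N i n X)
    (x' : D.toCmp.M i n U) (hx : (D.toCmp.c i n U).hom x' = (L.L'.b i).hom v)
    (h1 : Function.Surjective (D.toCmp.c i n Z).hom) : ∃ x, (D.toCmp.c i n X).hom x = v := by
  have ca : ∀ z, (D.toCmp.c i n X).hom ((L.L.a i).hom z) =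
      (L.L'.a i).hom ((D.toCmp.c i n Z).hom z) := fun z => congrArg (fun g => g.hom z) (L.ca i)
  have cb : ∀ z, (D.toCmp.c i n U).hom ((L.L.b i).hom z) =
      (L.L'.b i).hom ((D.toCmp.c i n X).hom z) := fun z => congrArg (fun g => g.hom z) (L.cb i)
  obtain ⟨x, rfl⟩ := hb x'
  rw [cb, ← sub_eq_zero, ← map_sub] at hx
  obtain ⟨u, hu⟩ := (L.L'.exB i _).mp hx
  obtain ⟨z, rfl⟩ := h1 u
  refine ⟨x - (L.L.a i).hom z, ?_⟩
  rw [map_sub, ca, hu]
  abel

lemma inj_elt (z : D.toCmp.M i n X) (hz : (D.toCmp.c i n X).hom z = 0)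
    (hr : (L.L.b i).hom z = 0) (h1 : Function.Surjective (D.toCmp.c (i + 1) n U).hom)
    (h2 : Function.Injective (D.toCmp.c i n Z).hom) : z = 0 := by
  have ca : ∀ z, (D.toCmp.c i n X).hom ((L.L.a i).hom z) =
      (L.L'.a i).hom ((D.toCmp.c i n Z).hom z) := fun z => congrArg (fun g => g.hom z) (L.ca i)
  have cd : ∀ z, (D.toCmp.c i n Z).hom ((L.L.d i).hom z) =
      (L.L'.d i).hom ((D.toCmp.c (i + 1) n U).hom z) := fun z => congrArg (fun g => g.hom z) (L.cd i)
  obtain ⟨z', rfl⟩ := (L.L.exB i z).mp hr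
  rw [ca] at hz
  obtain ⟨u, hu⟩ := (L.L'.exA i _).mp hz
  obtain ⟨y, rfl⟩ := h1 u
  rw [← cd] at hu
  rw [← h2 hu]
  exact (L.L.exA i _).mpr ⟨y, rfl⟩

end chase

variable {D : FieldThy.{w} k E} (hD : IsFieldThy D) {d : WithBot ℕ∞}
  (hQ0 : ∀ n : ℤ, D.Question d (2 * n) n) (hQ1 : ∀ n : ℤ, D.Question d (2 * n + 1) n)

include hD

lemma basic_sur {i n : ℤ} (hlow : ∀ X : Sch k, FT True X → DimLE X (i - n) → D.SurAt i n X)
    (hQ : D.Question d i n) {B : Type} [CommRing B] [IsDomain B] [Algebra k B]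
    [Algebra.FiniteType k B] (hd : ringKrullDim B ≤ d) (v : D.H i n (aff k B))
    (hv : v ∈ gen1 (D.F i n (aff k B)).hom) : ∃ w : B, w ≠ 0 ∧
      ∃ x : D.M i n (aff k (Localization.Away w)), (D.cl i n _).hom x =
        (D.rH i n (affMap (IsScalarTower.toAlgHom k B (Localization.Away w)))).hom v := by
  obtain ⟨r, hr⟩ := hv
  have hX : FT True (aff k B) := ft_aff True
  have hI : IsIntegral (aff k B).left := inferInstanceAs (IsIntegral (Spec (.of B)))
  obtain ⟨U, j, hj, x, hx⟩ := gen_sur hD hlow hQ r (aff k B) hX hI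
    (by rw [topDim_aff]; exact hd) v hr
  obtain ⟨w, g, hw, hg, hgj⟩ := exists_basic j hj
  refine ⟨w, hw, (D.rM i n g).hom x, ?_⟩
  have h1 : (D.cl i n _).hom ((D.rM i n g).hom x) = (D.rH i n g).hom ((D.cl i n U).hom x) :=
    congrArg (fun f => f.hom x) (hD.nat g (ft_open j hj.1 hX) hg i n).1
  rw [h1, hx, ← hgj]
  exact (congrArg (fun f => f.hom v) (hD.comp g j hX hg hj.1 i n).2).symm

/-- the ladder of a basic open subscheme, in terms of the generalized eigenspaces -/
lemma basic_ladder {B : Type} [CommRing B] [Algebra k B] [Algebra.FiniteType k B] (w : B) (n : ℤ) :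
    ∃ L : Ladder D.toCmp (aff k (B ⧸ Ideal.span {w})) (aff k B) (aff k (Localization.Away w)) n,
      (∀ m, L.L.b m = D.rM m n (affMap (IsScalarTower.toAlgHom k B (Localization.Away w)))) ∧
      ∀ m (v : D.toCmp.N m n (aff k B)), ((L.L'.b m).hom v).1 =
        (D.rH m n (affMap (IsScalarTower.toAlgHom k B (Localization.Away w)))).hom v.1 := by
  have hX : FT True (aff k B) := ft_aff True
  have ht := triple_away (R := k) w
  obtain ⟨L, hL⟩ := hD.restrict _ _ hX ht n
  refine ⟨L.toCmp (fun m => hD.finite (ft_closed _ ht.closed hX) m n)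
      (fun m => hD.finite hX m n) (fun m => hD.finite (ft_open _ ht.opened hX) m n),
      fun m => (hL m).1, fun m v => ?_⟩
  have h := (hL m).2
  exact congrArg (fun f => f.hom v.1) h

include hQ0 hQ1

/-- the induction step -/
theorem j_step (e : ℕ) (ih : ∀ (A : Type) [CommRing A] [Algebra k A] [Algebra.FiniteType k A],
      ringKrullDim A ≤ d → ringKrullDim A < e → D.J (aff k A))
    (B : Type) [CommRing B] [IsDomain B] [Algebra k B] [Algebra.FiniteType k B]
    (hd : ringKrullDim B ≤ d) (he : ringKrullDim B < (e + 1 : ℕ)) : D.J (aff k B) := by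
  -- the closed subschemes
  have hZ : ∀ (B : Type) [CommRing B] [IsDomain B] [Algebra k B] [Algebra.FiniteType k B]
      (_ : ringKrullDim B ≤ d) (_ : ringKrullDim B < (e + 1 : ℕ)) (w : B), w ≠ 0 →
      D.J (aff k (B ⧸ Ideal.span {w})) := by
    intro B _ _ _ _ hd he w hw
    have h1 := ringKrullDim_quotient_succ_le_of_nonZeroDivisor (mem_nonZeroDivisors_of_ne_zero hw)
    refine ih _ ((ringKrullDim_quotient_le _).trans hd) ?_
    have h2 := h1.trans_lt he
    by_contra h3
    rw [not_lt] at h3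
    have h4 : (e : WithBot ℕ∞) + 1 ≤ ringKrullDim (B ⧸ Ideal.span {w}) + 1 := by gcongr
    have h5 : ((e + 1 : ℕ) : WithBot ℕ∞) = (e : WithBot ℕ∞) + 1 := by push_cast; rfl
    rw [h5] at h2
    exact absurd h2 (not_lt.mpr h4)
  -- surjectivity in degree `2n + 1`
  have hS : ∀ (B : Type) [CommRing B] [IsDomain B] [Algebra k B] [Algebra.FiniteType k B]
      (_ : ringKrullDim B ≤ d) (_ : ringKrullDim B < (e + 1 : ℕ)) (n : ℤ),
      Function.Surjective (D.toCmp.c (2 * n + 1) n (aff k B)).hom := by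
    intro B _ _ _ _ hd he n v
    have hlow : ∀ X : Sch k, FT True X → DimLE X (2 * n + 1 - n) → D.SurAt (2 * n + 1) n X := by
      intro X hX h
      refine hD.units X hX n ?_
      rwa [show 2 * n + 1 - n = n + 1 by ring] at h
    obtain ⟨w, hw, x, hx⟩ := basic_sur hD hlow (hQ1 n) hd v.1 v.2
    obtain ⟨L, hb, hb'⟩ := basic_ladder hD w n
    obtain ⟨a, -, c⟩ := hZ B hd he w hw n
    refine lift_elt L v x (Subtype.ext ?_) c a
    rw [hb']
    exact hx
  intro n
  have hneg : ∀ w : B, Function.Surjective ((D.rM (2 * n) n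
      (affMap (IsScalarTower.toAlgHom k B (Localization.Away w)))).hom) := by
    intro w
    obtain ⟨L, hb, -⟩ := basic_ladder hD w n
    rw [← hb]
    exact sur_b L.L n (hD.nonneg _ (ft_aff True) _ n (by omega))
  refine ⟨?_, ?_, hS B hd he n⟩
  · -- injectivity in degree `2n`
    by_cases hdim : DimLE (aff k B) n
    · exact (inj_iff _ _ _).mp (hD.low _ (ft_aff True) n hdim).1
    · rw [injective_iff_map_eq_zero]
      intro z hz
      have hI : IsIntegral (aff k B).left := inferInstanceAs (IsIntegral (Spec (.of B)))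
      obtain ⟨U, j, hj, hj0⟩ := hD.fields (aff k B) (ft_aff True) hI (2 * n) n
        (by rwa [show 2 * n - n = n by ring]) z
      obtain ⟨w, g, hw, hg, hgj⟩ := exists_basic j hj
      obtain ⟨L, hb, -⟩ := basic_ladder hD w n
      have hr : (L.L.b (2 * n)).hom z = 0 := by
        rw [hb, ← hgj]
        have h1 : (D.rM (2 * n) n (g ≫ j)).hom z = (D.rM (2 * n) n g).hom ((D.rM (2 * n) n j).hom z) :=
          congrArg (fun f => f.hom z) (hD.comp g j (ft_aff True) hg hj.1 (2 * n) n).1
        exact h1.trans ((congrArg (fun t => (D.rM (2 * n) n g).hom t) hj0).trans (map_zero _))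
      have hwd : IsDomain (Localization.Away w) := IsLocalization.isDomain_localization
        (powers_le_nonZeroDivisors_of_noZeroDivisors hw)
      exact inj_elt L z hz hr (hS _ ((dim_away w).trans hd) ((dim_away w).trans_lt he) n)
        (hZ B hd he w hw n).1
  · -- surjectivity in degree `2n`
    intro v
    have hlow : ∀ X : Sch k, FT True X → DimLE X (2 * n - n) → D.SurAt (2 * n) n X := by
      intro X hX h
      refine (hD.low X hX n ?_).2
      rwa [show 2 * n - n = n by ring] at h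
    obtain ⟨w, hw, x, hx⟩ := basic_sur hD hlow (hQ0 n) hd v.1 v.2
    obtain ⟨L, hb, hb'⟩ := basic_ladder hD w n
    refine lift_elt' L ?_ v x (Subtype.ext ?_) (hZ B hd he w hw n).2.1
    · rw [hb]
      exact hneg w
    · rw [hb']
      exact hx

/-- all affine schemes of dimension less than `e` -/
theorem j_affine (e : ℕ) : ∀ (A : Type) [CommRing A] [Algebra k A] [Algebra.FiniteType k A],
    ringKrullDim A ≤ d → ringKrullDim A < e → D.J (aff k A) := by
  have hempty : ∀ (B : Type) [CommRing B] [Algebra k B], Subsingleton B → D.J (aff k B) := by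
    intro B _ _ hB n
    have h0 : IsEmpty (aff k B).left := by
      change IsEmpty (PrimeSpectrum B)
      infer_instance
    have h1 := fun i => (isCmp_tate hD.toIsTate).empty (aff k B) h0 i n
    refine ⟨fun _ _ _ => ?_, fun v => ⟨0, ?_⟩, fun v => ⟨0, ?_⟩⟩
    · have := (h1 (2 * n)).1
      exact Subsingleton.elim _ _
    · have := (h1 (2 * n)).2
      exact Subsingleton.elim _ _
    · have := (h1 (2 * n + 1)).2
      exact Subsingleton.elim _ _
  induction e with
  | zero =>
    intro A _ _ _ _ h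
    refine hempty A ?_
    by_contra hA
    rw [not_subsingleton_iff_nontrivial] at hA
    exact absurd h (not_lt.mpr (by
      rw [Nat.cast_zero]
      exact ringKrullDim_nonneg_of_nontrivial))
  | succ e ih =>
    intro A _ _ _ hd he
    refine cnoeth (clo_J hD) (fun B _ _ hB => hempty B hB) fun p hp => ⟨1, one_ne_zero, ?_⟩
    have h1 := j_step hD hQ0 hQ1 e ih (A ⧸ p) ((ringKrullDim_quotient_le p).trans hd)
      ((ringKrullDim_quotient_le p).trans_lt he)
    have h2 : IsLocalization.Away (1 : A ⧸ p) (A ⧸ p) := IsLocalization.away_of_isUnit_of_bijective _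
      isUnit_one Function.bijective_id
    let e' : (A ⧸ p) ≃ₐ[A ⧸ p] Localization.Away (1 : A ⧸ p) :=
      IsLocalization.algEquiv (Submonoid.powers (1 : A ⧸ p)) (A ⧸ p) _
    exact clo_alg (clo_J hD) (e'.restrictScalars k) h1

/-- From function fields of transcendence degree at most `d` to schemes of dimension at most `d`. -/
theorem j_of_fields (X : Sch k) (hX : FT True X) (hd : topologicalKrullDim X.left ≤ d) : D.J X := by
  refine of_affine' (P := fun X => topologicalKrullDim X.left ≤ d → D.J X) (sep := True) ?_ ?_ ?_ X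
    hX hd
  · intro X Y hX e hPX hY
    refine (clo_J hD).iso hX e (hPX ?_)
    obtain ⟨e⟩ := e
    let f := (Over.forget _).mapIso e
    exact (Topology.IsInducing.topologicalKrullDim_le
      (Scheme.homeoOfIso f).isInducing).trans hY
  · intro Z X U i j hX ht hZ hU hn
    refine (clo_J hD).total i j hX ht (hZ ?_) (hU ?_)
    · have h1 := (have := ht.closed; i.left.isClosedEmbedding.isInducing)
      exact h1.topologicalKrullDim_le.trans hn
    · have h1 := (have := ht.opened; j.left.isOpenEmbedding.isInducing)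
      exact h1.topologicalKrullDim_le.trans hn
  · intro A _ _ _ hA
    rw [topDim_aff] at hA
    obtain ⟨m, f, hf⟩ := Algebra.FiniteType.iff_quotient_mvPolynomial''.mp
      (inferInstance : Algebra.FiniteType k A)
    have h1 : ringKrullDim A ≤ ringKrullDim (MvPolynomial (Fin m) k) :=
      ringKrullDim_le_of_surjective f.toRingHom hf
    have h2 : ringKrullDim (MvPolynomial (Fin m) k) < ((m + 1 : ℕ) : WithBot ℕ∞) := by
      rw [MvPolynomial.ringKrullDim_of_isNoetherianRing, ringKrullDim_eq_zero_of_field, zero_add,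
        Nat.card_eq_fintype_card, Fintype.card_fin]
      exact_mod_cast Nat.lt_succ_self m
    exact j_affine hD hQ0 hQ1 (m + 1) A hA (h1.trans_lt h2)

end Pool.Agent.Helper11U
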