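import Pool.Agent.Helper11U.Field

/-!
# From function fields to schemes
-/

set_option autoImplicit false

open CategoryTheory CategoryTheory.Limits AlgebraicGeometry MvPolynomial
open Pool.Agent.Y116.UV Pool.Agent.Z125.UN Pool.Agent.Q282.UK Pool.Agent.Q282.UZ

namespace Pool.Agent.Helper11U

universe w w'

variable {k : Type} [Field k] {E : Type w'} [Field E]

section lin

variable {A B A' B' : ModuleCat.{w} E} {c : A ⟶ B} {c' : A' ⟶ B'}

lemma sur_summand (h : SummandMap c c') (hc : Function.Surjective c'.hom) :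
    Function.Surjective c.hom := by
  obtain ⟨s, r, s', r', h1, h2, h3, h4⟩ := h
  intro y
  obtain ⟨x, hx⟩ := hc (s'.hom y)
  refine ⟨r.hom x, ?_⟩
  have e1 : c.hom (r.hom x) = r'.hom (c'.hom x) := congrArg (fun g => g.hom x) h4
  rw [e1, hx]
  exact congrArg (fun g => g.hom y) h2

lemma inj_summand (h : SummandMap c c') (hc : Function.Injective c'.hom) :
    Function.Injective c.hom := by
  obtain ⟨s, r, s', r', h1, h2, h3, h4⟩ := h
  intro x y hxy
  have e1 : ∀ x, c'.hom (s.hom x) = s'.hom (c.hom x) := fun x => congrArg (fun g => g.hom x) h3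
  have e2 : s.hom x = s.hom y := hc (by rw [e1, e1, hxy])
  have e3 : ∀ x, r.hom (s.hom x) = x := fun x => congrArg (fun g => g.hom x) h1
  rw [← e3 x, e2, e3]

end lin

variable {D : FieldThy.{w} k E}

lemma gen_subsingleton {V : ModuleCat.{w} E} (φ : V ⟶ V) (h : ∀ v, φ.hom v = v → v = 0) :
    Subsingleton (gn φ) := by
  have key : ∀ (r : ℕ) (v : V), ((φ.hom - 1) ^ r) v = 0 → v = 0 := by
    intro r
    induction r with
    | zero => exact fun v hv => hv
    | succ r ih =>
      intro v hv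
      rw [pow_succ, Module.End.mul_apply] at hv
      exact h v (sub_eq_zero.mp (ih _ hv))
  refine ⟨fun x y => Subtype.ext ?_⟩
  obtain ⟨r, hr⟩ := x.2
  obtain ⟨t, ht⟩ := y.2
  rw [key r _ hr, key t _ ht]

/-- the closure properties of `J` -/
theorem clo_J (hD : IsFieldThy D) : Clo True D.J where
  iso hX e h n := by
    have h1 := fun i => summand_of_same (same_symm (same_cmp (hD.iso hX e i n)))
    obtain ⟨a, b, c⟩ := h n
    exact ⟨inj_summand (h1 _) a, sur_summand (h1 _) b, sur_summand (h1 _) c⟩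
  total i j hX ht hZ hU n := by
    obtain ⟨L⟩ := (isCmp_tate hD.toIsTate).ladder i j hX ht n
    obtain ⟨a, b, c⟩ := hZ n
    obtain ⟨a', b', c'⟩ := hU n
    have hb := sur_b L.L n (hD.nonneg _ (ft_closed i ht.closed hX) _ n (by omega))
    exact ⟨total_inj L c' a a', total_sur' L hb b b', total_sur L c c' a⟩
  opened i j hX ht hZ hX' n := by
    obtain ⟨L⟩ := (isCmp_tate hD.toIsTate).ladder i j hX ht n
    obtain ⟨a, b, c⟩ := hZ n
    obtain ⟨a', b', c'⟩ := hX' n
    have hZ' := ft_closed i ht.closed hX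
    have hb := sur_b L.L n (hD.nonneg _ hZ' _ n (by omega))
    have hb' := sur_b L.L' n (gen_subsingleton _ (hD.weights _ hZ' (2 * n - 1) n (by omega)))
    exact ⟨open_inj L hb b a', open_sur' L hb' b', open_sur L c' b a'⟩
  torus A _ _ _ h n := by
    obtain ⟨a, b, c⟩ := h (n + 1)
    have e1 : 2 * (n + 1) = 2 * n + 2 := by ring
    have e2 : 2 * n + 2 + 1 = 2 * n + 1 + 2 := by ring
    rw [e1] at a b c
    rw [e2] at c
    have h1 := fun i => summand_cmp (hD.torus A i n)
    exact ⟨inj_summand (h1 _) a, sur_summand (h1 _) b, sur_summand (h1 _) c⟩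

section opens

lemma isOpn_comp {V U X : Sch k} {g : V ⟶ U} {j : U ⟶ X} (hg : IsOpn g) (hj : IsOpn j) :
    IsOpn (g ≫ j) := by
  obtain ⟨h1, h2⟩ := hg
  obtain ⟨h3, -⟩ := hj
  refine ⟨?_, h2⟩
  rw [Over.comp_left]
  infer_instance

lemma isOpn_id {X : Sch k} (h : Nonempty X.left) : IsOpn (𝟙 X) :=
  ⟨by rw [Over.id_left]; infer_instance, h⟩

lemma integral_opn {U X : Sch k} (j : U ⟶ X) (hj : IsOpn j) (hX : IsIntegral X.left) :
    IsIntegral U.left := by
  obtain ⟨h1, h2⟩ := hj
  exact isIntegral_of_isOpenImmersion j.left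

lemma dim_opn {U X : Sch k} (j : U ⟶ X) (hj : IsOpn j) :
    topologicalKrullDim U.left ≤ topologicalKrullDim X.left :=
  have := hj.1
  (j.left.isOpenEmbedding.isInducing).topologicalKrullDim_le

/-- Every non-empty open subscheme of an integral affine scheme contains a non-empty basic open
subscheme. -/
lemma exists_basic {B : Type} [CommRing B] [Algebra k B] {U : Sch k} (j : U ⟶ aff k B)
    (hj : IsOpn j) : ∃ (w : B) (g : aff k (Localization.Away w) ⟶ U), w ≠ 0 ∧
      IsOpenImmersion g.left ∧ g ≫ j = affMap (IsScalarTower.toAlgHom k B (Localization.Away w)) := by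
  obtain ⟨h1, ⟨x⟩⟩ := hj
  have hopen : IsOpen (Set.range j.left) := j.left.isOpenEmbedding.isOpen_range
  have hx : j.left x ∈ Set.range j.left := ⟨x, rfl⟩
  obtain ⟨_, ⟨_, ⟨w, rfl⟩, rfl⟩, hw1, hw2⟩ :=
    PrimeSpectrum.isBasis_basic_opens.exists_subset_of_mem_open hx hopen
  let f := affMap (IsScalarTower.toAlgHom k B (Localization.Away w))
  have hf : IsOpenImmersion f.left :=
    Scheme.isOpenImmersion_SpecMap_localizationAway (R := .of B) w
  have hr : Set.range f.left ⊆ Set.range j.left := by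
    have h : Set.range f.left = (PrimeSpectrum.basicOpen w : Set (PrimeSpectrum B)) :=
      PrimeSpectrum.localization_away_comap_range _ w
    rw [h]
    exact hw2
  let g : (aff k (Localization.Away w)).left ⟶ U.left := IsOpenImmersion.lift j.left f.left hr
  have hg : g ≫ j.left = f.left := IsOpenImmersion.lift_fac j.left f.left hr
  have hw : g ≫ U.hom = (aff k (Localization.Away w)).hom := by
    rw [← Over.w j, ← Category.assoc, hg, Over.w f]
  refine ⟨w, Over.homMk g hw, ?_, ?_, ?_⟩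
  · rintro rfl
    rw [PrimeSpectrum.basicOpen_zero] at hw1
    exact hw1
  · change IsOpenImmersion g
    have h2 : IsOpenImmersion (g ≫ j.left) := by
      rw [hg]
      exact hf
    exact IsOpenImmersion.of_comp g j.left
  · ext1
    exact hg

end opens

/-- Every invariant class, and every class in the generalized eigenspace, becomes algebraic on a
non-empty open subscheme. -/
theorem gen_sur (hD : IsFieldThy D) {d : WithBot ℕ∞} {i n : ℤ}
    (hlow : ∀ X : Sch k, FT True X → DimLE X (i - n) → D.SurAt i n X) (hQ : D.Question d i n)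
    (r : ℕ) : ∀ X : Sch k, FT True X → IsIntegral X.left → topologicalKrullDim X.left ≤ d →
      ∀ v : D.H i n X, (((D.F i n X).hom - 1) ^ r) v = 0 → ∃ (U : Sch k) (j : U ⟶ X), IsOpn j ∧
        ∃ x : D.M i n U, (D.cl i n U).hom x = (D.rH i n j).hom v := by
  induction r with
  | zero =>
    intro X _ hI _ v hv
    have hv0 : v = 0 := hv
    refine ⟨X, 𝟙 X, isOpn_id inferInstance, 0, ?_⟩
    rw [hv0, map_zero, map_zero]
  | succ r ih =>
    intro X hX hI hd v hv
    have hu : (D.F i n X).hom ((((D.F i n X).hom - 1) ^ r) v) = (((D.F i n X).hom - 1) ^ r) v := by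
      rw [pow_succ', Module.End.mul_apply, LinearMap.sub_apply, Module.End.one_apply,
        sub_eq_zero] at hv
      exact hv
    obtain ⟨U₁, j₁, ho₁, x₁, hx₁⟩ := hQ X hX hI hd _ hu
    have hU₁ := ft_open j₁ ho₁.1 hX
    have nat₁ : ∀ v, (D.F i n U₁).hom ((D.rH i n j₁).hom v) = (D.rH i n j₁).hom ((D.F i n X).hom v) :=
      fun v => congrArg (fun g => g.hom v) (hD.nat j₁ hX ho₁.1 i n).2
    by_cases hdim : DimLE U₁ (i - n)
    · obtain ⟨x, hx⟩ := hlow U₁ hU₁ hdim ((D.rH i n j₁).hom v) (gen1_map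
        (comm_hom (hD.nat j₁ hX ho₁.1 i n).2) ⟨r + 1, hv⟩)
      exact ⟨U₁, j₁, ho₁, x, hx⟩
    · obtain ⟨U₂, j₂, ho₂, hx₂⟩ := hD.fields U₁ hU₁ (integral_opn j₁ ho₁ hI) i n hdim x₁
      have ho := isOpn_comp ho₂ ho₁
      have hcomp : ∀ v, (D.rH i n (j₂ ≫ j₁)).hom v = (D.rH i n j₂).hom ((D.rH i n j₁).hom v) :=
        fun v => congrArg (fun g => g.hom v) (hD.comp j₂ j₁ hX ho₂.1 ho₁.1 i n).2
      have h3 : (((D.F i n U₂).hom - 1) ^ r) ((D.rH i n (j₂ ≫ j₁)).hom v) = 0 := by
        rw [← comm_pow (comm_hom (hD.nat (j₂ ≫ j₁) hX ho.1 i n).2), hcomp, ← hx₁]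
        have h4 : (D.cl i n U₂).hom ((D.rM i n j₂).hom x₁) =
            (D.rH i n j₂).hom ((D.cl i n U₁).hom x₁) :=
          congrArg (fun g => g.hom x₁) (hD.nat j₂ hU₁ ho₂.1 i n).1
        rw [← h4, hx₂, map_zero]
      obtain ⟨U₃, j₃, ho₃, x₃, hx₃⟩ := ih U₂ (ft_open _ ho.1 hX) (integral_opn _ ho hI)
        ((dim_opn _ ho).trans hd) _ h3
      refine ⟨U₃, j₃ ≫ (j₂ ≫ j₁), isOpn_comp ho₃ ho, x₃, ?_⟩
      rw [hx₃]
      exact (congrArg (fun g => g.hom v) (hD.comp j₃ (j₂ ≫ j₁) hX ho₃.1 ho.1 i n).2).symm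

end Pool.Agent.Helper11U
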