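import Pool.Agent.Helper11U.Del
import Pool.Agent.Helper11U.Rat

/-!
# Every simple motive over `ℚ` comes from a short cubic hypersurface
-/

set_option autoImplicit false

open CategoryTheory CategoryTheory.Limits AlgebraicGeometry MvPolynomial
open Pool.Agent.Y116.UV Pool.Agent.Z125.UN Pool.Agent.Q282.UK Pool.Agent.Q282.UZ

namespace Pool.Agent.Helper11U

universe v u

section torus

variable (R : Type) [CommRing R]

/-- the hypersurface `z x y = 1` -/
def oneE1 (_ : Fin 1) : Finset (Fin 1 × Fin 1) := {(0, 0)}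

/-- its ring -/
abbrev Tor : Type := Cub R oneE1

/-- the coordinates -/
noncomputable def tv (i : Fin 1 ⊕ (Fin 1 ⊕ Fin 1)) : Tor R := Ideal.Quotient.mk _ (X i)

lemma tv_rel : tv R (Sum.inl 0) * tv R (Sum.inr (Sum.inl 0)) * tv R (Sum.inr (Sum.inr 0)) = 1 := by
  have h0 : (∑ l, ∑ e ∈ oneE1 l, X (Sum.inl l) * X (Sum.inr (Sum.inl e.1)) *
      X (Sum.inr (Sum.inr e.2)) : MvPolynomial (Fin 1 ⊕ (Fin 1 ⊕ Fin 1)) R) =
      X (Sum.inl 0) * X (Sum.inr (Sum.inl 0)) * X (Sum.inr (Sum.inr 0)) := by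
    rw [Fin.sum_univ_one, oneE1, Finset.sum_singleton]
  have h : (Ideal.Quotient.mk _ (∑ l, ∑ e ∈ oneE1 l, X (Sum.inl l) *
      X (Sum.inr (Sum.inl e.1)) * X (Sum.inr (Sum.inr e.2)) -
      (1 : MvPolynomial (Fin 1 ⊕ (Fin 1 ⊕ Fin 1)) R)) : Tor R) = 0 :=
    Ideal.Quotient.eq_zero_iff_mem.mpr (Ideal.mem_span_singleton_self _)
  rw [map_sub, map_one, sub_eq_zero] at h
  exact (congrArg (fun p => (Ideal.Quotient.mk _ p : Tor R)) h0).symm.trans h

/-- the Laurent polynomials in two variables -/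
abbrev L2 : Type := LaurentPolynomial (LaurentPolynomial R)

/-- the values of the coordinates -/
noncomputable def lv : Fin 1 ⊕ (Fin 1 ⊕ Fin 1) → L2 R :=
  Sum.elim (fun _ => LaurentPolynomial.T (-1) * LaurentPolynomial.C (LaurentPolynomial.T (-1)))
    (Sum.elim (fun _ => LaurentPolynomial.T 1) fun _ => LaurentPolynomial.C (LaurentPolynomial.T 1))

lemma lv_rel : lv R (Sum.inl 0) * lv R (Sum.inr (Sum.inl 0)) * lv R (Sum.inr (Sum.inr 0)) = 1 := by
  change LaurentPolynomial.T (-1) * LaurentPolynomial.C (LaurentPolynomial.T (-1)) *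
    LaurentPolynomial.T 1 * LaurentPolynomial.C (LaurentPolynomial.T 1) = (1 : L2 R)
  have h1 : (LaurentPolynomial.T (-1) * LaurentPolynomial.T 1 : L2 R) = 1 := by
    rw [← LaurentPolynomial.T_add]
    exact LaurentPolynomial.T_zero
  have h2 : (LaurentPolynomial.C (LaurentPolynomial.T (-1)) *
      LaurentPolynomial.C (LaurentPolynomial.T 1) : L2 R) = 1 := by
    rw [← map_mul, ← LaurentPolynomial.T_add]
    have : (LaurentPolynomial.T (-1 + 1) : LaurentPolynomial R) = 1 := LaurentPolynomial.T_zero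
    rw [this, map_one]
  linear_combination h1 * (LaurentPolynomial.C (LaurentPolynomial.T (-1)) *
    LaurentPolynomial.C (LaurentPolynomial.T 1) : L2 R) + h2

/-- to the Laurent polynomials -/
noncomputable def tF : Tor R →ₐ[R] L2 R :=
  Ideal.Quotient.liftₐ _ (aeval (lv R)) (by
    intro a ha
    refine (Ideal.span_le.mpr ?_ : _ ≤ RingHom.ker (aeval (R := R) (lv R))) ha
    rintro _ rfl
    change aeval (lv R) _ = 0
    rw [map_sub, map_one, sub_eq_zero, Fin.sum_univ_one, oneE1, Finset.sum_singleton, map_mul,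
      map_mul, aeval_X, aeval_X, aeval_X]
    exact lv_rel R)

lemma tF_tv (i : Fin 1 ⊕ (Fin 1 ⊕ Fin 1)) : tF R (tv R i) = lv R i := by
  change aeval (lv R) (X i) = _
  rw [aeval_X]

/-- the coordinate `x` -/
noncomputable def ux : (Tor R)ˣ :=
  Units.mkOfMulEqOne (tv R (Sum.inr (Sum.inl 0)))
    (tv R (Sum.inl 0) * tv R (Sum.inr (Sum.inr 0))) (by
      linear_combination tv_rel R)

/-- the coordinate `y` -/
noncomputable def uy : (Tor R)ˣ :=
  Units.mkOfMulEqOne (tv R (Sum.inr (Sum.inr 0)))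
    (tv R (Sum.inl 0) * tv R (Sum.inr (Sum.inl 0))) (by
      linear_combination tv_rel R)

/-- from the Laurent polynomials in one variable -/
noncomputable def tG1 : LaurentPolynomial R →+* Tor R :=
  LaurentPolynomial.eval₂ (algebraMap R (Tor R)) (uy R)

/-- from the Laurent polynomials -/
noncomputable def tG : L2 R →+* Tor R := LaurentPolynomial.eval₂ (tG1 R) (ux R)

lemma tG_C (p : LaurentPolynomial R) : tG R (LaurentPolynomial.C p) = tG1 R p := by
  rw [tG, LaurentPolynomial.eval₂_C]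

lemma tG_T : tG R (LaurentPolynomial.T 1) = tv R (Sum.inr (Sum.inl 0)) := by
  rw [tG, LaurentPolynomial.eval₂_T, zpow_one]
  rfl

lemma tG_T' : tG R (LaurentPolynomial.T (-1)) = tv R (Sum.inl 0) * tv R (Sum.inr (Sum.inr 0)) := by
  rw [tG, LaurentPolynomial.eval₂_T, zpow_neg_one]
  rfl

lemma tG1_C (r : R) : tG1 R (LaurentPolynomial.C r) = algebraMap R (Tor R) r := by
  rw [tG1, LaurentPolynomial.eval₂_C]

lemma tG1_T : tG1 R (LaurentPolynomial.T 1) = tv R (Sum.inr (Sum.inr 0)) := by
  rw [tG1, LaurentPolynomial.eval₂_T, zpow_one]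
  rfl

lemma tG1_T' : tG1 R (LaurentPolynomial.T (-1)) =
    tv R (Sum.inl 0) * tv R (Sum.inr (Sum.inl 0)) := by
  rw [tG1, LaurentPolynomial.eval₂_T, zpow_neg_one]
  rfl

lemma tF_tG : (tF R).toRingHom.comp (tG R) = RingHom.id _ := by
  apply laurent_hom_ext
  · intro p
    change tF R (tG R (LaurentPolynomial.C p)) = LaurentPolynomial.C p
    rw [tG_C]
    have h : (tF R).toRingHom.comp (tG1 R) = LaurentPolynomial.C := by
      apply laurent_hom_ext
      · intro r
        change tF R (tG1 R (LaurentPolynomial.C r)) = LaurentPolynomial.C (LaurentPolynomial.C r)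
        rw [tG1_C, AlgHom.commutes]
        rfl
      · change tF R (tG1 R (LaurentPolynomial.T 1)) = LaurentPolynomial.C (LaurentPolynomial.T 1)
        rw [tG1_T, tF_tv]
        rfl
    exact congrArg (fun f : LaurentPolynomial R →+* L2 R => f p) h
  · change tF R (tG R (LaurentPolynomial.T 1)) = LaurentPolynomial.T 1
    rw [tG_T, tF_tv]
    rfl

lemma tG_tF (a : Tor R) : tG R (tF R a) = a := by
  obtain ⟨p, rfl⟩ := Ideal.Quotient.mk_surjective a
  have h : ((tG R).comp (tF R).toRingHom).comp (Ideal.Quotient.mk _) =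
      Ideal.Quotient.mk (Ideal.span {∑ l, ∑ e ∈ oneE1 l, X (Sum.inl l) *
      X (Sum.inr (Sum.inl e.1)) * X (Sum.inr (Sum.inr e.2)) -
      (1 : MvPolynomial (Fin 1 ⊕ (Fin 1 ⊕ Fin 1)) R)}) := by
    apply MvPolynomial.ringHom_ext
    · intro r
      change tG R (tF R (algebraMap R (Tor R) r)) = algebraMap R (Tor R) r
      rw [AlgHom.commutes]
      change tG R (LaurentPolynomial.C (LaurentPolynomial.C r)) = _
      rw [tG_C, tG1_C]
    · intro i
      change tG R (tF R (tv R i)) = tv R i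
      rw [tF_tv]
      rcases i with i | i | i
      · rw [Subsingleton.elim i 0]
        change tG R (LaurentPolynomial.T (-1) * LaurentPolynomial.C (LaurentPolynomial.T (-1))) = _
        rw [map_mul, tG_C, tG_T', tG1_T']
        linear_combination (tv R (Sum.inl 0)) * tv_rel R
      · rw [Subsingleton.elim i 0]
        exact tG_T R
      · rw [Subsingleton.elim i 0]
        change tG R (LaurentPolynomial.C (LaurentPolynomial.T 1)) = _
        rw [tG_C, tG1_T]
  exact congrArg (fun f : MvPolynomial (Fin 1 ⊕ (Fin 1 ⊕ Fin 1)) R →+* Tor R => f p) h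

/-- The hypersurface `z x y = 1` is a torus. -/
noncomputable def torE : Tor R ≃ₐ[R] L2 R :=
  AlgEquiv.ofBijective (tF R) ⟨fun x y h => by rw [← tG_tF R x, h, tG_tF], fun x =>
    ⟨tG R x, congrArg (fun f : L2 R →+* L2 R => f x) (tF_tG R)⟩⟩

end torus

section

variable {k : Type} [Field k] {C : Type u} [Category.{v} C] [Abelian C]

/-- Some twist `P(-n)` of `P` is a direct summand of a twist of a graded piece of the cohomology with
compact support of a hypersurface `∑_l z_l ∑_{(i, j) ∈ E_l} x_i y_j = 1`, for sets `E_l` of at most three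
pairs. -/
def IsFrom (D : GrThy k C) (P : C) : Prop :=
  ∃ (a b c : ℕ) (E : Fin c → Finset (Fin a × Fin b)) (i w : ℤ) (n m : ℕ),
    (∀ l, (E l).card ≤ 3) ∧ IsSummand (D.T^[n] P) (D.T^[m] (D.G i w (cubS k E)))

variable {D : GrThy k C} (hD : IsGrThy D)
  (hT : ∃ F : C ≌ C, ∀ A, Nonempty (D.T A ≅ F.functor.obj A))

include hT

lemma summand_T {A B : C} (h : IsSummand A B) : IsSummand (D.T A) (D.T B) := by
  obtain ⟨F, hF⟩ := hT
  obtain ⟨eA⟩ := hF A
  obtain ⟨eB⟩ := hF B
  exact (IsSummand.of_iso eA).trans ((h.map F.functor).trans (IsSummand.of_iso eB.symm))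

lemma summand_iter {A B : C} (h : IsSummand A B) (n : ℕ) :
    IsSummand (D.T^[n] A) (D.T^[n] B) := by
  induction n with
  | zero => exact h
  | succ n ih =>
    rw [Function.iterate_succ_apply', Function.iterate_succ_apply']
    exact summand_T hT ih

lemma isFrom_iso {A B : C} (e : A ≅ B) (h : IsFrom D A) : IsFrom D B := by
  obtain ⟨a, b, c, E, i, w, n, m, hE, h⟩ := h
  exact ⟨a, b, c, E, i, w, n, m, hE, (summand_iter hT (IsSummand.of_iso e.symm) n).trans h⟩

lemma isFrom_T (A : C) : IsFrom D (D.T A) ↔ IsFrom D A := by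
  constructor
  · rintro ⟨a, b, c, E, i, w, n, m, hE, h⟩
    exact ⟨a, b, c, E, i, w, n + 1, m, hE, by rwa [Function.iterate_succ_apply]⟩
  · rintro ⟨a, b, c, E, i, w, n, m, hE, h⟩
    refine ⟨a, b, c, E, i, w, n, m + 1, hE, ?_⟩
    rw [← Function.iterate_succ_apply, Function.iterate_succ_apply', Function.iterate_succ_apply']
    exact summand_T hT h

include hD

lemma isFrom_point (i w : ℤ) : AllSimple (IsFrom D) (D.G i w (aff k k)) := by
  intro P hP hPG
  obtain ⟨s, r, hsr⟩ := hD.torus k i w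
  have h2 : Algebra.FiniteType k (LaurentPolynomial k) := ft_laurent k
  obtain ⟨s', r', hsr'⟩ := hD.torus (LaurentPolynomial k) (i + 2) (w + 2)
  obtain ⟨e⟩ := hD.iso (ft_aff (R := k) (A := L2 k) (h := ft_laurent _) True)
    ⟨affIso (torE k)⟩ (i + 2 + 2) (w + 2 + 2)
  refine ⟨1, 1, 1, oneE1, i + 2 + 2, w + 2 + 2, 2, 0, fun _ => by rw [oneE1, Finset.card_singleton]; omega, ?_⟩
  have h3 : IsSummand (D.T (D.T P)) (D.T (D.T (D.G i w (aff k k)))) :=
    summand_T hT (summand_T hT hPG)
  have h4 : IsSummand (D.T (D.T (D.G i w (aff k k))))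
      (D.T (D.G (i + 2) (w + 2) (aff k (LaurentPolynomial k)))) := summand_T hT ⟨s, r, hsr⟩
  exact (h3.trans h4).trans (IsSummand.trans ⟨s', r', hsr'⟩ (IsSummand.of_iso e))

/-- **Universality.** If all algebras of finite type over `k` have presentations by sums of at most three
monomials, then all simple summands of the graded pieces of the cohomology with compact support of all
separated schemes of finite type come from the short cubic hypersurfaces. -/
theorem isFrom_all (hk : ShortPresents k) (X : Sch k) (hX : FT True X) (i w : ℤ) :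
    AllSimple (IsFrom D) (D.G i w X) := by
  have hS : IsAdd D.T (AllSimple (IsFrom D)) :=
    isAdd_allSimple hD.semisimple hT (fun e h => isFrom_iso hT e h) (isFrom_T hT)
  have hB := bnd_gr hD hS (isFrom_point hD hT)
  refine (short_iff hk hB).mpr ?_ X hX i w
  intro a b c E hE i w P _ hPG
  exact ⟨a, b, c, E, i, w, 0, 0, hE, hPG⟩

end

end Pool.Agent.Helper11U
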