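import Pool.Agent.Helper11U.Cmp

/-!
# Generalized eigenspaces for the eigenvalue one
-/

set_option autoImplicit false

open CategoryTheory CategoryTheory.Limits

namespace Pool.Agent.Helper11U

universe w w'

section lin

variable {E : Type w'} [Field E] {A B C : Type w} [AddCommGroup A] [AddCommGroup B]
  [AddCommGroup C] [Module E A] [Module E B] [Module E C] {φ : A →ₗ[E] A} {ψ : B →ₗ[E] B}
  {χ : C →ₗ[E] C}

/-- The generalized eigenspace of the eigenvalue one. -/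
def gen1 (φ : A →ₗ[E] A) : Submodule E A where
  carrier := {v | ∃ m : ℕ, ((φ - 1) ^ m) v = 0}
  add_mem' := by
    rintro v w ⟨m, hm⟩ ⟨n, hn⟩
    have h1 : ((φ - 1) ^ (m + n)) v = 0 := by
      rw [add_comm, pow_add, Module.End.mul_apply, hm, map_zero]
    have h2 : ((φ - 1) ^ (m + n)) w = 0 := by
      rw [pow_add, Module.End.mul_apply, hn, map_zero]
    exact ⟨m + n, by rw [map_add, h1, h2, add_zero]⟩
  zero_mem' := ⟨0, map_zero _⟩
  smul_mem' := by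
    rintro c v ⟨m, hm⟩
    exact ⟨m, by rw [map_smul, hm, smul_zero]⟩

lemma mem_gen1 {v : A} : v ∈ gen1 φ ↔ ∃ m : ℕ, ((φ - 1) ^ m) v = 0 := Iff.rfl

lemma comm_sub {f : A →ₗ[E] B} (h : f ∘ₗ φ = ψ ∘ₗ f) : f ∘ₗ (φ - 1) = (ψ - 1) ∘ₗ f := by
  rw [LinearMap.comp_sub, LinearMap.sub_comp, h]
  rfl

lemma comm_pow {f : A →ₗ[E] B} (h : f ∘ₗ φ = ψ ∘ₗ f) (m : ℕ) (v : A) :
    f (((φ - 1) ^ m) v) = ((ψ - 1) ^ m) (f v) := by
  induction m generalizing v with
  | zero => rfl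
  | succ m ih =>
    rw [pow_succ, pow_succ, Module.End.mul_apply, Module.End.mul_apply, ih]
    congr 1
    exact LinearMap.congr_fun (comm_sub h) v

lemma gen1_map {f : A →ₗ[E] B} (h : f ∘ₗ φ = ψ ∘ₗ f) {v : A} (hv : v ∈ gen1 φ) : f v ∈ gen1 ψ := by
  obtain ⟨m, hm⟩ := hv
  exact ⟨m, by rw [← comm_pow h, hm, map_zero]⟩

lemma gen1_fixed {v : A} (h : φ v = v) : v ∈ gen1 φ :=
  ⟨1, by rw [pow_one, LinearMap.sub_apply, h, Module.End.one_apply, sub_self]⟩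

/-- Taking the generalized eigenspace is exact for finite-dimensional vector spaces. -/
lemma gen1_exact [Module.Finite E A] [Module.Finite E B] {f : A →ₗ[E] B} {g : B →ₗ[E] C}
    (hf : f ∘ₗ φ = ψ ∘ₗ f) (h : Function.Exact f g) {b : B} (hb : b ∈ gen1 ψ) (hg : g b = 0) :
    ∃ a ∈ gen1 φ, f a = b := by
  obtain ⟨a, rfl⟩ := (h b).mp hg
  obtain ⟨m₁, h₁⟩ := Filter.eventually_atTop.mp
    (LinearMap.eventually_isCompl_ker_pow_range_pow (φ - 1))
  obtain ⟨m₂, h₂⟩ := Filter.eventually_atTop.mp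
    (LinearMap.eventually_isCompl_ker_pow_range_pow (ψ - 1))
  obtain ⟨m₀, hm₀⟩ := hb
  let m := m₀ + (m₁ + m₂)
  have hA := h₁ m (by omega)
  have hB := h₂ m (by omega)
  have hmem : a ∈ LinearMap.ker ((φ - 1) ^ m) ⊔ LinearMap.range ((φ - 1) ^ m) := by
    rw [hA.sup_eq_top]
    trivial
  obtain ⟨a₁, ha₁, a₂, ⟨a₃, rfl⟩, hsum⟩ := Submodule.mem_sup.mp hmem
  refine ⟨a₁, ⟨m, ha₁⟩, ?_⟩
  have h3 : f (((φ - 1) ^ m) a₃) ∈ LinearMap.ker ((ψ - 1) ^ m) ⊓ LinearMap.range ((ψ - 1) ^ m) := by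
    constructor
    · have h4 : f (((φ - 1) ^ m) a₃) = f a - f a₁ := by
        rw [← hsum, map_add]
        abel
      rw [h4]
      change ((ψ - 1) ^ m) (f a - f a₁) = 0
      rw [map_sub, ← comm_pow hf m a₁, ha₁, map_zero, sub_zero]
      change ((ψ - 1) ^ (m₀ + (m₁ + m₂))) (f a) = 0
      rw [add_comm, pow_add, Module.End.mul_apply, hm₀, map_zero]
    · exact ⟨f a₃, (comm_pow hf m a₃).symm⟩
  rw [hB.inf_eq_bot, Submodule.mem_bot] at h3
  rw [← hsum, map_add, h3, add_zero]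

end lin

end Pool.Agent.Helper11U
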