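import Pool.Agent.Helper11U.Serre

/-!
# Smooth proper schemes of bounded dimension and trilinear forms with a small block
-/

set_option autoImplicit false

open CategoryTheory CategoryTheory.Limits AlgebraicGeometry MvPolynomial
open Pool.Agent.Y116.UV Pool.Agent.Z125.UN Pool.Agent.Q282.UK Pool.Agent.Q282.UZ

namespace Pool.Agent.Helper11U

universe v u

/-- The property `P` of schemes over `k` holds for the total scheme if it holds for a closed subscheme
and its complement, for the complement if it holds for the closed subscheme and the total scheme, and it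
is invariant under isomorphisms. -/
structure ResClosed {k : Type} [Field k] (P : Sch k → Prop) : Prop where
  iso : ∀ {X Y : Sch k}, FT True X → Nonempty (X ≅ Y) → P X → P Y
  total : ∀ {Z X U : Sch k} (i : Z ⟶ X) (j : U ⟶ X), FT True X → IsTriple i j → P Z → P U → P X
  opened : ∀ {Z X U : Sch k} (i : Z ⟶ X) (j : U ⟶ X), FT True X → IsTriple i j → P Z → P X → P U

/-- **Resolution of singularities**, in the form of a principle of dévissage (`k` of characteristic
zero, Hironaka): a property with the closure properties `ResClosed` which is true for all smooth proper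
schemes of dimension at most `d` is true for all separated schemes of finite type and dimension at most
`d`. -/
def Resolution (k : Type) [Field k] : Prop :=
  ∀ P : Sch k → Prop, ResClosed P → ∀ d : WithBot ℕ∞,
    (∀ X : Sch k, FT True X → IsProper X.hom → Smooth X.hom → topologicalKrullDim X.left ≤ d → P X) →
    ∀ X : Sch k, FT True X → topologicalKrullDim X.left ≤ d → P X

variable {k : Type} [Field k]

/-- `P` is true for all smooth proper schemes of dimension at most `d`. -/
def ForSmoothProper (P : Sch k → Prop) (d : WithBot ℕ∞) : Prop :=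
  ∀ X : Sch k, FT True X → IsProper X.hom → Smooth X.hom → topologicalKrullDim X.left ≤ d → P X

/-- `P` is true for the hypersurfaces `T(x, y, z) = 1` over `k`, for all trilinear forms `T` such that one
of the three blocks of variables has at most `m` variables. -/
def ForBlock (P : Sch k → Prop) (m : ℕ) : Prop :=
  ∀ (a b c : ℕ) (T : Fin a → Fin b → Fin c → k), (a ≤ m ∨ b ≤ m ∨ c ≤ m) → P (hypS T)

lemma resClosed_of_bnd {P : Sch k → Prop} (h : Bnd True P) : ResClosed P := ⟨h.iso, h.total, h.opened⟩

section

variable {P : Sch k → Prop} (hP : Bnd True P) (hR : Resolution k)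

include hP hR

theorem smoothProper_iff [PerfectField k] (d : ℕ) : ForSmoothProper P d ↔ ForBlock P (d + 2) := by
  have h := dim_block hP d
  constructor
  · intro h1
    exact h.mp (hR P (resClosed_of_bnd hP) d h1)
  · intro h1 X hX _ _ hd
    exact h.mpr h1 X hX hd

theorem smoothProper_all : ForSmoothProper P ⊤ ↔
    ∀ (a b c : ℕ) (T : Fin a → Fin b → Fin c → k), P (hypS T) := by
  constructor
  · intro h a b c T
    exact hR P (resClosed_of_bnd hP) ⊤ h _ (ft_aff True) le_top
  · intro h X hX _ _ _
    exact universal (R := k) (S := Set.univ) hP.toUni trivial trivial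
      (fun a b c T _ => h a b c T) presents_univ X hX

end

section

variable {C : Type u} [Category.{v} C] [Abelian C] {D : GrThy k C}

/-- For smooth proper `X` the object `G i w X` is zero for `w ≠ i`. -/
def IsPure (D : GrThy k C) : Prop :=
  ∀ X : Sch k, FT True X → IsProper X.hom → Smooth X.hom → ∀ i w : ℤ, w ≠ i → IsZero (D.G i w X)

variable (hD : IsGrThy D) (hp : IsPure D) (hR : Resolution k) {S : C → Prop} (hS : IsAdd D.T S)
  (h0 : ∀ i w, S (D.G i w (aff k k)))

include hD hp hR hS h0

/-- Dimension at most `d` and blocks of `d + 2` variables. -/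
theorem class_iff [PerfectField k] (d : ℕ) :
    ForSmoothProper (fun X => ∀ i, S (D.G i i X)) d ↔
      ForBlock (fun X => ∀ i w, S (D.G i w X)) (d + 2) := by
  rw [← smoothProper_iff (bnd_gr hD hS h0) hR d]
  constructor
  · intro h X hX h1 h2 hd i w
    by_cases hw : w = i
    · subst hw
      exact h X hX h1 h2 hd w
    · exact S_zero hS (h0 0 0) (hp X hX h1 h2 i w hw)
  · intro h X hX h1 h2 hd i
    exact h X hX h1 h2 hd i i

theorem class_all : ForSmoothProper (fun X => ∀ i, S (D.G i i X)) ⊤ ↔
    ∀ (a b c : ℕ) (T : Fin a → Fin b → Fin c → k) (i w : ℤ), S (D.G i w (hypS T)) := by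
  rw [← smoothProper_all (bnd_gr hD hS h0) hR]
  constructor
  · intro h X hX h1 h2 hd i w
    by_cases hw : w = i
    · subst hw
      exact h X hX h1 h2 hd w
    · exact S_zero hS (h0 0 0) (hp X hX h1 h2 i w hw)
  · intro h X hX h1 h2 hd i
    exact h X hX h1 h2 hd i i

end

end Pool.Agent.Helper11U
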