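import Pool.Agent.Helper11U.Terms

/-!
# Trilinear forms whose minors have small degree or few terms
-/

set_option autoImplicit false

open CategoryTheory CategoryTheory.Limits AlgebraicGeometry MvPolynomial
open Pool.Agent.Y116.UV Pool.Agent.Z125.UN Pool.Agent.Q282.UK Pool.Agent.Q282.UZ

namespace Pool.Agent.Helper11U

/-- The products of polynomials of degree at most `e` and of polynomials with at most `m` terms. -/
noncomputable def nice (σ R : Type) [CommRing R] (e m : ℕ) : Submonoid (MvPolynomial σ R) :=
  Submonoid.closure {p | p.totalDegree ≤ e ∨ p.support.card ≤ m}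

/-- Every minor of the matrix of linear forms `T(z)_{ij} = ∑_k T_{ijk} z_k` is a product of polynomials of
degree at most `e` and of polynomials with at most `m` terms. -/
def NiceMinors {R : Type} [CommRing R] {α β γ : Type} [Fintype γ] (e m : ℕ) (T : α → β → γ → R) :
    Prop :=
  ∀ (r : ℕ) (I : Fin r → α) (J : Fin r → β),
    (Matrix.of fun i j => linM T (I i) (J j)).det ∈ nice γ R e m

/-- `P` is true for the closed subschemes of the affine spaces of dimension at most `N` all of whose
equations are products of polynomials of degree at most `e` and of polynomials with at most `m`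
terms. -/
def ForNice {R : Type} [CommRing R] (P : Sch R → Prop) (N e m : ℕ) : Prop :=
  ∀ c ≤ N, ∀ (κ : Type) (g : κ → MvPolynomial (Fin c) R), (∀ k, g k ∈ nice (Fin c) R e m) →
    P (aff R (MvPolynomial (Fin c) R ⧸ Ideal.span (Set.range g)))

section

variable {R : Type} [CommRing R] {σ τ : Type}

lemma nice_last {c e m : ℕ} (r : R) {p : MvPolynomial (Fin (c + 1)) R}
    (hp : p ∈ nice (Fin (c + 1)) R e m) :
    aeval (Fin.lastCases (C r) X : Fin (c + 1) → MvPolynomial (Fin c) R) p ∈
      nice (Fin c) R e m := by
  refine (Submonoid.closure_le.mpr ?_ : nice (Fin (c + 1)) R e m ≤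
    (nice (Fin c) R e m).comap ((aeval (Fin.lastCases (C r) X :
      Fin (c + 1) → MvPolynomial (Fin c) R) : MvPolynomial (Fin (c + 1)) R →ₐ[R] _) :
      MvPolynomial (Fin (c + 1)) R →* MvPolynomial (Fin c) R)) hp
  intro q hq
  refine Submonoid.subset_closure ?_
  rcases hq with hq | hq
  · left
    refine (deg_aeval _ (fun i => ?_) q).trans hq
    refine Fin.lastCases ?_ (fun k => ?_) i
    · rw [Fin.lastCases_last, totalDegree_C]
      exact Nat.zero_le _
    · rw [Fin.lastCases_castSucc]
      rcases subsingleton_or_nontrivial R with h | h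
      · rw [Subsingleton.elim (X k : MvPolynomial (Fin c) R) 0, totalDegree_zero]
        exact Nat.zero_le _
      · rw [totalDegree_X]
  · right
    refine (card_aeval _ (fun i => ?_) q).trans hq
    refine Fin.lastCases ?_ (fun k => ?_) i
    · rw [Fin.lastCases_last]
      exact isMono_C r
    · rw [Fin.lastCases_castSucc]
      exact ⟨Finsupp.single k 1, 1, rfl⟩

lemma NiceMinors.det [Fintype τ] {α β : Type} {e m : ℕ} {T : α → β → τ → R}
    (h : NiceMinors e m T) (ι : Type) [Fintype ι] [DecidableEq ι] (I : ι → α) (J : ι → β) :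
    (Matrix.of fun i j => linM T (I i) (J j)).det ∈ nice τ R e m := by
  let f := Fintype.equivFin ι
  have h1 := h (Fintype.card ι) (I ∘ f.symm) (J ∘ f.symm)
  have h2 : (Matrix.of fun i j => linM T ((I ∘ f.symm) i) ((J ∘ f.symm) j)) =
      (Matrix.of fun i j => linM T (I i) (J j)).submatrix f.symm f.symm := rfl
  rwa [h2, Matrix.det_submatrix_equiv_self] at h1

lemma prodDeg_le_nice (e m : ℕ) : prodDeg σ R e ≤ nice σ R e m :=
  Submonoid.closure_mono fun _ h => Or.inl h

lemma forDeg_of_nice {P : Sch R → Prop} {N e m : ℕ} (h : ForNice P N e m) : ForDeg P N e :=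
  fun c hc κ g hg => h c hc κ g fun k => prodDeg_le_nice e m (hg k)

variable {sep : Prop} {P : Sch R → Prop} (hP : Bnd sep P)

include hP

/-- Trilinear forms with at most `N + 1` variables `z` whose minors are nice. -/
theorem nice_tri {N e m : ℕ} (h : ForNice P N e m) {a b c : ℕ} (T : Fin a → Fin b → Fin c → R)
    (hc : c ≤ N + 1) (hT : NiceMinors e m T) : P (hypS T) := by
  refine (hyp_iff hP T).mpr (bilin_family hP (fun c => nice (Fin c) R e m) ?_ ?_ c
    (fun c' hc' κ g hg => ?_) T fun ι _ _ I J => hT.det ι I J)
  · intro c p hp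
    have := nice_last (0 : R) hp
    rwa [map_zero] at this
  · intro c p hp
    have := nice_last (1 : R) hp
    rwa [map_one] at this
  · exact iso_alg hP.toUni (oneE g) (h c' (by omega) κ g hg)

end

end Pool.Agent.Helper11U
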