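import Pool.Agent.Helper11U.Blocks
import Pool.Agent.Helper11U.Nice

/-!
# Trilinear forms which are governed by curves, quartic surfaces or Fermat surfaces

`C` is the category of motives over `k` for absolute Hodge cycles; for a separated scheme `X` of finite
type over `k` the object `G i w X` of `C` is the graded piece of weight `w` of the cohomology `H^i_c(X)`
with compact support, `T M = M(-1)` the Tate twist.
-/

set_option autoImplicit false

open CategoryTheory CategoryTheory.Limits AlgebraicGeometry
open Pool.Agent.Y116.UV Pool.Agent.Z125.UN Pool.Agent.Q282.UK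

universe v u

namespace Pool.Agent.Helper11U

variable {k : Type} [Field k]

/-- The trilinear form `T` is governed by curves, quartic surfaces or Fermat surfaces: one of the three
blocks of variables has at most three elements, or two of them have at most four elements, or the
block `z` has at most four elements and every minor of the matrix of linear forms
`T(z)_{ij} = ∑_k T_{ijk} z_k` is a product of polynomials of degree at most four and of polynomials with at
most four terms. -/
def Governed {a b c : ℕ} (T : Fin a → Fin b → Fin c → k) : Prop :=
  (a ≤ 3 ∨ b ≤ 3 ∨ c ≤ 3) ∨ ((a ≤ 4 ∧ b ≤ 4) ∨ (a ≤ 4 ∧ c ≤ 4) ∨ (b ≤ 4 ∧ c ≤ 4)) ∨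
    (c ≤ 4 ∧ NiceMinors 4 4 T)

/-- The hypersurfaces `T(x, y, z) = 1` and the affine schemes of the bilinear equations `T_k(x, y) = 0`, for
the trilinear forms `T` over `k` which are governed by curves, quartic surfaces or Fermat surfaces. -/
def QuarticType (X : Sch k) : Prop :=
  ∃ (a b c : ℕ) (T : Fin a → Fin b → Fin c → k), Governed T ∧ (X = hypS T ∨ X = bilS T)

variable {C : Type u} [Category.{v} C] [Abelian C] [MonoidalCategory C]

/-- The class of motives which is generated by the graded pieces of `H^i_c(X)`, for the schemes `X` in
the class `𝒳`, by means of direct sums, direct summands, tensor products and Tate twists. -/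
inductive Generated (D : GrThy k C) (𝒳 : Sch k → Prop) : C → Prop
  | piece (X : Sch k) (h : 𝒳 X) (i w : ℤ) : Generated D 𝒳 (D.G i w X)
  | sum (M N : C) (hM : Generated D 𝒳 M) (hN : Generated D 𝒳 N) : Generated D 𝒳 (M ⊞ N)
  | summand (M N : C) (s : M ⟶ N) (r : N ⟶ M) (h : s ≫ r = 𝟙 M) (hN : Generated D 𝒳 N) :
      Generated D 𝒳 M
  | tensor (M N : C) (hM : Generated D 𝒳 M) (hN : Generated D 𝒳 N) :
      Generated D 𝒳 (MonoidalCategoryStruct.tensorObj M N)
  | twist (M : C) (hM : Generated D 𝒳 M) : Generated D 𝒳 (D.T M)
  | untwist (M : C) (hM : Generated D 𝒳 (D.T M)) : Generated D 𝒳 M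

/-- Known facts; `AV` is the class of motives in the tannakian subcategory `M_k^av` generated by Artin
motives and motives of abelian varieties.
* `gr`, `pure`, `resolution`: the properties of the graded pieces of `H^i_c` (`IsGrThy`; among them: `C` is
  semisimple), purity for smooth proper schemes, Hironaka's theorem as a principle of dévissage;
* `retract`, `sum`, `tensor`, `twist`, `point`: `AV` is closed under direct summands, direct sums, tensor
  products and Tate twists and contains the motive of a point;
* `curves`: `AV` contains the motives of smooth proper schemes of dimension at most one;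
* `quartics`: the graded pieces of `H^i_c(X)` are in `M_k^av` for the closed subschemes `X` of the affine
  spaces of dimension at most three all of whose equations are products of polynomials of degree at most
  four and of polynomials with at most four terms. (The components of `X` of dimension two are surfaces
  of degree at most four in the projective space, whose resolutions are K3 surfaces, rational surfaces
  or ruled surfaces, or they are dominated by Fermat surfaces or by products of a curve and a line; the
  motives of curves, K3 surfaces and Fermat surfaces are in `M_k^av`, Deligne.) -/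
structure IsAvThy (D : GrThy k C) (AV : C → Prop) : Prop where
  gr : IsGrThy D
  pure : IsPure D
  resolution : Resolution k
  retract : ∀ {M N : C} (s : M ⟶ N) (r : N ⟶ M), s ≫ r = 𝟙 M → AV N → AV M
  sum : ∀ M N : C, AV M → AV N → AV (M ⊞ N)
  tensor : ∀ M N : C, AV M → AV N → AV (MonoidalCategoryStruct.tensorObj M N)
  twist : ∀ M, AV (D.T M) ↔ AV M
  point : ∀ i w, AV (D.G i w (aff k k))
  curves : ForSmoothProper (fun X => ∀ i, AV (D.G i i X)) 1
  quartics : ForNice (fun X => ∀ i w, AV (D.G i w X)) 3 4 4

variable {D : GrThy k C} {AV : C → Prop}

lemma isAdd_av (hD : IsAvThy D AV) : IsAdd D.T AV where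
  retract s r h hB := hD.retract s r h hB
  sum := hD.sum
  twist := hD.twist

/-- the graded pieces of the hypersurfaces -/
lemma av_type [PerfectField k] (hD : IsAvThy D AV) (X : Sch k) (hX : QuarticType X) (i w : ℤ) :
    AV (D.G i w X) := by
  have hB : Bnd True fun X => ∀ i w, AV (D.G i w X) := bnd_gr hD.gr (isAdd_av hD) hD.point
  have h4 := forDeg_of_nice hD.quartics
  obtain ⟨a, b, c, T, hT, hX⟩ := hX
  have h1 : ∀ i w, AV (D.G i w (hypS T)) := by
    rcases hT with h | (⟨h1, h2⟩ | ⟨h1, h2⟩ | ⟨h1, h2⟩) | ⟨h1, h2⟩
    · exact (class_iff hD.gr hD.pure hD.resolution (isAdd_av hD) hD.point 1).mp hD.curves a b c T h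
    · exact two_blocks hB h4 T (Or.inl ⟨h1, Or.inl h2⟩)
    · exact two_blocks hB h4 T (Or.inl ⟨h1, Or.inr h2⟩)
    · exact two_blocks hB h4 T (Or.inr (Or.inl ⟨h1, Or.inr h2⟩))
    · exact nice_tri hB hD.quartics T h1 h2
  rcases hX with rfl | rfl
  · exact h1 i w
  · exact (bil_iff hB T).mpr h1 i w

/-- The generated category is contained in `M_k^av`. -/
theorem av_generated [PerfectField k] (hD : IsAvThy D AV) {M : C}
    (hM : Generated D QuarticType M) : AV M := by
  induction hM with
  | piece X hX i w => exact av_type hD X hX i w
  | sum M N _ _ h1 h2 => exact hD.sum M N h1 h2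
  | summand M N s r hsr _ h1 => exact hD.retract s r hsr h1
  | tensor M N _ _ h1 h2 => exact hD.tensor M N h1 h2
  | twist M _ h1 => exact (hD.twist M).mpr h1
  | untwist M _ h1 => exact (hD.twist M).mp h1

end Pool.Agent.Helper11U
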