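import Pool.Agent.Helper11U.Bass

/-!
# Bass's finite generation conjecture, degree by degree, and linear groups

For sets `E_1, …, E_c` of at most three pairs `(i, j)` let
`A_E = R[z, x, y] / (∑_l z_l ∑_{(i, j) ∈ E_l} x_i y_j - 1)`, a smooth algebra over `R` (`Cub R E`).
-/

set_option autoImplicit false

open Pool.Agent.Y116.UV Pool.Agent.R904.CU Pool.Agent.R904.TR AlgebraicGeometry

namespace Pool.Agent.Helper11U

/-- The ring `A` has the property `Q`, for all rings `A = A_E` over `R`, where `E` is a finite sequence of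
sets `E_l` of at most three pairs. -/
def ForShortCubics (R : Type) [CommRing R] (Q : ∀ (A : Type) [CommRing A], Prop) : Prop :=
  ∀ (a b c : ℕ) (E : Fin c → Finset (Fin a × Fin b)), (∀ l, (E l).card ≤ 3) → Q (Cub R E)

/-- `GL_N(A)` is a finitely generated group for all large `N`. -/
def LinearFG (A : Type) [CommRing A] : Prop := ∃ N₀, ∀ N, N₀ ≤ N → Group.FG (GL (Fin N) A)

/-- `GL_N(A)` is a finitely presented group for all large `N`. -/
def LinearFP (A : Type) [CommRing A] : Prop :=
  ∃ N₀, ∀ N, N₀ ≤ N → Group.IsFinitelyPresented (GL (Fin N) A)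

/-- `H_i(GL_N(A), ℤ)` is finitely generated for all large `N`. -/
def HomologyFG (i : ℕ) (A : Type) [CommRing A] : Prop :=
  ∃ N₀, ∀ N, N₀ ≤ N → Module.Finite ℤ (groupHomology (Rep.trivial ℤ (GL (Fin N) A) ℤ) i)

/-- `K'_m(X)` is finitely generated for all schemes `X` of finite type over `R` and all `m ≤ n`
(`n = ⊤`: for all `m`). -/
def LinThy.AllTo (K : LinThy) (R : Type) [CommRing R] (n : ℕ∞) : Prop :=
  ∀ X : Sch R, FT False X → ∀ m : ℕ, (m : ℕ∞) ≤ n → AddGroup.FG (K.G m X.left)

/-- `K'_m(X)` is finitely generated for all regular schemes `X` of finite type over `R` and all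
`m ≤ n` (`n = ⊤`: for all `m`). -/
def LinThy.RegTo (K : LinThy) (R : Type) [CommRing R] (n : ℕ∞) : Prop :=
  ∀ X : Sch R, FT False X → IsRegularScheme X.left → ∀ m : ℕ, (m : ℕ∞) ≤ n →
    AddGroup.FG (K.G m X.left)

variable (K : LinThy) (R : Type) [CommRing R]

lemma homology_all (n : ℕ) (A : Type) [CommRing A] :
    (∃ N₀, ∀ N, N₀ ≤ N → ∀ i ≤ n, FinHom A N i) ↔ ∀ i ≤ n, HomologyFG i A := by
  constructor
  · rintro ⟨N₀, h⟩ i hi
    exact ⟨N₀, fun N hN => h N hN i hi⟩
  · intro h
    choose f hf using h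
    refine ⟨∑ i : Fin (n + 1), f i.1 (by omega), fun N hN i hi => hf i hi N (le_trans ?_ hN)⟩
    exact Finset.single_le_sum (f := fun i : Fin (n + 1) => f i.1 (by omega))
      (fun _ _ => Nat.zero_le _) (Finset.mem_univ (⟨i, by omega⟩ : Fin (n + 1)))

lemma allTo_coe (n : ℕ) : K.AllTo R n ↔ K.UpTo R n := by
  simp only [LinThy.AllTo, LinThy.UpTo, Nat.cast_le]

lemma regTo_coe (n : ℕ) : K.RegTo R n ↔ K.RegUpTo R n := by
  simp only [LinThy.RegTo, LinThy.RegUpTo, Nat.cast_le]

lemma allTo_top : K.AllTo R ⊤ ↔ ∀ n, K.UpTo R n :=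
  ⟨fun h _ X hX m _ => h X hX m le_top, fun h X hX m _ => h m X hX m le_rfl⟩

lemma regTo_top : K.RegTo R ⊤ ↔ ∀ n, K.RegUpTo R n :=
  ⟨fun h _ X hX hr m _ => h X hX hr m le_top, fun h X hX hr m _ => h m X hX hr m le_rfl⟩

variable [IsRegularRing R] (hZ : Function.Surjective (Int.cast : ℤ → R))

include hZ

theorem key_coe (n : ℕ) :
    K.UpTo R n ↔ ForShortCubics R fun A _ => ∀ i ≤ n + 1, HomologyFG i A := by
  rw [homology_iff K hZ n]
  refine forall_congr' fun a => forall_congr' fun b => forall_congr' fun c =>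
    forall_congr' fun E => forall_congr' fun _ => homology_all (n + 1) (Cub R E)

/-- regular schemes suffice -/
theorem regTo_iff (n : ℕ∞) : K.RegTo R n ↔ K.AllTo R n := by
  induction n using ENat.recTopCoe with
  | top =>
    rw [regTo_top, allTo_top]
    exact forall_congr' fun n => reg_iff K hZ n
  | coe n =>
    rw [regTo_coe, allTo_coe]
    exact reg_iff K hZ n

theorem allTo_iff (n : ℕ∞) : K.AllTo R n ↔
    ForShortCubics R fun A _ => ∀ i : ℕ, (i : ℕ∞) ≤ n + 1 → HomologyFG i A := by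
  induction n using ENat.recTopCoe with
  | top =>
    rw [allTo_top]
    constructor
    · intro h a b c E hE i _
      exact (key_coe K R hZ i).mp (h i) a b c E hE i (by omega)
    · intro h n
      exact (key_coe K R hZ n).mpr fun a b c E hE i _ => h a b c E hE i le_top
  | coe n =>
    rw [allTo_coe, key_coe K R hZ n]
    have h1 : ((n : ℕ∞) + 1) = ((n + 1 : ℕ) : ℕ∞) := rfl
    simp only [h1, Nat.cast_le]

end Pool.Agent.Helper11U
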