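import Pool.Agent.Helper11U.Blocks

/-!
# The Hodge realization of motives

`k` is an algebraically closed field with an embedding `σ` into `ℂ`, `C` the (semisimple, abelian)
category `M_k` of motives for absolute Hodge cycles, `H` the category of rational Hodge structures,
`R : C ⥤ H` the realization `H_σ`, `Q n` the motive `1(n)`. For a separated scheme `X` of finite type over
`k` the object `G i w X` of `C` is the graded piece of weight `w` of the cohomology `H^i_c(X)` with
compact support, and `T M = M(-1)` is the Tate twist. For smooth proper `X` the object `G i i X` is the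
motive `h^i(X)`.
-/

set_option autoImplicit false

open CategoryTheory CategoryTheory.Limits AlgebraicGeometry
open Pool.Agent.Y116.UV Pool.Agent.Z125.UN Pool.Agent.Q282.UK

universe v u v' u'

namespace Pool.Agent.Helper11U

/-- The data: the objects `G i w X` and the Tate twist `T` (see `GrThy`), the Hodge realization `R`, the
objects `Q n = 1(n)`. -/
structure HodgeThy (k : Type) [Field k] (C : Type u) [Category.{v} C] (H : Type u')
    [Category.{v'} H] extends GrThy k C where
  R : C ⥤ H
  Q : ℤ → C

variable {k : Type} [Field k] {C : Type u} [Category.{v} C] [Abelian C] {H : Type u'}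
  [Category.{v'} H] [Preadditive H]

omit [Abelian C] [Preadditive H] in
/-- Every Hodge class of `M(-n)`, `n ∈ ℤ`, is absolute Hodge: the morphisms `1(n) → M` of Hodge
structures are the images of morphisms of motives. -/
def AllAbsolute (D : HodgeThy k C H) (M : C) : Prop :=
  ∀ (n : ℤ) (h : D.R.obj (D.Q n) ⟶ D.R.obj M), ∃ f : D.Q n ⟶ M, D.R.map f = h

/-- The known properties.
* `gr`, `pure`: the properties of the graded pieces of `H^i_c` (`IsGrThy`; among them: `C` is
  semisimple), and purity for smooth proper schemes;
* `resolution`: Hironaka's theorem as a principle of dévissage;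
* `additive`: the realization is additive;
* `twist`, `point`: compatibility with Tate twists; the motive of a point. -/
structure IsHodgeThy (D : HodgeThy k C H) : Prop where
  gr : IsGrThy D.toGrThy
  pure : IsPure D.toGrThy
  resolution : Resolution k
  additive : D.R.Additive
  twist : ∀ M, AllAbsolute D (D.T M) ↔ AllAbsolute D M
  point : ∀ i w, AllAbsolute D (D.G i w (aff k k))

variable {D : HodgeThy k C H}

lemma isAdd_absolute (hD : IsHodgeThy D) : IsAdd D.T (AllAbsolute D) where
  retract {A B} s r hsr h n g := by
    obtain ⟨f, hf⟩ := h n (g ≫ D.R.map s)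
    refine ⟨f ≫ r, ?_⟩
    rw [Functor.map_comp, hf, Category.assoc, ← Functor.map_comp, hsr, CategoryTheory.Functor.map_id,
      Category.comp_id]
  sum A B hA hB n g := by
    have := hD.additive
    obtain ⟨f1, h1⟩ := hA n (g ≫ D.R.map biprod.fst)
    obtain ⟨f2, h2⟩ := hB n (g ≫ D.R.map biprod.snd)
    refine ⟨biprod.lift f1 f2, ?_⟩
    rw [biprod.lift_eq, Functor.map_add, Functor.map_comp, Functor.map_comp, h1, h2,
      Category.assoc, Category.assoc, ← Preadditive.comp_add, ← Functor.map_comp,
      ← Functor.map_comp, ← Functor.map_add, biprod.total, CategoryTheory.Functor.map_id, Category.comp_id]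
  twist := hD.twist

end Pool.Agent.Helper11U
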