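import Pool.Agent.Helper11U.Base

/-!
# Graded pieces of cohomology with compact support in a semisimple abelian category
-/

set_option autoImplicit false

open CategoryTheory CategoryTheory.Limits AlgebraicGeometry MvPolynomial
open Pool.Agent.Y116.UV Pool.Agent.Z125.UN Pool.Agent.Q282.UK Pool.Agent.Q282.UZ

namespace Pool.Agent.Helper11U

universe v u

/-- Objects `G i w X` of the category `C` (in the application: the graded piece of weight `w` of the
cohomology `H^i_c(X)` with compact support, as a pure motive) for all schemes `X` over `k`, and the Tate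
twist `T M = M(-1)`. -/
structure GrThy (k : Type) [Field k] (C : Type u) where
  G : ℤ → ℤ → Sch k → C
  T : C → C

/-- The sequence `A ⟶ B ⟶ D` is exact at `B`. -/
def ExactAt {C : Type u} [Category.{v} C] [Abelian C] {A B D : C} (f : A ⟶ B) (g : B ⟶ D) : Prop :=
  ∃ h : f ≫ g = 0, (ShortComplex.mk f g h).Exact

/-- The standard properties of the graded pieces of cohomology with compact support.
* `semisimple`: every monomorphism of `C` splits;
* `iso`: isomorphic schemes;
* `les`: for a closed subscheme `Z` of `X` with complement `U` and every weight `w` there is a long exact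
  sequence `⋯ → G^n_w U → G^n_w X → G^n_w Z → G^{n+1}_w U → ⋯`;
* `empty`: the empty scheme;
* `bundle`: for the affine bundle `Spec A[w_0, …, w_m] / (∑ f_l w_l - 1) → U` of dimension `m`, `U` the
  complement of `f = 0` in `Spec A`, the object `G^{i+2m}_{w+2m}` of the total space is `G^i_w U` twisted
  `m` times;
* `torus`: `G^i_w(X)(-1)` is a direct summand of `G^{i+2}_{w+2}(X × 𝔾_m)`. -/
structure IsGrThy {k : Type} [Field k] {C : Type u} [Category.{v} C] [Abelian C]
    (D : GrThy k C) : Prop where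
  semisimple : ∀ {A B : C} (f : A ⟶ B), Mono f → ∃ r : B ⟶ A, f ≫ r = 𝟙 A
  iso : ∀ {X Y : Sch k}, FT True X → Nonempty (X ≅ Y) → ∀ i w, Nonempty (D.G i w X ≅ D.G i w Y)
  les : ∀ {Z X U : Sch k} (i : Z ⟶ X) (j : U ⟶ X), FT True X → IsTriple i j → ∀ w : ℤ,
    ∃ (a : ∀ n, D.G n w U ⟶ D.G n w X) (b : ∀ n, D.G n w X ⟶ D.G n w Z)
      (d : ∀ n, D.G n w Z ⟶ D.G (n + 1) w U),
      (∀ n, ExactAt (a n) (b n)) ∧ (∀ n, ExactAt (b n) (d n)) ∧ ∀ n, ExactAt (d n) (a (n + 1))
  empty : ∀ X : Sch k, IsEmpty X.left → ∀ i w, IsZero (D.G i w X)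
  bundle : ∀ (A : Type) [CommRing A] [Algebra k A] [Algebra.FiniteType k A] (m : ℕ)
    (f : Fin (m + 1) → A) (U : Sch k) (j : U ⟶ aff k A), IsOpenImmersion j.left →
    Set.range j.left = {x : PrimeSpectrum A | ∃ l, f l ∉ x.asIdeal} → ∀ i w : ℤ,
    Nonempty (D.G (i + 2 * m) (w + 2 * m) (aff k (Jou f)) ≅ D.T^[m] (D.G i w U))
  torus : ∀ (A : Type) [CommRing A] [Algebra k A] [Algebra.FiniteType k A] (i w : ℤ),
    ∃ (s : D.T (D.G i w (aff k A)) ⟶ D.G (i + 2) (w + 2) (aff k (LaurentPolynomial A)))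
      (r : D.G (i + 2) (w + 2) (aff k (LaurentPolynomial A)) ⟶ D.T (D.G i w (aff k A))), s ≫ r = 𝟙 _

/-- The property `S` of objects is inherited by direct summands and direct sums and invariant under
Tate twists. -/
structure IsAdd {C : Type u} [Category.{v} C] [Abelian C] (T : C → C) (S : C → Prop) : Prop where
  retract : ∀ {A B : C} (s : A ⟶ B) (r : B ⟶ A), s ≫ r = 𝟙 A → S B → S A
  sum : ∀ A B : C, S A → S B → S (A ⊞ B)
  twist : ∀ A : C, S (T A) ↔ S A

section semisimple

variable {C : Type u} [Category.{v} C] [Abelian C]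
  (hs : ∀ {A B : C} (f : A ⟶ B), Mono f → ∃ r : B ⟶ A, f ≫ r = 𝟙 A)

include hs

lemma injective_of_semisimple (B : C) : Injective B where
  factors g f _ := by
    obtain ⟨r, hr⟩ := hs f inferInstance
    exact ⟨r ≫ g, by rw [← Category.assoc, hr, Category.id_comp]⟩

lemma section_of_epi {A B : C} (p : A ⟶ B) [Epi p] : ∃ s : B ⟶ A, s ≫ p = 𝟙 B := by
  obtain ⟨r, hr⟩ := hs (kernel.ι p) inferInstance
  let S : ShortComplex C := ShortComplex.mk (kernel.ι p) p (kernel.condition p)
  have hS : S.Exact := ShortComplex.exact_kernel p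
  let sp := ShortComplex.Splitting.ofExactOfRetraction S hS r hr inferInstance
  exact ⟨sp.s, sp.s_g⟩

/-- The middle term of an exact sequence is a direct summand of the sum of the outer terms. -/
theorem mid_retract {A B D : C} (f : A ⟶ B) (g : B ⟶ D) (h : ExactAt f g) :
    ∃ (s : B ⟶ A ⊞ D) (r : A ⊞ D ⟶ B), s ≫ r = 𝟙 B := by
  obtain ⟨h0, hE⟩ := h
  have hB := injective_of_semisimple hs B
  obtain ⟨ρ, hρ⟩ := hs (kernel.ι g) inferInstance
  have hp : Epi (kernel.lift g f h0) := hE.epi_kernelLift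
  obtain ⟨sA, hsA⟩ := section_of_epi hs (kernel.lift g f h0)
  have hker : (ShortComplex.mk (kernel.ι g) g (kernel.condition g)).Exact :=
    ShortComplex.exact_kernel g
  have hz : kernel.ι g ≫ (𝟙 B - ρ ≫ kernel.ι g) = 0 := by
    rw [Preadditive.comp_sub, Category.comp_id, ← Category.assoc, hρ, Category.id_comp, sub_self]
  let t : D ⟶ B := hker.descToInjective (𝟙 B - ρ ≫ kernel.ι g) hz
  have ht : g ≫ t = 𝟙 B - ρ ≫ kernel.ι g := hker.comp_descToInjective _ hz
  refine ⟨biprod.lift (ρ ≫ sA) g, biprod.desc f t, ?_⟩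
  have h1 : sA ≫ f = kernel.ι g := by
    have h2 : f = kernel.lift g f h0 ≫ kernel.ι g := (kernel.lift_ι g f h0).symm
    rw [h2, ← Category.assoc]
    rw [hsA, Category.id_comp]
  rw [biprod.lift_desc, ht, Category.assoc, h1]
  abel

end semisimple

section

variable {k : Type} [Field k] {C : Type u} [Category.{v} C] [Abelian C] {D : GrThy k C}
  (hD : IsGrThy D) {S : C → Prop} (hS : IsAdd D.T S)

include hS in
lemma S_iso {A B : C} (e : Nonempty (A ≅ B)) (h : S A) : S B := by
  obtain ⟨e⟩ := e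
  exact hS.retract e.inv e.hom e.inv_hom_id h

include hS in
lemma S_tw (n : ℕ) (A : C) : S (D.T^[n] A) ↔ S A := by
  induction n generalizing A with
  | zero => rfl
  | succ n ih => rw [Function.iterate_succ, Function.comp_apply, ih, hS.twist]

include hS in
lemma S_zero {A : C} (hA : S A) {B : C} (hB : IsZero B) : S B :=
  hS.retract 0 0 (hB.eq_of_src _ _) hA

include hD hS in
lemma S_mid {A B E : C} (f : A ⟶ B) (g : B ⟶ E) (h : ExactAt f g) (hA : S A) (hE : S E) : S B := by
  obtain ⟨s, r, hsr⟩ := mid_retract (fun f hf => hD.semisimple f hf) f g h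
  exact hS.retract s r hsr (hS.sum _ _ hA hE)

lemma jou_empty {A : Type} [CommRing A] [Algebra k A] (f : Fin 0 → A) :
    IsEmpty (aff k (Jou f)).left := by
  have h : Subsingleton (Jou f) := by
    apply Ideal.Quotient.subsingleton_iff.mpr
    rw [Finset.univ_eq_empty, Finset.sum_empty, zero_sub, Ideal.span_singleton_neg,
      Ideal.span_singleton_one]
  change IsEmpty (PrimeSpectrum (Jou f))
  infer_instance

lemma open_empty {A : Type} [CommRing A] (f : Fin 0 → A) {U : Scheme.{0}} (j : U ⟶ Spec (.of A))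
    (h : Set.range j = {x : PrimeSpectrum A | ∃ l, f l ∉ x.asIdeal}) : IsEmpty U := by
  refine ⟨fun x => ?_⟩
  have h1 : j x ∈ Set.range j := ⟨x, rfl⟩
  rw [h] at h1
  obtain ⟨l, -⟩ := h1
  exact l.elim0

include hD hS in
/-- The schemes all of whose graded pieces have the property `S`. -/
theorem bnd_gr (h0 : ∀ i w, S (D.G i w (aff k k))) : Bnd True fun X => ∀ i w, S (D.G i w X) := by
  have hbun : ∀ (A : Type) [CommRing A] [Algebra k A] [Algebra.FiniteType k A] (m : ℕ)
      (f : Fin (m + 1) → A) (U : Sch k) (j : U ⟶ aff k A), IsOpenImmersion j.left →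
      Set.range j.left = {x : PrimeSpectrum A | ∃ l, f l ∉ x.asIdeal} →
      ((∀ i w, S (D.G i w (aff k (Jou f)))) ↔ ∀ i w, S (D.G i w U)) := by
    intro A _ _ _ m f U j hj hr
    constructor
    · intro h i w
      exact (S_tw hS m _).mp (S_iso hS (hD.bundle A m f U j hj hr i w) (h _ _))
    · intro h i w
      obtain ⟨e⟩ := hD.bundle A m f U j hj hr (i - 2 * m) (w - 2 * m)
      rw [sub_add_cancel, sub_add_cancel] at e
      exact S_iso hS ⟨e.symm⟩ ((S_tw hS m _).mpr (h _ _))
  refine
    { iso := ?_, total := ?_, opened := ?_, closed := ?_, space := ?_, jouanolou := ?_, torus := ?_,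
      bundle := ?_ }
  · intro X Y hX e h i w
    exact S_iso hS (hD.iso hX e i w) (h i w)
  · intro Z X U i j hX ht hZ hU n w
    obtain ⟨a, b, d, h1, h2, h3⟩ := hD.les i j hX ht w
    exact S_mid hD hS _ _ (h1 n) (hU n w) (hZ n w)
  · intro Z X U i j hX ht hZ hX' n w
    obtain ⟨a, b, d, h1, h2, h3⟩ := hD.les i j hX ht w
    have h := S_mid hD hS _ _ (h3 (n - 1)) (hZ _ w) (hX' _ w)
    rwa [sub_add_cancel] at h
  · intro Z X U i j hX ht hX' hU n w
    obtain ⟨a, b, d, h1, h2, h3⟩ := hD.les i j hX ht w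
    exact S_mid hD hS _ _ (h2 n) (hX' n w) (hU _ w)
  · intro n i w
    have h := (hbun k n (f1 k n) (aff k k) (𝟙 _) inferInstance (range_id n)).mpr h0
    exact S_iso hS (hD.iso (ft_aff True) ⟨affIso (jouOne k n).symm⟩ i w) (h i w)
  · intro A _ _ _ m f U j hj hr h
    cases m with
    | zero =>
      intro i w
      exact S_zero hS (h i w) (hD.empty U (open_empty f j.left hr) i w)
    | succ m => exact (hbun A m f U j hj hr).mp h
  · intro A _ _ _ h i w
    obtain ⟨s, r, hsr⟩ := hD.torus A i w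
    exact (hS.twist _).mp (hS.retract s r hsr (h _ _))
  · intro A _ _ _ m f U j hj hr h
    cases m with
    | zero =>
      intro i w
      exact S_zero hS (h i w) (hD.empty _ (jou_empty f) i w)
    | succ m => exact (hbun A m f U j hj hr).mpr h

end

end Pool.Agent.Helper11U
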