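import Pool.Agent.Helper11U.Hodge

/-!
# Properties of the simple direct summands
-/

set_option autoImplicit false

open CategoryTheory CategoryTheory.Limits AlgebraicGeometry MvPolynomial
open Pool.Agent.Y116.UV Pool.Agent.Z125.UN Pool.Agent.Q282.UK Pool.Agent.Q282.UZ

namespace Pool.Agent.Helper11U

universe v u

section

variable {C : Type u} [Category.{v} C]

/-- `A` is a direct summand of `B`. -/
def IsSummand (A B : C) : Prop := ∃ (s : A ⟶ B) (r : B ⟶ A), s ≫ r = 𝟙 A

lemma IsSummand.trans {A B D : C} (h : IsSummand A B) (h' : IsSummand B D) : IsSummand A D := by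
  obtain ⟨s, r, h⟩ := h
  obtain ⟨s', r', h'⟩ := h'
  exact ⟨s ≫ s', r' ≫ r, by rw [Category.assoc, ← Category.assoc s', h', Category.id_comp, h]⟩

lemma IsSummand.of_iso {A B : C} (e : A ≅ B) : IsSummand A B := ⟨e.hom, e.inv, e.hom_inv_id⟩

lemma IsSummand.map {A B : C} (h : IsSummand A B) (F : C ⥤ C) : IsSummand (F.obj A) (F.obj B) := by
  obtain ⟨s, r, h⟩ := h
  exact ⟨F.map s, F.map r, by rw [← F.map_comp, h, F.map_id]⟩

end

variable {C : Type u} [Category.{v} C] [Abelian C]

/-- All simple direct summands of `M` have the property `Q`. -/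
def AllSimple (Q : C → Prop) (M : C) : Prop := ∀ P : C, Simple P → IsSummand P M → Q P

/-- `M` is a finite direct sum of simple objects. -/
inductive IsSumOfSimples : C → Prop
  | zero (Z : C) (h : IsZero Z) : IsSumOfSimples Z
  | add (P A M : C) (hP : Simple P) (hA : IsSumOfSimples A) (e : Nonempty (M ≅ P ⊞ A)) :
      IsSumOfSimples M

lemma simple_iso {A B : C} (e : A ≅ B) (h : Simple A) : Simple B := Simple.of_iso e.symm

/-- an equivalence preserves simple objects -/
lemma simple_map (F : C ≌ C) {A : C} (h : Simple A) : Simple (F.functor.obj A) := by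
  constructor
  intro Y f hf
  have h1 : Mono (F.inverse.map f ≫ (F.unitIso.inv.app A)) := mono_comp _ _
  have h2 := h.mono_isIso_iff_nonzero (F.inverse.map f ≫ (F.unitIso.inv.app A))
  constructor
  · intro hi h0
    have h3 : IsIso (F.inverse.map f ≫ (F.unitIso.inv.app A)) := inferInstance
    refine h2.mp h3 ?_
    rw [h0]
    have : F.inverse.PreservesZeroMorphisms := inferInstance
    rw [Functor.map_zero, zero_comp]
  · intro h0
    have h3 : F.inverse.map f ≫ (F.unitIso.inv.app A) ≠ 0 := by
      intro h4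
      apply h0
      have h5 : F.inverse.map f = 0 :=
        (cancel_mono (F.unitIso.inv.app A)).mp (by rw [h4, zero_comp])
      have h6 : F.inverse.map f = F.inverse.map 0 := by rw [h5, Functor.map_zero]
      exact F.inverse.map_injective h6
    have h4 := h2.mpr h3
    have h5 : IsIso (F.inverse.map f) := IsIso.of_isIso_comp_right _ (F.unitIso.inv.app A)
    exact isIso_of_reflects_iso f F.inverse

section

variable (hs : ∀ {A B : C} (f : A ⟶ B), Mono f → ∃ r : B ⟶ A, f ≫ r = 𝟙 A)

include hs

lemma summand_of_ne {P A : C} (hP : Simple P) (f : P ⟶ A) (hf : f ≠ 0) : IsSummand P A := by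
  have h1 : Mono f := mono_of_nonzero_from_simple hf
  obtain ⟨r, hr⟩ := hs f h1
  exact ⟨f, r, hr⟩

/-- The simple summands of a direct sum. -/
lemma simple_sum {P A B : C} (hP : Simple P) (h : IsSummand P (A ⊞ B)) :
    IsSummand P A ∨ IsSummand P B := by
  obtain ⟨s, r, hsr⟩ := h
  by_cases h1 : s ≫ biprod.fst = 0
  · by_cases h2 : s ≫ biprod.snd = 0
    · exfalso
      have h3 : s = 0 := by
        apply biprod.hom_ext
        · rw [h1, zero_comp]
        · rw [h2, zero_comp]
      rw [h3, zero_comp] at hsr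
      exact id_nonzero P hsr.symm
    · exact Or.inr (summand_of_ne hs hP _ h2)
  · exact Or.inl (summand_of_ne hs hP _ h1)

/-- The property of the simple summands is inherited by direct summands and direct sums. -/
theorem isAdd_allSimple {T : C → C} (hT : ∃ F : C ≌ C, ∀ A, Nonempty (T A ≅ F.functor.obj A))
    {Q : C → Prop} (hQ : ∀ {A B : C}, (A ≅ B) → Q A → Q B) (hQT : ∀ A, Q (T A) ↔ Q A) :
    IsAdd T (AllSimple Q) where
  retract s r h hB P hP hPA := hB P hP (hPA.trans ⟨s, r, h⟩)
  sum A B hA hB P hP hPAB := (simple_sum hs hP hPAB).elim (hA P hP) (hB P hP)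
  twist A := by
    obtain ⟨F, hF⟩ := hT
    constructor
    · intro h P hP hPA
      obtain ⟨eA⟩ := hF A
      obtain ⟨eP⟩ := hF P
      have h1 : Simple (T P) := simple_iso eP.symm (simple_map F hP)
      exact (hQT P).mp (h _ h1 ((IsSummand.of_iso eP).trans
        ((hPA.map F.functor).trans (IsSummand.of_iso eA.symm))))
    · intro h P hP hPA
      obtain ⟨eA⟩ := hF A
      obtain ⟨eP⟩ := hF (F.inverse.obj P)
      have h1 : Simple (F.inverse.obj P) := simple_map F.symm hP
      have h2 : IsSummand (F.inverse.obj P) A :=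
        ((hPA.trans (IsSummand.of_iso eA)).map F.inverse).trans
          (IsSummand.of_iso (F.unitIso.symm.app A))
      exact hQ (eP ≪≫ F.counitIso.app P) ((hQT _).mpr (h _ h1 h2))

end

/-- From the simple objects to all finite direct sums. -/
theorem of_simples {Q : C → Prop} (h0 : ∀ Z : C, IsZero Z → Q Z)
    (hQ : ∀ {A B : C}, (A ≅ B) → Q A → Q B) (h2 : ∀ A B : C, Q A → Q B → Q (A ⊞ B))
    (h1 : ∀ P : C, Simple P → Q P) {M : C} (hM : IsSumOfSimples M) : Q M := by
  induction hM with
  | zero Z h => exact h0 Z h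
  | add P A M hP hA e ih =>
    obtain ⟨e⟩ := e
    exact hQ e.symm (h2 P A (h1 P hP) ih)

/-- All direct summands of `M` have the property `Q`. -/
def AllSummands (Q : C → Prop) (M : C) : Prop := ∀ N : C, IsSummand N M → Q N

lemma of_allSimple {Q : C → Prop} (h0 : ∀ Z : C, IsZero Z → Q Z)
    (hQ : ∀ {A B : C}, (A ≅ B) → Q A → Q B) (h2 : ∀ A B : C, Q A → Q B → Q (A ⊞ B))
    {M : C} (hM : IsSumOfSimples M) : AllSimple Q M → Q M := by
  induction hM with
  | zero Z h => exact fun _ => h0 Z h
  | add P A M hP hA e ih =>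
    intro h
    obtain ⟨e⟩ := e
    refine hQ e.symm (h2 P A ?_ ?_)
    · exact h P hP ⟨biprod.inl ≫ e.inv, e.hom ≫ biprod.fst, by simp⟩
    · refine ih fun P' hP' hs => h P' hP' (hs.trans ⟨biprod.inr ≫ e.inv, e.hom ≫ biprod.snd, by simp⟩)

/-- All simple summands and all summands. -/
theorem allSummands_iff {Q : C → Prop} (h0 : ∀ Z : C, IsZero Z → Q Z)
    (hQ : ∀ {A B : C}, (A ≅ B) → Q A → Q B) (h2 : ∀ A B : C, Q A → Q B → Q (A ⊞ B))
    (hf : ∀ M : C, IsSumOfSimples M) (M : C) : AllSummands Q M ↔ AllSimple Q M :=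
  ⟨fun h P _ hs => h P hs, fun h N hN =>
    of_allSimple h0 hQ h2 (hf N) fun P hP hs => h P hP (hs.trans hN)⟩

end Pool.Agent.Helper11U
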