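import Pool.Agent.Helper11U.Blocks
import Pool.Agent.Helper11U.Nice

/-!
# Trilinear forms over finite fields which are governed by curves, cubic surfaces or Fermat surfaces
-/

set_option autoImplicit false

open CategoryTheory CategoryTheory.Limits AlgebraicGeometry MvPolynomial
open Pool.Agent.Y116.UV Pool.Agent.Z125.UN Pool.Agent.Q282.UK Pool.Agent.Q282.UZ

namespace Pool.Agent.Helper11U

variable {k : Type} [Field k]

/-- One of the three blocks of variables of the trilinear form `T` has at most three elements, or the
block `z` has at most four elements and every minor of the matrix of linear forms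
`T(z)_{ij} = ∑_k T_{ijk} z_k` is a product of polynomials of degree at most three and of polynomials with
at most four terms. -/
def CubicType {a b c : ℕ} (T : Fin a → Fin b → Fin c → k) : Prop :=
  (a ≤ 3 ∨ b ≤ 3 ∨ c ≤ 3) ∨ (c ≤ 4 ∧ NiceMinors 3 4 T)

/-- A property with the closure properties `Bnd` is true for the forms of cubic type if it is true for
blocks of at most three variables and for the closed subschemes of the affine spaces of dimension at
most three whose equations are nice. -/
theorem cubic_type {P : Sch k → Prop} (hP : Bnd True P) (h1 : ForBlock P 3) (h2 : ForNice P 3 3 4)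
    {a b c : ℕ} (T : Fin a → Fin b → Fin c → k) (hT : CubicType T) : P (hypS T) ∧ P (bilS T) := by
  have h : P (hypS T) := by
    rcases hT with h | ⟨h3, h4⟩
    · exact h1 a b c T h
    · exact nice_tri hP h2 T h3 h4
  exact ⟨h, (bil_iff hP T).mpr h⟩

/-- `P` is true for the hypersurfaces `T(x, y, z) = 1` over `k` of all trilinear forms `T` which are not of
cubic type and such that one of the three blocks of variables has at most `m` variables (for `m = ⊤`: of
all trilinear forms which are not of cubic type). -/
def ForRemaining (P : Sch k → Prop) (m : ℕ∞) : Prop :=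
  ∀ (a b c : ℕ) (T : Fin a → Fin b → Fin c → k), ¬ CubicType T →
    ((a : ℕ∞) ≤ m ∨ (b : ℕ∞) ≤ m ∨ (c : ℕ∞) ≤ m) → P (hypS T)

/-- If the forms of cubic type are known, then they can be left out. -/
theorem remaining_iff {P : Sch k → Prop} (hP : Bnd True P) (h1 : ForBlock P 3) (h2 : ForNice P 3 3 4)
    (m : ℕ∞) : ForBlocks P m ↔ ForRemaining P m := by
  constructor
  · exact fun h a b c T _ hm => h a b c T hm
  · intro h a b c T hm
    by_cases hT : CubicType T
    · exact (cubic_type hP h1 h2 T hT).1
    · exact h a b c T hT hm

end Pool.Agent.Helper11U
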