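import Pool.Agent.Helper11U.Gen
import Pool.Agent.Helper11U.Surf

/-!
# Motivic homology and l-adic homology over a finite field

`k` is a finite field, `E = ℚ_ℓ`. For a separated scheme `X` of finite type over `k` let
`M i n X = CH_n(X, i - 2n) ⊗ ℚ_ℓ` be the motivic (Borel-Moore) homology, `H i n X = H_i(X̄, ℚ_ℓ(n))` the
`ℓ`-adic homology with the Frobenius `F` and `cl` the cycle class map.
-/

set_option autoImplicit false

open CategoryTheory CategoryTheory.Limits AlgebraicGeometry MvPolynomial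
open Pool.Agent.Y116.UV Pool.Agent.Z125.UN Pool.Agent.Q282.UK Pool.Agent.Q282.UZ

namespace Pool.Agent.Helper11U

universe w w'

/-- Motivic homology `M i n X = CH_n(X, i - 2n) ⊗ ℚ_ℓ`, `ℓ`-adic homology `H i n X = H_i(X̄, ℚ_ℓ(n))`, the
Frobenius `F` on the latter and the cycle class maps `cl`, whose values are invariant under `F`. -/
structure TateThy (k : Type) [Field k] (E : Type w') [Field E] where
  M : ℤ → ℤ → Sch k → ModuleCat.{w} E
  H : ℤ → ℤ → Sch k → ModuleCat.{w} E
  F : ∀ i n X, H i n X ⟶ H i n X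
  cl : ∀ i n X, M i n X ⟶ H i n X
  inv : ∀ i n X, cl i n X ≫ F i n X = cl i n X

variable {k : Type} [Field k] {E : Type w'} [Field E]

/-- Both homologies, with `F` and `cl`, of `X` in degree `i` and weight `n` and of `Y` in degree `i'` and
weight `n'` are isomorphic. -/
def TateThy.Same (D : TateThy.{w} k E) (i n : ℤ) (X : Sch k) (i' n' : ℤ) (Y : Sch k) : Prop :=
  ∃ (e : D.M i n X ≅ D.M i' n' Y) (e' : D.H i n X ≅ D.H i' n' Y),
    e.hom ≫ D.cl i' n' Y = D.cl i n X ≫ e'.hom ∧ e'.hom ≫ D.F i' n' Y = D.F i n X ≫ e'.hom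

/-- The homologies of `X` in degree `i` and weight `n`, with `F` and `cl`, are direct summands of the ones
of `Y` in degree `i'` and weight `n'`. -/
def TateThy.Summand (D : TateThy.{w} k E) (i n : ℤ) (X : Sch k) (i' n' : ℤ) (Y : Sch k) : Prop :=
  ∃ (s : D.M i n X ⟶ D.M i' n' Y) (r : D.M i' n' Y ⟶ D.M i n X) (s' : D.H i n X ⟶ D.H i' n' Y)
    (r' : D.H i' n' Y ⟶ D.H i n X), s ≫ r = 𝟙 _ ∧ s' ≫ r' = 𝟙 _ ∧
    (s ≫ D.cl i' n' Y = D.cl i n X ≫ s' ∧ r ≫ D.cl i n X = D.cl i' n' Y ≫ r') ∧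
    (s' ≫ D.F i' n' Y = D.F i n X ≫ s' ∧ r' ≫ D.F i n X = D.F i' n' Y ≫ r')

/-- Long exact localization sequences for both homologies, compatible with `cl` and `F`. -/
structure LadderT (D : TateThy.{w} k E) (Z X U : Sch k) (n : ℤ) where
  L : LES (fun i => D.M i n Z) (fun i => D.M i n X) (fun i => D.M i n U)
  L' : LES (fun i => D.H i n Z) (fun i => D.H i n X) (fun i => D.H i n U)
  ca : ∀ i, L.a i ≫ D.cl i n X = D.cl i n Z ≫ L'.a i
  cb : ∀ i, L.b i ≫ D.cl i n U = D.cl i n X ≫ L'.b i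
  cd : ∀ i, L.d i ≫ D.cl i n Z = D.cl (i + 1) n U ≫ L'.d i
  fa : ∀ i, L'.a i ≫ D.F i n X = D.F i n Z ≫ L'.a i
  fb : ∀ i, L'.b i ≫ D.F i n U = D.F i n X ≫ L'.b i
  fd : ∀ i, L'.d i ≫ D.F i n Z = D.F (i + 1) n U ≫ L'.d i

/-- All cycle class maps of `X` are bijections onto the generalized eigenspaces of `F` for the
eigenvalue one: `CH_n(X, m) ⊗ ℚ_ℓ ≅ {v ∈ H_{2n + m}(X̄, ℚ_ℓ(n)) | (F - 1)^r v = 0 for some r}`. -/
def TateThy.Gen (D : TateThy.{w} k E) (X : Sch k) : Prop :=
  ∀ i n : ℤ, Function.Injective (D.cl i n X).hom ∧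
    ∀ v : D.H i n X, (∃ r : ℕ, (((D.F i n X).hom - 1) ^ r) v = 0) → ∃ x, (D.cl i n X).hom x = v

/-- The question for `X`: the maps `CH_n(X) ⊗ ℚ_ℓ → H_{2n}(X̄, ℚ_ℓ(n))^F` are bijective for all `n`. -/
def TateThy.Inv (D : TateThy.{w} k E) (X : Sch k) : Prop :=
  ∀ n : ℤ, Function.Injective (D.cl (2 * n) n X).hom ∧
    ∀ v : D.H (2 * n) n X, (D.F (2 * n) n X).hom v = v → ∃ x, (D.cl (2 * n) n X).hom x = v

/-- The standard properties of the two homologies of schemes over a finite field.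
* `finite`: the `ℓ`-adic homology is finite-dimensional;
* `iso`, `ladder`, `empty`: isomorphic schemes, the localization sequences of a closed subscheme `Z` of
  `X` with complement `U`, the empty scheme;
* `bundle`: for the affine bundle `Spec A[w_0, …, w_m] / (∑ f_l w_l - 1) → U` of dimension `m`, `U` the
  complement of `f = 0` in `Spec A`, the homology in degree `i + 2m` and weight `n + m` of the total space
  is the homology of `U` in degree `i` and weight `n`;
* `torus`: the homology of `X` in degree `i` and weight `n` is a direct summand of the homology of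
  `X × 𝔾_m` in degree `i + 2` and weight `n + 1`;
* `point`: the cycle class maps of `Spec k` are bijections onto the generalized eigenspaces
  (Quillen). -/
structure IsTate (D : TateThy.{w} k E) : Prop where
  finite : ∀ {X : Sch k}, FT True X → ∀ i n, Module.Finite E (D.H i n X)
  iso : ∀ {X Y : Sch k}, FT True X → Nonempty (X ≅ Y) → ∀ i n, D.Same i n X i n Y
  ladder : ∀ {Z X U : Sch k} (i : Z ⟶ X) (j : U ⟶ X), FT True X → IsTriple i j → ∀ n : ℤ,
    Nonempty (LadderT D Z X U n)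
  empty : ∀ X : Sch k, IsEmpty X.left → ∀ i n, Subsingleton (D.M i n X) ∧ Subsingleton (D.H i n X)
  bundle : ∀ (A : Type) [CommRing A] [Algebra k A] [Algebra.FiniteType k A] (m : ℕ)
    (f : Fin (m + 1) → A) (U : Sch k) (j : U ⟶ aff k A), IsCompl f j → ∀ i n : ℤ,
    D.Same (i + 2 * m) (n + m) (aff k (Jou f)) i n U
  torus : ∀ (A : Type) [CommRing A] [Algebra k A] [Algebra.FiniteType k A] (i n : ℤ),
    D.Summand i n (aff k A) (i + 2) (n + 1) (aff k (LaurentPolynomial A))
  point : D.Gen (aff k k)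

section ft

lemma ft_closed {Z X : Sch k} (i : Z ⟶ X) (hi : IsClosedImmersion i.left) (hX : FT True X) :
    FT True Z := by
  obtain ⟨h1, h2, h3⟩ := hX
  have h4 := h3 trivial
  have hw : Z.hom = i.left ≫ X.hom := (Over.w i).symm
  refine ⟨?_, ?_, fun _ => ?_⟩
  · rw [hw]
    infer_instance
  · rw [hw]
    infer_instance
  · rw [hw]
    infer_instance

lemma ft_open {U X : Sch k} (j : U ⟶ X) (hj : IsOpenImmersion j.left) (hX : FT True X) :
    FT True U := by
  obtain ⟨h1, h2, h3⟩ := hX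
  have h4 := h3 trivial
  have h5 : IsLocallyNoetherian X.left := LocallyOfFiniteType.isLocallyNoetherian X.hom
  have hw : U.hom = j.left ≫ X.hom := (Over.w j).symm
  refine ⟨?_, ?_, fun _ => ?_⟩
  · rw [hw]
    infer_instance
  · rw [hw]
    infer_instance
  · rw [hw]
    infer_instance

end ft

section maps

variable {A B C : ModuleCat.{w} E} {φ : A ⟶ A} {ψ : B ⟶ B} {χ : C ⟶ C}

lemma comm_hom {f : A ⟶ B} (h : f ≫ ψ = φ ≫ f) : f.hom ∘ₗ φ.hom = ψ.hom ∘ₗ f.hom :=
  (congrArg ModuleCat.Hom.hom h).symm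

/-- the generalized eigenspace -/
abbrev gn (φ : A ⟶ A) : ModuleCat.{w} E := ModuleCat.of E (gen1 φ.hom)

/-- the map of generalized eigenspaces -/
def gmap {f : A ⟶ B} (h : f ≫ ψ = φ ≫ f) : gn φ ⟶ gn ψ :=
  ModuleCat.ofHom (f.hom.restrict fun _ hv => gen1_map (comm_hom h) hv)

lemma gmap_val {f : A ⟶ B} (h : f ≫ ψ = φ ≫ f) (v : gn φ) : ((gmap h).hom v).1 = f.hom v.1 := rfl

lemma gmap_exact (hA : Module.Finite E A) (hB : Module.Finite E B) {f : A ⟶ B} {g : B ⟶ C}
    (hf : f ≫ ψ = φ ≫ f) (hg : g ≫ χ = ψ ≫ g) (h : Exc f g) : Exc (gmap hf) (gmap hg) := by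
  rintro ⟨b, hb⟩
  constructor
  · intro h0
    have h1 : g.hom b = 0 := congrArg Subtype.val h0
    obtain ⟨a, ha, hab⟩ := gen1_exact (comm_hom hf) h hb h1
    exact ⟨⟨a, ha⟩, Subtype.ext hab⟩
  · rintro ⟨⟨a, ha⟩, h0⟩
    have h1 : f.hom a = b := congrArg Subtype.val h0
    refine Subtype.ext ?_
    change g.hom b = 0
    exact (h b).mpr ⟨a, h1⟩

end maps

section cmp

/-- The cycle class maps with values in the generalized eigenspaces, as a comparison map of homology
theories. -/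
def TateThy.toCmp (D : TateThy.{w} k E) : CmpThy.{w} k E where
  M := D.M
  N i n X := gn (D.F i n X)
  c i n X := ModuleCat.ofHom ((D.cl i n X).hom.codRestrict (gen1 (D.F i n X).hom) fun x =>
    gen1_fixed (congrArg (fun g => g.hom x) (D.inv i n X)))

variable {D : TateThy.{w} k E}

lemma toCmp_val (i n : ℤ) (X : Sch k) (x : D.M i n X) :
    ((D.toCmp.c i n X).hom x).1 = (D.cl i n X).hom x := rfl

lemma gen_iff (X : Sch k) : D.Gen X ↔ ∀ i n, Bij (D.toCmp.c i n X) := by
  refine forall_congr' fun i => forall_congr' fun n => ?_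
  constructor
  · rintro ⟨h1, h2⟩
    refine ⟨fun x y hxy => h1 (congrArg Subtype.val hxy), fun v => ?_⟩
    obtain ⟨x, hx⟩ := h2 v.1 v.2
    exact ⟨x, Subtype.ext hx⟩
  · rintro ⟨h1, h2⟩
    refine ⟨fun x y hxy => h1 (Subtype.ext hxy), fun v hv => ?_⟩
    obtain ⟨x, hx⟩ := h2 ⟨v, hv⟩
    exact ⟨x, congrArg Subtype.val hx⟩

lemma same_cmp {i n : ℤ} {X : Sch k} {i' n' : ℤ} {Y : Sch k} (h : D.Same i n X i' n' Y) :
    D.toCmp.Same i n X i' n' Y := by
  obtain ⟨e, e', h1, h2⟩ := h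
  have h3 : e'.inv ≫ D.F i n X = D.F i' n' Y ≫ e'.inv := by
    rw [Iso.inv_comp_eq, ← Category.assoc, h2, Category.assoc, Iso.hom_inv_id, Category.comp_id]
  refine ⟨e, ⟨gmap h2, gmap h3, ?_, ?_⟩, ?_⟩
  · apply ModuleCat.hom_ext
    ext v
    refine Subtype.ext ?_
    change e'.inv.hom (e'.hom.hom v.1) = v.1
    exact congrArg (fun g => g.hom v.1) e'.hom_inv_id
  · apply ModuleCat.hom_ext
    ext v
    refine Subtype.ext ?_
    change e'.hom.hom (e'.inv.hom v.1) = v.1
    exact congrArg (fun g => g.hom v.1) e'.inv_hom_id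
  · apply ModuleCat.hom_ext
    ext v
    exact Subtype.ext (congrArg (fun g => g.hom v) h1)

lemma summand_cmp {i n : ℤ} {X : Sch k} {i' n' : ℤ} {Y : Sch k} (h : D.Summand i n X i' n' Y) :
    D.toCmp.Summand i n X i' n' Y := by
  obtain ⟨s, r, s', r', h1, h2, ⟨h3, h4⟩, h5, h6⟩ := h
  refine ⟨s, r, gmap h5, gmap h6, h1, ?_, ?_, ?_⟩
  · apply ModuleCat.hom_ext
    ext v
    refine Subtype.ext ?_
    change r'.hom (s'.hom v.1) = v.1
    exact congrArg (fun g => g.hom v.1) h2
  · apply ModuleCat.hom_ext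
    ext v
    exact Subtype.ext (congrArg (fun g => g.hom v) h3)
  · apply ModuleCat.hom_ext
    ext v
    exact Subtype.ext (congrArg (fun g => g.hom v) h4)

/-- the ladder for the generalized eigenspaces -/
def LadderT.toCmp {Z X U : Sch k} {n : ℤ} (L : LadderT D Z X U n)
    (hZ : ∀ i, Module.Finite E (D.H i n Z)) (hX : ∀ i, Module.Finite E (D.H i n X))
    (hU : ∀ i, Module.Finite E (D.H i n U)) : Ladder D.toCmp Z X U n where
  L := L.L
  L' :=
    { a := fun i => gmap (L.fa i)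
      b := fun i => gmap (L.fb i)
      d := fun i => gmap (L.fd i)
      exB := fun i => gmap_exact (hZ i) (hX i) (L.fa i) (L.fb i) (L.L'.exB i)
      exC := fun i => gmap_exact (hX _) (hU _) (L.fb (i + 1)) (L.fd i) (L.L'.exC i)
      exA := fun i => gmap_exact (hU _) (hZ _) (L.fd i) (L.fa i) (L.L'.exA i) }
  ca i := by
    apply ModuleCat.hom_ext
    ext v
    exact Subtype.ext (congrArg (fun g => g.hom v) (L.ca i))
  cb i := by
    apply ModuleCat.hom_ext
    ext v
    exact Subtype.ext (congrArg (fun g => g.hom v) (L.cb i))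
  cd i := by
    apply ModuleCat.hom_ext
    ext v
    exact Subtype.ext (congrArg (fun g => g.hom v) (L.cd i))

theorem isCmp_tate (hD : IsTate D) : IsCmp D.toCmp where
  iso hX e i n := same_cmp (hD.iso hX e i n)
  ladder i j hX ht n := by
    obtain ⟨L⟩ := hD.ladder i j hX ht n
    exact ⟨L.toCmp (fun m => hD.finite (ft_closed i ht.closed hX) m n)
      (fun m => hD.finite hX m n) (fun m => hD.finite (ft_open j ht.opened hX) m n)⟩
  empty X hX i n := by
    obtain ⟨h1, h2⟩ := hD.empty X hX i n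
    exact ⟨h1, ⟨fun a b => Subtype.ext (Subsingleton.elim _ _)⟩⟩
  bundle A _ _ _ m f U j hj i n := same_cmp (hD.bundle A m f U j hj i n)
  torus A _ _ _ i n := summand_cmp (hD.torus A i n)
  point := (gen_iff _).mp hD.point

/-- the closure properties -/
theorem bnd_gen (hD : IsTate D) : Bnd True D.Gen := by
  have h : D.Gen = fun X => ∀ i n, Bij (D.toCmp.c i n X) := funext fun X => propext (gen_iff X)
  rw [h]
  exact bnd_cmp (isCmp_tate hD)

/-- bijectivity onto the generalized eigenspaces implies bijectivity onto the invariants -/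
lemma inv_of_gen {X : Sch k} (h : D.Gen X) : D.Inv X := by
  intro n
  obtain ⟨h1, h2⟩ := h (2 * n) n
  exact ⟨h1, fun v hv => h2 v (gen1_fixed hv)⟩

end cmp

end Pool.Agent.Helper11U
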