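import Pool.Agent.Helper11U.Tate

/-!
# Surjectivity of cycle class maps and semisimplicity
-/

set_option autoImplicit false

open CategoryTheory CategoryTheory.Limits AlgebraicGeometry MvPolynomial
open Pool.Agent.Y116.UV Pool.Agent.Z125.UN Pool.Agent.Q282.UK Pool.Agent.Q282.UZ

namespace Pool.Agent.Helper11U

universe w w'

variable {k : Type} [Field k] {E : Type w'} [Field E]

/-- The class `x` in `M e n X` comes from a closed subscheme `Z` such that a power of the Frobenius is the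
identity on `H e n Z`. -/
def SupportedOn (D : TateThy.{w} k E) (e n : ℤ) (X : Sch k) (x : D.M e n X) : Prop :=
  ∃ (Z U : Sch k) (i : Z ⟶ X) (j : U ⟶ X) (L : LadderT D Z X U n), IsTriple i j ∧
    (∃ z, (L.L.a e).hom z = x) ∧ ∃ r : ℕ, 0 < r ∧ (D.F e n Z).hom ^ r = 1

/-- Every cycle class of dimension `n` on `X` comes from a closed subscheme `Z` such that a power of the
Frobenius is the identity on `H_{2n}(Z̄, ℚ_ℓ(n))` (`Z` of dimension `n`: the homology has the components of
`Z̄` as a basis, and Frobenius permutes them). -/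
def HasSupports (D : TateThy.{w} k E) : Prop :=
  ∀ X : Sch k, FT True X → ∀ (n : ℤ) (x : D.M (2 * n) n X), SupportedOn D (2 * n) n X x

/-- `CH_n(X, m) = 0` for `m < 0`. -/
def NoNegative (D : TateThy.{w} k E) : Prop :=
  ∀ X : Sch k, FT True X → ∀ i n : ℤ, i < 2 * n → Subsingleton (D.M i n X)

variable {D : TateThy.{w} k E}

lemma pow_fix {V : Type w} [AddCommGroup V] [Module E V] (φ : V →ₗ[E] V) (a v : V)
    (h : φ a = a + v) (hv : φ v = v) (r : ℕ) : (φ ^ r) a = a + r • v := by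
  induction r with
  | zero => rw [pow_zero, zero_smul, add_zero]; rfl
  | succ r ih =>
    rw [pow_succ', Module.End.mul_apply, ih, map_add, h, map_nsmul, hv, succ_nsmul]
    abel

theorem ss_core [CharZero E] (n m : ℤ)
    (hs : ∀ X : Sch k, FT True X → ∀ x : D.M (m + 1) n X, SupportedOn D (m + 1) n X x)
    (hn : ∀ X : Sch k, FT True X → Subsingleton (D.M m n X))
    (hQ : ∀ X : Sch k, FT True X → ∀ v : D.H (m + 1) n X,
      (D.F (m + 1) n X).hom v = v → ∃ x, (D.cl (m + 1) n X).hom x = v)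
    (X : Sch k) (hX : FT True X) (y : D.H (m + 1) n X)
    (hy : (D.F (m + 1) n X).hom ((D.F (m + 1) n X).hom y - y) = (D.F (m + 1) n X).hom y - y) :
    (D.F (m + 1) n X).hom y = y := by
  obtain ⟨x, hx⟩ := hQ X hX _ hy
  obtain ⟨Z, U, i, j, L, ht, ⟨z, rfl⟩, r, hr, hF⟩ := hs X hX x
  have hZ := ft_closed i ht.closed hX
  have hU := ft_open j ht.opened hX
  have ca : ∀ z, (D.cl (m + 1) n X).hom ((L.L.a (m + 1)).hom z) =
      (L.L'.a (m + 1)).hom ((D.cl (m + 1) n Z).hom z) :=
    fun z => congrArg (fun g => g.hom z) (L.ca (m + 1))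
  have cb : ∀ z, (D.cl (m + 1) n U).hom ((L.L.b (m + 1)).hom z) =
      (L.L'.b (m + 1)).hom ((D.cl (m + 1) n X).hom z) :=
    fun z => congrArg (fun g => g.hom z) (L.cb (m + 1))
  have fa : ∀ z, (D.F (m + 1) n X).hom ((L.L'.a (m + 1)).hom z) =
      (L.L'.a (m + 1)).hom ((D.F (m + 1) n Z).hom z) :=
    fun z => congrArg (fun g => g.hom z) (L.fa (m + 1))
  have fb : ∀ z, (D.F (m + 1) n U).hom ((L.L'.b (m + 1)).hom z) =
      (L.L'.b (m + 1)).hom ((D.F (m + 1) n X).hom z) :=
    fun z => congrArg (fun g => g.hom z) (L.fb (m + 1))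
  -- the restriction of `y` to `U` is invariant
  have h1 : (L.L'.b (m + 1)).hom ((D.F (m + 1) n X).hom y - y) = 0 := by
    rw [← hx, ca]
    exact (L.L'.exB (m + 1) _).mpr ⟨_, rfl⟩
  have h2 : (D.F (m + 1) n U).hom ((L.L'.b (m + 1)).hom y) = (L.L'.b (m + 1)).hom y := by
    rw [fb, ← sub_eq_zero, ← map_sub, h1]
  obtain ⟨u, hu⟩ := hQ U hU _ h2
  have h3 : (L.L.d m).hom u = 0 := by
    have := hn Z hZ
    exact Subsingleton.elim _ _
  obtain ⟨x', rfl⟩ := (L.L.exC m u).mp h3
  rw [cb, ← sub_eq_zero, ← map_sub] at hu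
  obtain ⟨h, hh⟩ := (L.L'.exB (m + 1) _).mp hu
  -- `y = cl x' - a h`
  have hcl : (D.F (m + 1) n X).hom ((D.cl (m + 1) n X).hom x') = (D.cl (m + 1) n X).hom x' :=
    congrArg (fun g => g.hom x') (D.inv (m + 1) n X)
  have hy2 : y = (D.cl (m + 1) n X).hom x' - (L.L'.a (m + 1)).hom h := by
    rw [hh]
    abel
  set v := (D.F (m + 1) n X).hom y - y with hv
  have h4 : (D.F (m + 1) n X).hom ((L.L'.a (m + 1)).hom h) = (L.L'.a (m + 1)).hom h + -v := by
    rw [hv, hy2, map_sub, hcl]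
    abel
  have h5 := pow_fix (D.F (m + 1) n X).hom ((L.L'.a (m + 1)).hom h) (-v) h4 (by rw [map_neg, hy]) r
  have h6 : ∀ (t : ℕ) (h : D.H (m + 1) n Z), ((D.F (m + 1) n X).hom ^ t) ((L.L'.a (m + 1)).hom h) =
      (L.L'.a (m + 1)).hom (((D.F (m + 1) n Z).hom ^ t) h) := by
    intro t
    induction t with
    | zero => exact fun _ => rfl
    | succ t ih =>
      intro h
      rw [pow_succ, pow_succ, Module.End.mul_apply, Module.End.mul_apply, fa, ih]
  rw [h6, hF, Module.End.one_apply] at h5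
  have h7 : r • (-v) = 0 := by
    have h8 := h5
    rw [left_eq_add] at h8
    exact h8
  rw [← Nat.cast_smul_eq_nsmul E, smul_eq_zero, neg_eq_zero] at h7
  rcases h7 with h7 | h7
  · rw [Nat.cast_eq_zero] at h7
    omega
  · rw [hv, sub_eq_zero] at h7
    exact h7

/-- If the maps `CH_n ⊗ ℚ_ℓ → H_{2n}(n)^F` are surjective for all schemes, then `F` acts semisimply on the
generalized eigenspace of `H_{2n}(X̄, ℚ_ℓ(n))` for the eigenvalue one. -/
theorem semisimple_one [CharZero E] (hs : HasSupports D) (hn : NoNegative D)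
    (hQ : ∀ X : Sch k, FT True X → ∀ n : ℤ, ∀ v : D.H (2 * n) n X,
      (D.F (2 * n) n X).hom v = v → ∃ x, (D.cl (2 * n) n X).hom x = v)
    (X : Sch k) (hX : FT True X) (n : ℤ) (y : D.H (2 * n) n X)
    (hy : (D.F (2 * n) n X).hom ((D.F (2 * n) n X).hom y - y) = (D.F (2 * n) n X).hom y - y) :
    (D.F (2 * n) n X).hom y = y := by
  obtain ⟨m, hm⟩ : ∃ m : ℤ, 2 * n = m + 1 := ⟨2 * n - 1, by omega⟩
  have hn' : ∀ X : Sch k, FT True X → Subsingleton (D.M m n X) := fun X hX => hn X hX m n (by omega)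
  have key : ∀ e : ℤ, e = m + 1 →
      (∀ X : Sch k, FT True X → ∀ x : D.M e n X, SupportedOn D e n X x) →
      (∀ X : Sch k, FT True X → ∀ v : D.H e n X, (D.F e n X).hom v = v →
        ∃ x, (D.cl e n X).hom x = v) →
      ∀ y : D.H e n X, (D.F e n X).hom ((D.F e n X).hom y - y) = (D.F e n X).hom y - y →
        (D.F e n X).hom y = y := by
    rintro e rfl h1 h2 y hy
    exact ss_core n m h1 hn' h2 X hX y hy
  exact key (2 * n) hm (fun X hX x => hs X hX n x) (fun X hX v => hQ X hX n v) y hy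

/-- surjectivity onto the generalized eigenspaces -/
theorem strong_of_inv [CharZero E] (hs : HasSupports D) (hn : NoNegative D)
    (hQ : ∀ X : Sch k, FT True X → ∀ n : ℤ, ∀ v : D.H (2 * n) n X,
      (D.F (2 * n) n X).hom v = v → ∃ x, (D.cl (2 * n) n X).hom x = v)
    (X : Sch k) (hX : FT True X) (n : ℤ) (v : D.H (2 * n) n X)
    (hv : ∃ r : ℕ, (((D.F (2 * n) n X).hom - 1) ^ r) v = 0) :
    ∃ x, (D.cl (2 * n) n X).hom x = v := by
  have h1 : ∀ (r : ℕ) (v : D.H (2 * n) n X), (((D.F (2 * n) n X).hom - 1) ^ r) v = 0 →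
      (D.F (2 * n) n X).hom v = v := by
    intro r
    induction r with
    | zero =>
      intro v hv
      have h0 : v = 0 := hv
      rw [h0, map_zero]
    | succ r ih =>
      intro v hv
      rw [pow_succ, Module.End.mul_apply] at hv
      exact semisimple_one hs hn hQ X hX n v (ih _ hv)
  obtain ⟨r, hr⟩ := hv
  exact hQ X hX n v (h1 r v hr)

end Pool.Agent.Helper11U
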