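import Pool.Agent.Helper11U.DegTri

/-!
# Trilinear forms whose minors have few terms
-/

set_option autoImplicit false

open CategoryTheory CategoryTheory.Limits AlgebraicGeometry MvPolynomial
open Pool.Agent.Y116.UV Pool.Agent.Z125.UN Pool.Agent.Q282.UK Pool.Agent.Q282.UZ

namespace Pool.Agent.Helper11U

/-- The polynomials which are products of polynomials with at most `m` terms. -/
noncomputable def prodTerms (σ R : Type) [CommRing R] (m : ℕ) : Submonoid (MvPolynomial σ R) :=
  Submonoid.closure {p | p.support.card ≤ m}

/-- Every minor of the matrix `T(z)` is a product of polynomials with at most `m` terms. -/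
def FewTerms {R : Type} [CommRing R] {α β γ : Type} [Fintype γ] (m : ℕ) (T : α → β → γ → R) :
    Prop :=
  ∀ (r : ℕ) (I : Fin r → α) (J : Fin r → β),
    (Matrix.of fun i j => linM T (I i) (J j)).det ∈ prodTerms γ R m

/-- `P` is true for the closed subschemes of the affine spaces of dimension at most `N` whose equations
are products of polynomials with at most `m` terms. -/
def ForTerms {R : Type} [CommRing R] (P : Sch R → Prop) (N m : ℕ) : Prop :=
  ∀ c ≤ N, ∀ (κ : Type) (g : κ → MvPolynomial (Fin c) R), (∀ k, g k ∈ prodTerms (Fin c) R m) →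
    P (aff R (MvPolynomial (Fin c) R ⧸ Ideal.span (Set.range g)))

section

variable {R : Type} [CommRing R] {σ τ : Type}

/-- `q` is a monomial (with a coefficient). -/
def IsMono (q : MvPolynomial τ R) : Prop := ∃ m r, q = monomial m r

lemma IsMono.mul {p q : MvPolynomial τ R} (hp : IsMono p) (hq : IsMono q) : IsMono (p * q) := by
  obtain ⟨m, r, rfl⟩ := hp
  obtain ⟨n, s, rfl⟩ := hq
  exact ⟨m + n, r * s, by rw [monomial_mul]⟩

lemma isMono_C (r : R) : IsMono (C r : MvPolynomial τ R) := ⟨0, r, rfl⟩

lemma IsMono.pow {p : MvPolynomial τ R} (hp : IsMono p) (n : ℕ) : IsMono (p ^ n) := by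
  induction n with
  | zero =>
    rw [pow_zero, ← C_1]
    exact isMono_C 1
  | succ n ih =>
    rw [pow_succ]
    exact ih.mul hp

lemma IsMono.prod {ι : Type} (s : Finset ι) (f : ι → MvPolynomial τ R) (h : ∀ i ∈ s, IsMono (f i)) :
    IsMono (∏ i ∈ s, f i) := by
  classical
  induction s using Finset.induction_on with
  | empty =>
    rw [Finset.prod_empty, ← C_1]
    exact isMono_C 1
  | insert a s ha ih =>
    rw [Finset.prod_insert ha]
    exact (h a (Finset.mem_insert_self a s)).mul
      (ih fun i hi => h i (Finset.mem_insert_of_mem hi))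

/-- The number of terms does not increase if monomials are substituted for the variables. -/
lemma card_aeval (v : σ → MvPolynomial τ R) (hv : ∀ i, IsMono (v i)) (p : MvPolynomial σ R) :
    (aeval v p).support.card ≤ p.support.card := by
  classical
  have h1 : ∀ m : σ →₀ ℕ, IsMono (aeval v (monomial m (coeff m p))) := by
    intro m
    rw [aeval_monomial]
    refine IsMono.mul (isMono_C _) ?_
    exact IsMono.prod _ _ fun i _ => (hv i).pow _
  choose e r he using h1
  have h2 : aeval v p = ∑ m ∈ p.support, monomial (e m) (r m) := by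
    conv_lhs => rw [p.as_sum, map_sum]
    exact Finset.sum_congr rfl fun m _ => he m
  have h3 : (aeval v p).support ⊆ p.support.image e := by
    intro n hn
    by_contra hcon
    rw [mem_support_iff] at hn
    apply hn
    rw [h2, coeff_sum]
    refine Finset.sum_eq_zero fun m hm => ?_
    rw [coeff_monomial, if_neg]
    intro h
    exact hcon (Finset.mem_image.mpr ⟨m, hm, h⟩)
  exact (Finset.card_le_card h3).trans Finset.card_image_le

lemma prodTerms_last {c m : ℕ} (r : R) {p : MvPolynomial (Fin (c + 1)) R}
    (hp : p ∈ prodTerms (Fin (c + 1)) R m) :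
    aeval (Fin.lastCases (C r) X : Fin (c + 1) → MvPolynomial (Fin c) R) p ∈
      prodTerms (Fin c) R m := by
  refine (Submonoid.closure_le.mpr ?_ : prodTerms (Fin (c + 1)) R m ≤
    (prodTerms (Fin c) R m).comap ((aeval (Fin.lastCases (C r) X :
      Fin (c + 1) → MvPolynomial (Fin c) R) : MvPolynomial (Fin (c + 1)) R →ₐ[R] _) :
      MvPolynomial (Fin (c + 1)) R →* MvPolynomial (Fin c) R)) hp
  intro q hq
  refine Submonoid.subset_closure ?_
  refine (card_aeval _ (fun i => ?_) q).trans hq
  refine Fin.lastCases ?_ (fun k => ?_) i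
  · rw [Fin.lastCases_last]
    exact isMono_C r
  · rw [Fin.lastCases_castSucc]
    exact ⟨Finsupp.single k 1, 1, rfl⟩

/-- few terms, for matrices indexed by finite types -/
lemma FewTerms.det [Fintype τ] {α β : Type} {m : ℕ} {T : α → β → τ → R}
    (h : FewTerms m T) (ι : Type) [Fintype ι] [DecidableEq ι] (I : ι → α) (J : ι → β) :
    (Matrix.of fun i j => linM T (I i) (J j)).det ∈ prodTerms τ R m := by
  let f := Fintype.equivFin ι
  have h1 := h (Fintype.card ι) (I ∘ f.symm) (J ∘ f.symm)
  have h2 : (Matrix.of fun i j => linM T ((I ∘ f.symm) i) ((J ∘ f.symm) j)) =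
      (Matrix.of fun i j => linM T (I i) (J j)).submatrix f.symm f.symm := rfl
  rwa [h2, Matrix.det_submatrix_equiv_self] at h1

variable {sep : Prop} {P : Sch R → Prop} (hP : Bnd sep P)

include hP

/-- Trilinear forms with at most `N + 1` variables `z` whose minors have few terms. -/
theorem terms_tri {N m : ℕ} (h : ForTerms P N m) {a b c : ℕ} (T : Fin a → Fin b → Fin c → R)
    (hc : c ≤ N + 1) (hT : FewTerms m T) : P (hypS T) := by
  refine (hyp_iff hP T).mpr (bilin_family hP (fun c => prodTerms (Fin c) R m) ?_ ?_ c
    (fun c' hc' κ g hg => ?_) T fun ι _ _ I J => hT.det ι I J)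
  · intro c p hp
    have := prodTerms_last (0 : R) hp
    rwa [map_zero] at this
  · intro c p hp
    have := prodTerms_last (1 : R) hp
    rwa [map_one] at this
  · exact iso_alg hP.toUni (oneE g) (h c' (by omega) κ g hg)

end

end Pool.Agent.Helper11U
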